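import Pool.Agent.Helper9.DY.CaseII

/-!
# The inequality (U1) (MP_d13a5e_al)

`u = a0 t + b d2` a root of the plane of `t`, `d2` with `b ≥ 1` and `φ u ≤ 0`.  Labels at most one.  Then
`ρ u ≤ ρ x (B x u - K)` if `|B x u| ≤ 1` and `ρ u ≤ ρ x (B x u - √((B x u)^2 - 1))` if `B x u ≥ 1`; here
`K^2 = - det Gram(t, d1, d2)`.
-/

set_option autoImplicit false

namespace DY

open Set

variable {E : Type*} [AddCommGroup E] [Module ℝ E]

/-- real part of (U1): `|B| ≤ 1` -/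
theorem u1_core {al a b c cR cL X L T U Bx q D : ℝ}
    (hD : 0 < D) (ha : 1 ≤ a * D) (hb : 1 ≤ b * D) (hL : 0 ≤ L) (hT : 0 ≤ T)
    (nrm : al ^ 2 + b ^ 2 + a ^ 2 + 2 * al * b * c + 2 * al * a * cR - 2 * a * b * cL = 1)
    (hB : Bx = al + b * c + a * cR)
    (hM : q * D ^ 2 * X ^ 2 ≤
      (1 - cR ^ 2) * L ^ 2 + (1 - c ^ 2) * T ^ 2 + 2 * (cL + c * cR) * L * T)
    (hU : U = X * Bx - (b * L + a * T)) (h1 : Bx ≤ 1) (h1' : -1 ≤ Bx) :
    U ≤ X * (Bx - √q) := by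
  have ha0 : 0 < a := by
    by_contra h
    nlinarith only [ha, mul_nonneg (sub_nonneg.mpr (not_lt.mp h)) hD.le]
  have hb0 : 0 < b := by
    by_contra h
    nlinarith only [hb, mul_nonneg (sub_nonneg.mpr (not_lt.mp h)) hD.le]
  have haD : 1 ≤ (a * D) ^ 2 := by nlinarith only [ha]
  have hbD : 1 ≤ (b * D) ^ 2 := by nlinarith only [hb]
  have e1 : 1 - Bx ^ 2 = b ^ 2 * (1 - c ^ 2) + a ^ 2 * (1 - cR ^ 2) - 2 * a * b * (cL + c * cR) := by
    rw [hB]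
    linear_combination (-1) * nrm
  have e2 : 0 ≤ 1 - Bx ^ 2 := by nlinarith only [h1, h1']
  have e3 : 0 ≤ a * b * (a * b * D ^ 2 - (cL + c * cR)) := by
    have k1 : 0 ≤ b ^ 2 * ((a * D) ^ 2 - 1) := by nlinarith only [haD, sq_nonneg b]
    have k2 : 0 ≤ a ^ 2 * ((b * D) ^ 2 - 1) := by nlinarith only [hbD, sq_nonneg a]
    have k3 : 0 ≤ b ^ 2 * c ^ 2 := by positivity
    have k4 : 0 ≤ a ^ 2 * cR ^ 2 := by positivity
    nlinarith only [e1, e2, k1, k2]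
  have e4 : cL + c * cR ≤ a * b * D ^ 2 := by
    have := nonneg_of_mul_nonneg_right e3 (mul_pos ha0 hb0)
    linarith only [this]
  have e5 : (1 - cR ^ 2) * L ^ 2 + (1 - c ^ 2) * T ^ 2 + 2 * (cL + c * cR) * L * T ≤
      D ^ 2 * (b * L + a * T) ^ 2 := by
    have k1 : 0 ≤ ((b * D) ^ 2 - 1 + cR ^ 2) * L ^ 2 := by
      apply mul_nonneg _ (sq_nonneg _)
      nlinarith only [hbD, sq_nonneg cR]
    have k2 : 0 ≤ ((a * D) ^ 2 - 1 + c ^ 2) * T ^ 2 := by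
      apply mul_nonneg _ (sq_nonneg _)
      nlinarith only [haD, sq_nonneg c]
    have k3 : 0 ≤ (a * b * D ^ 2 - (cL + c * cR)) * (L * T) :=
      mul_nonneg (by linarith only [e4]) (mul_nonneg hL hT)
    nlinarith only [k1, k2, k3]
  have e6 : q * X ^ 2 ≤ (b * L + a * T) ^ 2 := by
    have k1 : D ^ 2 * (q * X ^ 2) ≤ D ^ 2 * (b * L + a * T) ^ 2 := by nlinarith only [hM, e5]
    exact le_of_mul_le_mul_left k1 (by positivity)
  have e7 : 0 ≤ b * L + a * T := by positivity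
  have e8 : √q * X ≤ b * L + a * T := by
    rcases le_total 0 q with h | h
    · apply le_of_sq_le_sq _ e7
      rw [mul_pow, Real.sq_sqrt h]
      exact e6
    · rw [Real.sqrt_eq_zero_of_nonpos h, zero_mul]
      exact e7
  rw [hU]
  linarith only [e8]

/-- real part of (U1): `B ≥ 1` -/
theorem u1_core' {al a b c cR cL X L T U Bx q D : ℝ}
    (hD : 0 < D) (ha : 0 ≤ a) (hb : 0 ≤ b) (hL : 0 ≤ L) (hT : 0 ≤ T)
    (nrm : al ^ 2 + b ^ 2 + a ^ 2 + 2 * al * b * c + 2 * al * a * cR - 2 * a * b * cL = 1)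
    (hB : Bx = al + b * c + a * cR)
    (hq : q * D ^ 2 = c ^ 2 + cR ^ 2 + cL ^ 2 + 2 * c * cR * cL - 1) (hq0 : 0 < q)
    (hM : q * D ^ 2 * X ^ 2 ≤
      (1 - cR ^ 2) * L ^ 2 + (1 - c ^ 2) * T ^ 2 + 2 * (cL + c * cR) * L * T)
    (hU : U = X * Bx - (b * L + a * T)) (h1 : 1 ≤ Bx) :
    U ≤ X * (Bx - √(Bx ^ 2 - 1)) := by
  have e1 : 1 - Bx ^ 2 = b ^ 2 * (1 - c ^ 2) + a ^ 2 * (1 - cR ^ 2) - 2 * a * b * (cL + c * cR) := by
    rw [hB]
    linear_combination (-1) * nrm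
  have e2 : 0 ≤ Bx ^ 2 - 1 := by nlinarith only [h1]
  have hqD : 0 < q * D ^ 2 := by positivity
  have e3 : q * D ^ 2 * (b * L + a * T) ^ 2 =
      (Bx ^ 2 - 1) * ((1 - cR ^ 2) * L ^ 2 + (1 - c ^ 2) * T ^ 2 + 2 * (cL + c * cR) * L * T) +
      (((1 - c ^ 2) * b - (cL + c * cR) * a) * T - ((1 - cR ^ 2) * a - (cL + c * cR) * b) * L) ^ 2 := by
    have e4 : Bx ^ 2 - 1 = -(b ^ 2 * (1 - c ^ 2) + a ^ 2 * (1 - cR ^ 2) - 2 * a * b * (cL + c * cR)) := by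
      linarith only [e1]
    rw [e4, hq]
    ring
  have e4 : q * D ^ 2 * ((Bx ^ 2 - 1) * X ^ 2) ≤ q * D ^ 2 * (b * L + a * T) ^ 2 := by
    rw [e3]
    have := mul_le_mul_of_nonneg_left hM e2
    nlinarith only [this, sq_nonneg (((1 - c ^ 2) * b - (cL + c * cR) * a) * T -
      ((1 - cR ^ 2) * a - (cL + c * cR) * b) * L)]
  have e5 : (Bx ^ 2 - 1) * X ^ 2 ≤ (b * L + a * T) ^ 2 := le_of_mul_le_mul_left e4 hqD
  have e7 : 0 ≤ b * L + a * T := by positivity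
  have e8 : √(Bx ^ 2 - 1) * X ≤ b * L + a * T := by
    apply le_of_sq_le_sq _ e7
    rw [mul_pow, Real.sq_sqrt e2]
    exact e5
  rw [hU]
  linarith only [e8]

private theorem conic_trans {S11 S12 S22 x1 x2 y1 y2 p1 p2 A Bm C px py : ℝ}
    (hA : A = x1 ^ 2 * S11 + 2 * x1 * x2 * S12 + x2 ^ 2 * S22)
    (hC : C = y1 ^ 2 * S11 + 2 * y1 * y2 * S12 + y2 ^ 2 * S22)
    (hB : Bm = x1 * y1 * S11 + (x1 * y2 + x2 * y1) * S12 + x2 * y2 * S22)
    (hpx : px = x1 * p1 + x2 * p2) (hpy : py = y1 * p1 + y2 * p2) :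
    A * C - Bm ^ 2 + C * px ^ 2 + A * py ^ 2 - 2 * Bm * px * py =
      (x2 * y1 - x1 * y2) ^ 2 *
        (S11 * S22 - S12 ^ 2 + S22 * p1 ^ 2 + S11 * p2 ^ 2 - 2 * S12 * p1 * p2) := by
  subst hA hC hB hpx hpy
  ring

private theorem det_trans {S11 S12 S22 x1 x2 y1 y2 A Bm C : ℝ}
    (hA : A = x1 ^ 2 * S11 + 2 * x1 * x2 * S12 + x2 ^ 2 * S22)
    (hC : C = y1 ^ 2 * S11 + 2 * y1 * y2 * S12 + y2 ^ 2 * S22)
    (hB : Bm = x1 * y1 * S11 + (x1 * y2 + x2 * y1) * S12 + x2 * y2 * S22) :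
    A * C - Bm ^ 2 = (x2 * y1 - x1 * y2) ^ 2 * (S11 * S22 - S12 ^ 2) := by
  subst hA hC hB
  ring

section

variable {Ψ : Set E} {B : E →ₗ[ℝ] E →ₗ[ℝ] ℝ} {ρ φ : E →ₗ[ℝ] ℝ} {t d1 d2 x x' : E}
variable {g x1 x2 g' x1' x2' : ℝ}

/-- minus the Gram determinant of the simple system, in terms of the values of `B` -/
def kq (B : E →ₗ[ℝ] E →ₗ[ℝ] ℝ) (t d1 d2 : E) : ℝ :=
  B t d1 ^ 2 + B t d2 ^ 2 + B d1 d2 ^ 2 - 2 * B t d1 * B t d2 * B d1 d2 - 1

/-- **(U1)** -/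
theorem Xs.u1 (X : Xs Ψ B ρ φ t d1 d2 x x' g x1 x2 g' x1' x2') (l1 : -1 ≤ B t d1)
    (l2 : -1 ≤ B t d2) (l0 : -1 ≤ B d1 d2) {a0 b : ℝ} (hu : a0 • t + b • d2 ∈ Ψ) (hb : 1 ≤ b)
    (hd : 1 ≤ b * (g * x1' - g' * x1) - a0 * (x2 * x1' - x1 * x2')) :
    (a0 + b * ρ d2 ≤ ρ x * B x (a0 • t + b • d2)) ∧
    (-1 ≤ B x (a0 • t + b • d2) → B x (a0 • t + b • d2) ≤ 1 →
      a0 + b * ρ d2 ≤ ρ x * (B x (a0 • t + b • d2) - √(kq B t d1 d2))) ∧
    (0 < kq B t d1 d2 → 1 ≤ B x (a0 • t + b • d2) →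
      a0 + b * ρ d2 ≤ ρ x * (B x (a0 • t + b • d2) - √(B x (a0 • t + b • d2) ^ 2 - 1))) := by
  have L := X.L
  have hD : 0 < x2 * x1' - x1 * x2' := by linarith only [X.st]
  set D := x2 * x1' - x1 * x2' with hDd
  set P := b * (g * x1' - g' * x1) - a0 * D with hPd
  -- norms and values of `B`
  have hS := L.tri.sys
  have cx : B t x ≤ 0 := L.cxt.nonpos hS L.xm L.tri.ha
  have cx' : B t x' ≤ 0 := L.cxt'.nonpos hS L.xm' L.tri.ha
  have cc : B x' x ≤ 0 := L.cxx.nonpos hS L.xm L.xm'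
  have sxt : B x t = B t x := hS.symm _ _
  have sxt' : B x' t = B t x' := hS.symm _ _
  have sxx : B x x' = B x' x := hS.symm _ _
  have o1 : B x x = 1 := hS.one x L.xm
  have o2 : B x' x' = 1 := hS.one x' L.xm'
  have o3 : B t t = 1 := hS.one t L.tri.ha
  have t1 : B t x = g + x1 * B t d1 + x2 * B t d2 := by
    rw [X.e]
    simp only [map_add, map_smul, smul_eq_mul, o3]
    ring
  have t2 : B t x' = g' + x1' * B t d1 + x2' * B t d2 := by
    rw [X.e']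
    simp only [map_add, map_smul, smul_eq_mul, o3]
    ring
  have n1 : g * g + x1 * x1 + x2 * x2 + B t d1 * (g * x1 + x1 * g) + B t d2 * (g * x2 + x2 * g) +
      B d1 d2 * (x1 * x2 + x2 * x1) = 1 := by
    rw [← L.val_B, ← X.e]
    exact o1
  have n2 : g' * g' + x1' * x1' + x2' * x2' + B t d1 * (g' * x1' + x1' * g') +
      B t d2 * (g' * x2' + x2' * g') + B d1 d2 * (x1' * x2' + x2' * x1') = 1 := by
    rw [← L.val_B, ← X.e']
    exact o2
  have n3 : B x' x = g' * g + x1' * x1 + x2' * x2 + B t d1 * (g' * x1 + x1' * g) +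
      B t d2 * (g' * x2 + x2' * g) + B d1 d2 * (x1' * x2 + x2' * x1) := by
    rw [← L.val_B, ← X.e, ← X.e']
  -- the vector identity
  have hv : D • (a0 • t + b • d2) = (b * x1') • x - (b * x1) • x' - P • t := by
    rw [X.e, X.e', hPd, hDd]
    module
  have ou : B (a0 • t + b • d2) (a0 • t + b • d2) = 1 := hS.one _ hu
  have w1 : D ^ 2 = (b * x1') ^ 2 + (b * x1) ^ 2 + P ^ 2 - 2 * (b * x1') * (b * x1) * B x' x -
      2 * (b * x1') * P * B t x + 2 * (b * x1) * P * B t x' := by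
    have h1 : B (D • (a0 • t + b • d2)) (D • (a0 • t + b • d2)) = D ^ 2 := by
      rw [map_smul, map_smul, LinearMap.smul_apply, ou, smul_eq_mul, smul_eq_mul]
      ring
    rw [← h1, hv]
    simp only [map_sub, map_smul, LinearMap.sub_apply, LinearMap.smul_apply, smul_eq_mul, o1, o2, o3,
      sxt, sxt', sxx]
    ring
  have w2 : D * B x (a0 • t + b • d2) = b * x1' - b * x1 * B x' x - P * B t x := by
    have h1 : B x (D • (a0 • t + b • d2)) = D * B x (a0 • t + b • d2) := by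
      rw [map_smul, smul_eq_mul]
    rw [← h1, hv]
    simp only [map_sub, map_smul, smul_eq_mul, o1, sxt, sxx]
    ring
  have w3 : D * (a0 + b * ρ d2) = b * x1' * ρ x - b * x1 * ρ x' - P := by
    have h1 : ρ (D • (a0 • t + b • d2)) = D * (a0 + b * ρ d2) := by
      rw [map_smul, map_add, map_smul, map_smul, L.rt]
      simp only [smul_eq_mul]
      ring
    rw [← h1, hv]
    simp only [map_sub, map_smul, smul_eq_mul, L.rt]
    ring
  -- the conic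
  have hdq : 0 ≤ dq B ρ t d1 d2 := L.adm.conic L.tri l1 l2 l0
  have fA : 1 - (-B t x) ^ 2 = x1 ^ 2 * (1 - B t d1 ^ 2) + 2 * x1 * x2 * (B d1 d2 - B t d1 * B t d2) +
      x2 ^ 2 * (1 - B t d2 ^ 2) := by
    rw [t1]
    linear_combination (-1) * n1
  have fC : 1 - (-B t x') ^ 2 = x1' ^ 2 * (1 - B t d1 ^ 2) +
      2 * x1' * x2' * (B d1 d2 - B t d1 * B t d2) + x2' ^ 2 * (1 - B t d2 ^ 2) := by
    rw [t2]
    linear_combination (-1) * n2
  have fB : B x' x - (-B t x) * (-B t x') = x1 * x1' * (1 - B t d1 ^ 2) +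
      (x1 * x2' + x2 * x1') * (B d1 d2 - B t d1 * B t d2) + x2 * x2' * (1 - B t d2 ^ 2) := by
    rw [t1, t2, n3]
    ring
  have fp : ρ x - B t x = x1 * (ρ d1 - B t d1) + x2 * (ρ d2 - B t d2) := by
    rw [t1, X.rx]
    ring
  have fp' : ρ x' - B t x' = x1' * (ρ d1 - B t d1) + x2' * (ρ d2 - B t d2) := by
    rw [t2, X.rx']
    ring
  have T1 := conic_trans fA fC fB fp fp'
  have T2 := det_trans fA fC fB
  rw [← hDd] at T1 T2
  have hq : kq B t d1 d2 * D ^ 2 = (-B x' x) ^ 2 + (-B t x) ^ 2 + (-B t x') ^ 2 +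
      2 * (-B x' x) * (-B t x) * (-B t x') - 1 := by
    unfold kq
    linear_combination T2
  have hM : kq B t d1 d2 * D ^ 2 * (ρ x) ^ 2 ≤
      (1 - (-B t x) ^ 2) * (ρ x' + -B x' x * ρ x) ^ 2 + (1 - (-B x' x) ^ 2) * (1 + -B t x * ρ x) ^ 2 +
      2 * (-B t x' + -B x' x * -B t x) * (ρ x' + -B x' x * ρ x) * (1 + -B t x * ρ x) := by
    have h1 : 0 ≤ D ^ 2 * dq B ρ t d1 d2 := mul_nonneg (sq_nonneg _) hdq
    have h2 : D ^ 2 * dq B ρ t d1 d2 = D ^ 2 *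
        ((1 - B t d1 ^ 2) * (1 - B t d2 ^ 2) - (B d1 d2 - B t d1 * B t d2) ^ 2 +
        (1 - B t d2 ^ 2) * (ρ d1 - B t d1) ^ 2 + (1 - B t d1 ^ 2) * (ρ d2 - B t d2) ^ 2 -
        2 * (B d1 d2 - B t d1 * B t d2) * (ρ d1 - B t d1) * (ρ d2 - B t d2)) := by
      unfold dq
      rw [L.rt]
      ring
    rw [hq]
    rw [h2, ← T1] at h1
    linear_combination h1
  have hL : 0 ≤ ρ x' + -B x' x * ρ x := by
    have := mul_nonneg (neg_nonneg.mpr cc) L.rx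
    linarith only [this, L.rx']
  have hT : 0 ≤ 1 + -B t x * ρ x := by
    have := mul_nonneg (neg_nonneg.mpr cx) L.rx
    linarith only [this]
  have hbD : 1 ≤ b * x1 / D * D := by
    rw [div_mul_cancel₀ _ hD.ne']
    nlinarith only [hb, X.p1]
  have haD : 1 ≤ P / D * D := by
    rw [div_mul_cancel₀ _ hD.ne']
    exact hd
  have hnrm : (b * x1' / D) ^ 2 + (b * x1 / D) ^ 2 + (P / D) ^ 2 +
      2 * (b * x1' / D) * (b * x1 / D) * -B x' x + 2 * (b * x1' / D) * (P / D) * -B t x -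
      2 * (P / D) * (b * x1 / D) * -B t x' = 1 := by
    field_simp
    linear_combination (-1) * w1
  have hBx : B x (a0 • t + b • d2) = b * x1' / D + b * x1 / D * -B x' x + P / D * -B t x := by
    field_simp
    linear_combination w2
  have hUx : a0 + b * ρ d2 = ρ x * B x (a0 • t + b • d2) -
      (b * x1 / D * (ρ x' + -B x' x * ρ x) + P / D * (1 + -B t x * ρ x)) := by
    rw [hBx]
    field_simp
    linear_combination w3
  have hb0 : 0 ≤ b * x1 / D := div_nonneg (mul_nonneg (by linarith only [hb]) (by linarith only [X.p1])) hD.le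
  have ha0 : 0 ≤ P / D := div_nonneg (by linarith only [hd]) hD.le
  refine ⟨?_, ?_, ?_⟩
  · rw [hUx]
    have := add_nonneg (mul_nonneg hb0 hL) (mul_nonneg ha0 hT)
    linarith only [this]
  · intro h1 h2
    exact u1_core hD haD hbD hL hT hnrm hBx hM hUx h2 h1
  · intro h1 h2
    exact u1_core' hD ha0 hb0 hL hT hnrm hBx hq h1 hM hUx h2

end

end DY
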