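import Pool.Agent.Helper70.DY.F0

/-!
# Reduction of tightness of the balls to triangle systems (MP_d13a5e_al, block R)
-/

namespace DY

open Set

variable {E : Type*} [AddCommGroup E] [Module ℝ E]

section cl

variable {B : E →ₗ[ℝ] E →ₗ[ℝ] ℝ}

theorem Cl.trans {S T : Set E} (h : ∀ u ∈ S, Cl B T u) {u : E} (hu : Cl B S u) : Cl B T u := by
  induction hu with
  | base h1 => exact h _ h1
  | neg _ ih => exact ih.neg
  | refl _ _ ih1 ih2 => exact ih1.refl ih2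

theorem Cl.mono {S T : Set E} (h : S ⊆ T) {u : E} (hu : Cl B S u) : Cl B T u :=
  hu.trans fun _ h1 => Cl.base (h h1)

theorem rf_neg_right (u v : E) : rf B u (-v) = -rf B u v := by
  unfold rf
  rw [map_neg]
  module

theorem rf_neg_left (u v : E) : rf B (-u) v = rf B u v := by
  unfold rf
  rw [map_neg, LinearMap.neg_apply]
  module

theorem rf_rf {u : E} (hu : B u u = 1) (v : E) : rf B u (rf B u v) = v := by
  unfold rf
  rw [map_sub, map_smul, hu, smul_eq_mul]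
  module

theorem rf_self {u : E} (hu : B u u = 1) : rf B u u = -u := by
  unfold rf
  rw [hu]
  module

theorem B_rf (hs : ∀ u v, B u v = B v u) {s : E} (h1 : B s s = 1) (u v : E) :
    B (rf B s u) (rf B s v) = B u v := by
  unfold rf
  simp only [map_sub, map_smul, LinearMap.sub_apply, LinearMap.smul_apply, smul_eq_mul, h1,
    hs u s]
  ring

theorem rf_conj (hs : ∀ u v, B u v = B v u) {s : E} (h1 : B s s = 1) (u v : E) :
    rf B s (rf B u v) = rf B (rf B s u) (rf B s v) := by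
  have h2 := B_rf hs h1 u v
  have h3 : rf B (rf B s u) (rf B s v) = rf B s v - (2 * B u v) • rf B s u := by
    conv_lhs => unfold rf
    rw [← h2]
    rfl
  rw [h3]
  unfold rf
  rw [map_sub, map_smul, smul_eq_mul]
  module

theorem Cl.rf_map (hs : ∀ u v, B u v = B v u) {s : E} (h1 : B s s = 1) {S T : Set E}
    (h : ∀ v ∈ S, Cl B T (rf B s v)) {u : E} (hu : Cl B S u) : Cl B T (rf B s u) := by
  induction hu with
  | base h2 => exact h _ h2
  | neg _ ih =>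
    rw [rf_neg_right]
    exact ih.neg
  | refl _ _ ih1 ih2 =>
    rw [rf_conj hs h1]
    exact ih1.refl ih2

theorem Cl.mem_span {S : Set E} {u : E} (hu : Cl B S u) : u ∈ Submodule.span ℝ S := by
  induction hu with
  | base h2 => exact Submodule.subset_span h2
  | neg _ ih => exact Submodule.neg_mem _ ih
  | refl _ _ ih1 ih2 =>
    unfold rf
    exact Submodule.sub_mem _ ih2 (Submodule.smul_mem _ _ ih1)

end cl

namespace RS

variable {Φ : Set E} {B : E →ₗ[ℝ] E →ₗ[ℝ] ℝ} {ρ : E →ₗ[ℝ] ℝ} (h : RS Φ B ρ)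

include h

theorem cl_mem {S : Set E} (hS : S ⊆ Φ) {u : E} (hu : Cl B S u) : u ∈ Φ ∨ -u ∈ Φ := by
  induction hu with
  | base h2 => exact Or.inl (hS h2)
  | neg _ ih =>
    rw [neg_neg]
    exact ih.symm
  | refl _ _ ih1 ih2 =>
    rename_i u v _ _
    rcases ih1 with h1 | h1
    · rcases ih2 with h2 | h2
      · exact h.refl _ h1 _ h2
      · have h3 := h.refl _ h1 _ h2
        rw [rf_neg_right, neg_neg] at h3
        exact h3.symm
    · rcases ih2 with h2 | h2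
      · have h3 := h.refl _ h1 _ h2
        rw [rf_neg_left] at h3
        exact h3
      · have h3 := h.refl _ h1 _ h2
        rw [rf_neg_left, rf_neg_right, neg_neg] at h3
        exact h3.symm

theorem sub (S : Set E) : RS {u | u ∈ Φ ∧ Cl B S u} B ρ where
  symm := h.symm
  one := fun u hu => h.one u hu.1
  pos := fun u hu => h.pos u hu.1
  refl := by
    rintro u ⟨hu, hu'⟩ v ⟨hv, hv'⟩
    rcases h.refl u hu v hv with h1 | h1
    · exact Or.inl ⟨h1, hu'.refl hv'⟩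
    · exact Or.inr ⟨h1, (hu'.refl hv').neg⟩
  fin := fun r => (h.fin r).subset fun u hu => ⟨hu.1.1, hu.2⟩
  inv := fun u hu => (h.inv u hu.1).subset fun v hv => ⟨hv.1.1, hv.2.1⟩
  inj := fun u hu v hv => h.inj u hu.1 v hv.1

theorem exists_min {S : Set E} (hS : S ⊆ Φ) (hne : S.Nonempty) : ∃ x ∈ S, ∀ z ∈ S, ρ x ≤ ρ z := by
  obtain ⟨z0, hz0⟩ := hne
  have hf : (S ∩ ball Φ ρ (ρ z0)).Finite := (h.fin _).subset inter_subset_right
  obtain ⟨x, hx, hxm⟩ := hf.exists_minimalFor ρ _ ⟨z0, hz0, hS hz0, le_rfl⟩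
  refine ⟨x, hx.1, fun z hz => ?_⟩
  by_contra hh
  rw [not_le] at hh
  have hzb : z ∈ S ∩ ball Φ ρ (ρ z0) := ⟨hz, hS hz, hh.le.trans hx.2.2⟩
  exact absurd (hxm hzb hh.le) (not_le.mpr hh)

/-- one step down in a plane -/
theorem down {x y : E} (hx : x ∈ Φ) (hy : y ∈ Φ) (hxy : x ≠ y)
    (hall : ∀ w ∈ Φ, w ∈ Submodule.span ℝ ({x, y} : Set E) →
      ∃ a b : ℝ, w = a • x + b • y ∧ (a = 0 ∧ b = 1 ∨ a = 1 ∧ b = 0 ∨ 1 ≤ a ∧ 1 ≤ b))
    {w : E} (hw : w ∈ Φ) (hwP : w ∈ Submodule.span ℝ ({x, y} : Set E)) (hwx : w ≠ x)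
    (hwy : w ≠ y) : ∃ s, (s = x ∨ s = y) ∧ rf B s w ∈ Φ ∧
      rf B s w ∈ Submodule.span ℝ ({x, y} : Set E) ∧ ρ (rf B s w) < ρ w := by
  have hxP : x ∈ Submodule.span ℝ ({x, y} : Set E) := Submodule.subset_span (by simp)
  have hyP : y ∈ Submodule.span ℝ ({x, y} : Set E) := Submodule.subset_span (by simp)
  obtain ⟨a, b, e, hab⟩ := hall w hw hwP
  rcases hab with ⟨ha, hb⟩ | ⟨ha, hb⟩ | ⟨ha, hb⟩
  · exact absurd (by rw [e, ha, hb, zero_smul, one_smul, zero_add]) hwy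
  · exact absurd (by rw [e, ha, hb, zero_smul, one_smul, add_zero]) hwx
  have h1 := h.one w hw
  have h2 : a * B x w + b * B y w = 1 := by
    have h0 : B (a • x + b • y) w = 1 := by rw [← e]; exact h1
    rw [map_add, map_smul, map_smul, LinearMap.add_apply, LinearMap.smul_apply,
      LinearMap.smul_apply, smul_eq_mul, smul_eq_mul] at h0
    exact h0
  have hρx := h.pos x hx
  have hρy := h.pos y hy
  by_cases h3 : 0 < B x w
  · have e2 : rf B x w = (a - 2 * B x w) • x + b • y := by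
      unfold rf
      rw [sub_smul, sub_add_eq_add_sub, ← e]
    have h5 : rf B x w ∈ Submodule.span ℝ ({x, y} : Set E) := by
      rw [e2]
      exact Submodule.add_mem _ (Submodule.smul_mem _ _ hxP) (Submodule.smul_mem _ _ hyP)
    refine ⟨x, Or.inl rfl, ?_, h5, ?_⟩
    · rcases h.refl x hx w hw with h4 | h4
      · exact h4
      · exfalso
        obtain ⟨a', b', e', hab'⟩ := hall _ h4 (Submodule.neg_mem _ h5)
        have h6 : a' • x + b' • y = (-(a - 2 * B x w)) • x + (-b) • y := by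
          rw [← e', e2]
          module
        have h7 := (h.indep hx hy hxy (a' + (a - 2 * B x w)) (b' + b) (by
          rw [← sub_eq_zero] at h6
          rw [← h6]
          module)).2
        rcases hab' with ⟨-, h8⟩ | ⟨-, h8⟩ | ⟨-, h8⟩ <;> linarith
    · unfold rf
      rw [map_sub, map_smul, smul_eq_mul]
      have := mul_pos h3 hρx
      linarith
  · have h3' : 0 < B y w := by
      by_contra h4
      rw [not_lt] at h3 h4
      have := mul_nonpos_of_nonneg_of_nonpos (by linarith : (0 : ℝ) ≤ a) h3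
      have := mul_nonpos_of_nonneg_of_nonpos (by linarith : (0 : ℝ) ≤ b) h4
      linarith
    have e2 : rf B y w = a • x + (b - 2 * B y w) • y := by
      unfold rf
      rw [sub_smul, ← add_sub_assoc, ← e]
    have h5 : rf B y w ∈ Submodule.span ℝ ({x, y} : Set E) := by
      rw [e2]
      exact Submodule.add_mem _ (Submodule.smul_mem _ _ hxP) (Submodule.smul_mem _ _ hyP)
    refine ⟨y, Or.inr rfl, ?_, h5, ?_⟩
    · rcases h.refl y hy w hw with h4 | h4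
      · exact h4
      · exfalso
        obtain ⟨a', b', e', hab'⟩ := hall _ h4 (Submodule.neg_mem _ h5)
        have h6 : a' • x + b' • y = (-a) • x + (-(b - 2 * B y w)) • y := by
          rw [← e', e2]
          module
        have h7 := (h.indep hx hy hxy (a' + a) (b' + (b - 2 * B y w)) (by
          rw [← sub_eq_zero] at h6
          rw [← h6]
          module)).1
        rcases hab' with ⟨h8, -⟩ | ⟨h8, -⟩ | ⟨h8, -⟩ <;> linarith
    · unfold rf
      rw [map_sub, map_smul, smul_eq_mul]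
      have := mul_pos h3' hρy
      linarith

/-- the canonical generators generate -/
theorem cl_plane {x y : E} (hx : x ∈ Φ) (hy : y ∈ Φ) (hxy : x ≠ y)
    (hall : ∀ w ∈ Φ, w ∈ Submodule.span ℝ ({x, y} : Set E) →
      ∃ a b : ℝ, w = a • x + b • y ∧ (a = 0 ∧ b = 1 ∨ a = 1 ∧ b = 0 ∨ 1 ≤ a ∧ 1 ≤ b)) :
    ∀ w ∈ Φ, w ∈ Submodule.span ℝ ({x, y} : Set E) → Cl B {x, y} w := by
  by_contra hcon
  push Not at hcon
  obtain ⟨w0, hw0⟩ := hcon
  obtain ⟨w, ⟨hw, hwP, hwc⟩, hwm⟩ := h.exists_min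
    (S := {w | w ∈ Φ ∧ w ∈ Submodule.span ℝ ({x, y} : Set E) ∧ ¬ Cl B {x, y} w})
    (fun w hw => hw.1) ⟨w0, hw0⟩
  have hwx : w ≠ x := fun h1 => hwc (h1 ▸ Cl.base (by simp))
  have hwy : w ≠ y := fun h1 => hwc (h1 ▸ Cl.base (by simp))
  obtain ⟨s, hs, h1, h2, h3⟩ := h.down hx hy hxy hall hw hwP hwx hwy
  have hsΦ : s ∈ Φ := by rcases hs with rfl | rfl <;> assumption
  have hsC : Cl B {x, y} s := by rcases hs with rfl | rfl <;> exact Cl.base (by simp)
  have h4 : Cl B {x, y} (rf B s w) := by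
    by_contra h5
    exact absurd (hwm _ ⟨h1, h2, h5⟩) (not_le.mpr h3)
  apply hwc
  rw [← rf_rf (h.one s hsΦ) w]
  exact hsC.refl h4

/-- each root of a plane can be completed to a pair of generators -/
theorem exists_gen {x y : E} (hx : x ∈ Φ) (hy : y ∈ Φ) (hxy : x ≠ y)
    (hall : ∀ w ∈ Φ, w ∈ Submodule.span ℝ ({x, y} : Set E) →
      ∃ a b : ℝ, w = a • x + b • y ∧ (a = 0 ∧ b = 1 ∨ a = 1 ∧ b = 0 ∨ 1 ≤ a ∧ 1 ≤ b)) :
    ∀ f ∈ Φ, f ∈ Submodule.span ℝ ({x, y} : Set E) → ∃ g ∈ Φ, Cl B {f, g} x ∧ Cl B {f, g} y := by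
  by_contra hcon
  push Not at hcon
  obtain ⟨w0, hw0, hw0', hw0''⟩ := hcon
  obtain ⟨w, ⟨hw, hwP, hwc⟩, hwm⟩ := h.exists_min
    (S := {f | f ∈ Φ ∧ f ∈ Submodule.span ℝ ({x, y} : Set E) ∧
      ¬ ∃ g ∈ Φ, Cl B {f, g} x ∧ Cl B {f, g} y})
    (fun w hw => hw.1) ⟨w0, hw0, hw0', fun ⟨g, h1, h2, h3⟩ => hw0'' g h1 h2 h3⟩
  have hwx : w ≠ x := by
    rintro rfl
    exact hwc ⟨y, hy, Cl.base (by simp), Cl.base (by simp)⟩
  have hwy : w ≠ y := by
    rintro rfl
    exact hwc ⟨x, hx, Cl.base (by simp), Cl.base (by simp)⟩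
  obtain ⟨s, hs, h1, h2, h3⟩ := h.down hx hy hxy hall hw hwP hwx hwy
  have hsΦ : s ∈ Φ := by rcases hs with rfl | rfl <;> assumption
  have hs1 := h.one s hsΦ
  have h4 : ∃ g ∈ Φ, Cl B {rf B s w, g} x ∧ Cl B {rf B s w, g} y := by
    by_contra h5
    exact absurd (hwm _ ⟨h1, h2, h5⟩) (not_le.mpr h3)
  obtain ⟨g', hg', h5, h6⟩ := h4
  obtain ⟨g, hg, hgg⟩ : ∃ g ∈ Φ, g = rf B s g' ∨ g = -rf B s g' := by
    rcases h.refl s hsΦ g' hg' with h7 | h7
    · exact ⟨_, h7, Or.inl rfl⟩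
    · exact ⟨_, h7, Or.inr rfl⟩
  have hgC : Cl B {w, g} (rf B s g') := by
    have h7 : Cl B {w, g} g := Cl.base (by simp)
    rcases hgg with h8 | h8
    · rw [← h8]
      exact h7
    · have h9 : rf B s g' = -g := by rw [h8, neg_neg]
      rw [h9]
      exact h7.neg
  have hm : ∀ v ∈ ({rf B s w, g'} : Set E), Cl B {w, g} (rf B s v) := by
    rintro v (rfl | rfl)
    · rw [rf_rf hs1]
      exact Cl.base (by simp)
    · exact hgC
  have h7 := Cl.rf_map h.symm hs1 hm h5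
  have h8 := Cl.rf_map h.symm hs1 hm h6
  apply hwc
  refine ⟨g, hg, ?_⟩
  rcases hs with rfl | rfl
  · rw [rf_self hs1] at h7
    have h9 := h7.neg
    rw [neg_neg] at h9
    refine ⟨h9, ?_⟩
    rw [← rf_rf hs1 y]
    exact h9.refl h8
  · rw [rf_self hs1] at h8
    have h9 := h8.neg
    rw [neg_neg] at h9
    refine ⟨?_, h9⟩
    rw [← rf_rf hs1 x]
    exact h9.refl h7

theorem span_pair_of {a b p q : E} (hp : p ∈ Φ) (hq : q ∈ Φ) (hpq : p ≠ q)
    (ha : p ∈ Submodule.span ℝ ({a, b} : Set E)) (hb : q ∈ Submodule.span ℝ ({a, b} : Set E)) :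
    Submodule.span ℝ ({p, q} : Set E) = Submodule.span ℝ ({a, b} : Set E) :=
  h.span_eq hp hq hpq ha hb

/-- a pair of minimal total height is canonical -/
theorem canon_of_min {a b : E} (ha : a ∈ Φ) (hb : b ∈ Φ) (hab : a ≠ b)
    (hm : ∀ p ∈ Φ, ∀ q ∈ Φ, p ≠ q → Submodule.span ℝ ({p, q} : Set E) =
      Submodule.span ℝ ({a, b} : Set E) → Cl B {p, q} a → Cl B {p, q} b →
      ρ a + ρ b ≤ ρ p + ρ q) : Canon {u | Cl B {a, b} u} a b := by
  have h' := h.sub {a, b}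
  have hS : ({a, b} : Set E) ⊆ Φ := by
    rintro _ (rfl | rfl) <;> assumption
  have ha' : a ∈ {u | u ∈ Φ ∧ Cl B {a, b} u} := ⟨ha, Cl.base (by simp)⟩
  have hb' : b ∈ {u | u ∈ Φ ∧ Cl B {a, b} u} := ⟨hb, Cl.base (by simp)⟩
  obtain ⟨p, hp, q, hq, hpq, hpP, hqP, -, hρ, hall⟩ := h'.exists_canon ha' hb' hab
  have hsp := h.span_eq hp.1 hq.1 hpq hpP hqP
  have haP : a ∈ Submodule.span ℝ ({a, b} : Set E) := Submodule.subset_span (by simp)
  have hbP : b ∈ Submodule.span ℝ ({a, b} : Set E) := Submodule.subset_span (by simp)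
  have hcl := h'.cl_plane hp hq hpq (fun w hw hwP => hall w hw (hsp ▸ hwP))
  have h1 := hm p hp.1 q hq.1 hpq hsp (hcl a ha' (hsp.symm ▸ haP)) (hcl b hb' (hsp.symm ▸ hbP))
  obtain ⟨α, β, ea, hαβ⟩ := hall a ha' haP
  obtain ⟨γ, δ, eb, hγδ⟩ := hall b hb' hbP
  have hρp := h.pos p hp.1
  have hρq := h.pos q hq.1
  have hρa : ρ a = α * ρ p + β * ρ q := by
    rw [ea, map_add, map_smul, map_smul, smul_eq_mul, smul_eq_mul]
  have hρb : ρ b = γ * ρ p + δ * ρ q := by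
    rw [eb, map_add, map_smul, map_smul, smul_eq_mul, smul_eq_mul]
  have hρa' := h.pos a ha
  have hρb' := h.pos b hb
  -- `{a, b} = {p, q}`
  have key : (a = p ∧ b = q) ∨ (a = q ∧ b = p) := by
    rcases hαβ with ⟨h2, h3⟩ | ⟨h2, h3⟩ | ⟨h2, h3⟩
    · have h4 : a = q := by rw [ea, h2, h3, zero_smul, one_smul, zero_add]
      right
      refine ⟨h4, ?_⟩
      rcases hγδ with ⟨h5, h6⟩ | ⟨h5, h6⟩ | ⟨h5, h6⟩
      · exact absurd (by rw [h4, eb, h5, h6, zero_smul, one_smul, zero_add]) hab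
      · rw [eb, h5, h6, one_smul, zero_smul, add_zero]
      · exfalso
        rw [h4] at h1
        nlinarith
    · have h4 : a = p := by rw [ea, h2, h3, zero_smul, one_smul, add_zero]
      left
      refine ⟨h4, ?_⟩
      rcases hγδ with ⟨h5, h6⟩ | ⟨h5, h6⟩ | ⟨h5, h6⟩
      · rw [eb, h5, h6, one_smul, zero_smul, zero_add]
      · exact absurd (by rw [h4, eb, h5, h6, one_smul, zero_smul, add_zero]) hab
      · exfalso
        rw [h4] at h1
        nlinarith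
    · exfalso
      have h5 : ρ p + ρ q ≤ ρ a := by nlinarith
      linarith
  -- the pattern
  have hpat : ∀ u, Cl B {a, b} u → ∃ α β : ℝ, u = α • a + β • b ∧
      ((α = 0 ∧ β = 1 ∨ α = 1 ∧ β = 0 ∨ 1 ≤ α ∧ 1 ≤ β) ∨
      (-α = 0 ∧ -β = 1 ∨ -α = 1 ∧ -β = 0 ∨ 1 ≤ -α ∧ 1 ≤ -β)) := by
    have hpos : ∀ u ∈ Φ, Cl B {a, b} u → ∃ α β : ℝ, u = α • a + β • b ∧
        (α = 0 ∧ β = 1 ∨ α = 1 ∧ β = 0 ∨ 1 ≤ α ∧ 1 ≤ β) := by
      intro u hu hc
      obtain ⟨α, β, eu, h2⟩ := hall u ⟨hu, hc⟩ hc.mem_span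
      rcases key with ⟨rfl, rfl⟩ | ⟨rfl, rfl⟩
      · exact ⟨α, β, eu, h2⟩
      · refine ⟨β, α, by rw [eu, add_comm], ?_⟩
        rcases h2 with ⟨h3, h4⟩ | ⟨h3, h4⟩ | ⟨h3, h4⟩
        · exact Or.inr (Or.inl ⟨h4, h3⟩)
        · exact Or.inl ⟨h4, h3⟩
        · exact Or.inr (Or.inr ⟨h4, h3⟩)
    intro u hu
    rcases h.cl_mem hS hu with h2 | h2
    · obtain ⟨α, β, e, h3⟩ := hpos u h2 hu
      exact ⟨α, β, e, Or.inl h3⟩
    · obtain ⟨α, β, e, h3⟩ := hpos (-u) h2 hu.neg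
      refine ⟨-α, -β, ?_, Or.inr ?_⟩
      · rw [← neg_neg u, e]
        module
      · rw [neg_neg, neg_neg]
        exact h3
  intro u hu α' β' e'
  obtain ⟨α, β, e, h2⟩ := hpat u hu
  have h3 := h.indep ha hb hab (α' - α) (β' - β) (by
    rw [e'] at e
    rw [← sub_eq_zero] at e
    rw [← e]
    module)
  have h4 : α' = α := by linarith [h3.1]
  have h5 : β' = β := by linarith [h3.2]
  rw [h4, h5]
  exact h2

/-- a pairwise canonical triple -/
theorem exists_triple {x y g : E} (hx : x ∈ Φ) (hy : y ∈ Φ) (hg : g ∈ Φ)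
    (hi : ∀ α β γ : ℝ, α • x + β • y + γ • g = 0 → α = 0 ∧ β = 0 ∧ γ = 0) :
    ∃ a ∈ Φ, ∃ b ∈ Φ, ∃ c ∈ Φ, (∀ α β γ : ℝ, α • a + β • b + γ • c = 0 → α = 0 ∧ β = 0 ∧ γ = 0) ∧
      Cl B {a, b, c} x ∧ Cl B {a, b, c} y ∧ Cl B {a, b, c} g ∧
      Canon {u | Cl B {a, b} u} a b ∧ Canon {u | Cl B {a, c} u} a c ∧
      Canon {u | Cl B {b, c} u} b c := by
  set T : Set (E × E × E) := {t | t.1 ∈ Φ ∧ t.2.1 ∈ Φ ∧ t.2.2 ∈ Φ ∧
    (∀ α β γ : ℝ, α • t.1 + β • t.2.1 + γ • t.2.2 = 0 → α = 0 ∧ β = 0 ∧ γ = 0) ∧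
    Cl B {t.1, t.2.1, t.2.2} x ∧ Cl B {t.1, t.2.1, t.2.2} y ∧ Cl B {t.1, t.2.1, t.2.2} g ∧
    ρ t.1 + ρ t.2.1 + ρ t.2.2 ≤ ρ x + ρ y + ρ g} with hT
  set R := ρ x + ρ y + ρ g with hR
  have hfin : T.Finite := by
    refine ((h.fin R).prod ((h.fin R).prod (h.fin R))).subset ?_
    rintro ⟨a, b, c⟩ ⟨h1, h2, h3, -, -, -, -, h4⟩
    have h5 := h.pos a h1
    have h6 := h.pos b h2
    have h7 := h.pos c h3
    simp only at h1 h2 h3 h4
    refine ⟨⟨h1, ?_⟩, ⟨h2, ?_⟩, ⟨h3, ?_⟩⟩ <;> simp only <;> linarith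
  have hne : T.Nonempty := ⟨(x, y, g), hx, hy, hg, hi, Cl.base (by simp), Cl.base (by simp),
    Cl.base (by simp), le_rfl⟩
  obtain ⟨⟨a, b, c⟩, ⟨ha, hb, hc, hi', hCx, hCy, hCg, hle⟩, hmin⟩ :=
    hfin.exists_minimalFor (fun t => ρ t.1 + ρ t.2.1 + ρ t.2.2) _ hne
  simp only at ha hb hc hi' hCx hCy hCg hle
  have hmin' : ∀ a' ∈ Φ, ∀ b' ∈ Φ, ∀ c' ∈ Φ,
      (∀ α β γ : ℝ, α • a' + β • b' + γ • c' = 0 → α = 0 ∧ β = 0 ∧ γ = 0) →
      Cl B {a', b', c'} x → Cl B {a', b', c'} y → Cl B {a', b', c'} g →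
      ρ a + ρ b + ρ c ≤ ρ a' + ρ b' + ρ c' := by
    intro a' ha' b' hb' c' hc' hi'' h1 h2 h3
    by_contra h4
    rw [not_le] at h4
    exact absurd (hmin (j := (a', b', c')) ⟨ha', hb', hc', hi'', h1, h2, h3, h4.le.trans hle⟩ h4.le)
      (not_le.mpr h4)
  -- independence of a new pair
  have hind : ∀ {a b c : E}, a ∈ Φ → b ∈ Φ →
      (∀ α β γ : ℝ, α • a + β • b + γ • c = 0 → α = 0 ∧ β = 0 ∧ γ = 0) →
      ∀ p ∈ Φ, ∀ q ∈ Φ, p ≠ q → Submodule.span ℝ ({p, q} : Set E) =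
      Submodule.span ℝ ({a, b} : Set E) →
      ∀ α β γ : ℝ, α • p + β • q + γ • c = 0 → α = 0 ∧ β = 0 ∧ γ = 0 := by
    intro a b c ha hb hi0 p hp q hq hpq hsp α β γ h0
    have hpP : p ∈ Submodule.span ℝ ({a, b} : Set E) := hsp ▸ Submodule.subset_span (by simp)
    have hqP : q ∈ Submodule.span ℝ ({a, b} : Set E) := hsp ▸ Submodule.subset_span (by simp)
    obtain ⟨p1, p2, hp'⟩ := Submodule.mem_span_pair.mp hpP
    obtain ⟨q1, q2, hq'⟩ := Submodule.mem_span_pair.mp hqP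
    have h1 := (hi0 (α * p1 + β * q1) (α * p2 + β * q2) γ (by
      rw [← h0, ← hp', ← hq']
      module)).2.2
    rw [h1, zero_smul, add_zero] at h0
    have h2 := h.indep hp hq hpq α β h0
    exact ⟨h2.1, h2.2, h1⟩
  have hne' : ∀ {a b c : E},
      (∀ α β γ : ℝ, α • a + β • b + γ • c = 0 → α = 0 ∧ β = 0 ∧ γ = 0) → a ≠ b := by
    intro a b c hi0 hab
    have := hi0 1 (-1) 0 (by rw [hab]; module)
    linarith [this.1]
  have hi2 : ∀ α β γ : ℝ, α • a + β • c + γ • b = 0 → α = 0 ∧ β = 0 ∧ γ = 0 := by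
    intro α β γ h0
    have h1 := hi' α γ β (by rw [← h0]; abel)
    exact ⟨h1.1, h1.2.2, h1.2.1⟩
  have hi3 : ∀ α β γ : ℝ, α • b + β • c + γ • a = 0 → α = 0 ∧ β = 0 ∧ γ = 0 := by
    intro α β γ h0
    have h1 := hi' γ α β (by rw [← h0]; abel)
    exact ⟨h1.2.1, h1.2.2, h1.1⟩
  -- transport of generation
  have htr : ∀ {a b c p q : E} {S : Set E}, Cl B {p, q} a → Cl B {p, q} b → ({p, q} : Set E) ⊆ S →
      Cl B S c → ∀ u, Cl B {a, b, c} u → Cl B S u := by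
    intro a b c p q S h1 h2 h3 h4 u hu
    refine hu.trans ?_
    rintro v (rfl | rfl | rfl)
    · exact h1.mono h3
    · exact h2.mono h3
    · exact h4
  refine ⟨a, ha, b, hb, c, hc, hi', hCx, hCy, hCg, ?_, ?_, ?_⟩
  · refine h.canon_of_min ha hb (hne' hi') ?_
    intro p hp q hq hpq hsp h1 h2
    have h3 := htr (c := c) (S := {p, q, c}) h1 h2 (by
      rintro v (rfl | rfl) <;> simp) (Cl.base (by simp))
    have h4 := hmin' p hp q hq c hc (hind ha hb hi' p hp q hq hpq hsp) (h3 x hCx) (h3 y hCy)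
      (h3 g hCg)
    linarith
  · refine h.canon_of_min ha hc (hne' hi2) ?_
    intro p hp q hq hpq hsp h1 h2
    have h3 := htr (c := b) (S := {p, b, q}) h1 h2 (by
      rintro v (rfl | rfl) <;> simp) (Cl.base (by simp))
    have h5 : ({a, c, b} : Set E) = {a, b, c} := by
      ext v
      simp only [mem_insert_iff, mem_singleton_iff]
      tauto
    rw [h5] at h3
    have h6 := hind ha hc hi2 p hp q hq hpq hsp
    have h4 := hmin' p hp b hb q hq (fun α β γ h0 => by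
      have h7 := h6 α γ β (by rw [← h0]; abel)
      exact ⟨h7.1, h7.2.2, h7.2.1⟩) (h3 x hCx) (h3 y hCy) (h3 g hCg)
    linarith
  · refine h.canon_of_min hb hc (hne' hi3) ?_
    intro p hp q hq hpq hsp h1 h2
    have h3 := htr (c := a) (S := {a, p, q}) h1 h2 (by
      rintro v (rfl | rfl) <;> simp) (Cl.base (by simp))
    have h5 : ({b, c, a} : Set E) = {a, b, c} := by
      ext v
      simp only [mem_insert_iff, mem_singleton_iff]
      tauto
    rw [h5] at h3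
    have h6 := hind hb hc hi3 p hp q hq hpq hsp
    have h4 := hmin' a ha p hp q hq (fun α β γ h0 => by
      have h7 := h6 β γ α (by rw [← h0]; abel)
      exact ⟨h7.2.2, h7.1, h7.2.1⟩) (h3 x hCx) (h3 y hCy) (h3 g hCg)
    linarith

theorem nice (r : ℝ) : Nice (ball Φ ρ r) where
  fin := h.fin r
  pos := ⟨ρ, fun u hu => h.pos u hu.1⟩
  np := fun u hu v hv c hc => h.np u hu.1 v hv.1 c hc

end RS

/-- tightness of the balls from tightness of the balls of the triangle systems -/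
theorem tight_of_tri_aux {Φ : Set E} {B : E →ₗ[ℝ] E →ₗ[ℝ] ℝ} {ρ : E →ₗ[ℝ] ℝ} (h : RS Φ B ρ)
    (hP : ∀ a ∈ Φ, ∀ b ∈ Φ, ∀ c ∈ Φ,
      (∀ α β γ : ℝ, α • a + β • b + γ • c = 0 → α = 0 ∧ β = 0 ∧ γ = 0) →
      Canon {u | Cl B {a, b} u} a b → Canon {u | Cl B {a, c} u} a c →
      Canon {u | Cl B {b, c} u} b c → Tri {u | Cl B {a, b, c} u} B a b c)
    (hT : ∀ (Ψ : Set E) (a b c : E), Tri Ψ B a b c → 0 < ρ a → 0 < ρ b → 0 < ρ c →
      (∀ u ∈ Ψ, ∀ v ∈ Ψ, ρ u = ρ v → u = v) → ∀ r, Tight {u | u ∈ Ψ ∧ 0 < ρ u ∧ ρ u ≤ r}) :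
    ∀ r, Tight (ball Φ ρ r) := by
  intro r U x y hxy hx hy h0 h1 h2
  have hK := h.nice r
  set K := ball Φ ρ r with hKdef
  have hxK : x ∈ K := h1.1 (mem_insert _ _)
  have hyK : y ∈ K := h2.1 (mem_insert _ _)
  set P := Submodule.span ℝ ({x, y} : Set E) with hPdef
  have hxP : x ∈ P := Submodule.subset_span (by simp)
  have hyP : y ∈ P := Submodule.subset_span (by simp)
  have hFl : ∀ z ∈ K, z ∈ P → z ∈ Fl K x y := by
    intro z hz hzP
    obtain ⟨a, b, e⟩ := Submodule.mem_span_pair.mp hzP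
    exact mem_Fl_of_plane hK hxy hx hy h1 h2 hz e.symm
  have hFl' : ∀ z, z ∈ Fl K x y → z ∈ P := by
    rintro z ⟨-, a, b, -, -, e⟩
    exact Submodule.mem_span_pair.mpr ⟨a, b, e.symm⟩
  -- `x, y` are canonical
  have hcan : ∀ w ∈ Φ, w ∈ P →
      ∃ a b : ℝ, w = a • x + b • y ∧ (a = 0 ∧ b = 1 ∨ a = 1 ∧ b = 0 ∨ 1 ≤ a ∧ 1 ≤ b) := by
    obtain ⟨p, hp, q, hq, hpq, hpP, hqP, -, hρ, hall⟩ := h.exists_canon hxK.1 hyK.1 hxy
    obtain ⟨α, β, ex, hαβ⟩ := hall x hxK.1 hxP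
    obtain ⟨γ, δ, ey, hγδ⟩ := hall y hyK.1 hyP
    have hρp := h.pos p hp
    have hρq := h.pos q hq
    have hρx : ρ x = α * ρ p + β * ρ q := by
      conv_lhs => rw [ex]
      rw [map_add, map_smul, map_smul, smul_eq_mul, smul_eq_mul]
    have hρy : ρ y = γ * ρ p + δ * ρ q := by
      conv_lhs => rw [ey]
      rw [map_add, map_smul, map_smul, smul_eq_mul, smul_eq_mul]
    have hqr : ρ q ≤ r := by
      rcases hαβ with ⟨h3, h4⟩ | ⟨h3, h4⟩ | ⟨h3, h4⟩
      · have := hxK.2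
        rw [hρx, h3, h4] at this
        linarith
      · have e1 : x = p := by rw [ex, h3, h4, zero_smul, one_smul, add_zero]
        rcases hγδ with ⟨h5, h6⟩ | ⟨h5, h6⟩ | ⟨h5, h6⟩
        · have := hyK.2
          rw [hρy, h5, h6] at this
          linarith
        · exact absurd (by rw [e1, ey, h5, h6, zero_smul, one_smul, add_zero]) hxy
        · have := hyK.2
          rw [hρy] at this
          nlinarith
      · have := hxK.2
        rw [hρx] at this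
        nlinarith
    have hpr : ρ p ≤ r := hρ.le.trans hqr
    obtain ⟨-, a, b, ha, hb, ep⟩ := hFl p ⟨hp, hpr⟩ hpP
    obtain ⟨-, a', b', ha', hb', eq⟩ := hFl q ⟨hq, hqr⟩ hqP
    -- `x` is one of them
    have hx' : ¬ (1 ≤ α ∧ 1 ≤ β) := by
      rintro ⟨h3, h4⟩
      have h5 := h.indep hxK.1 hyK.1 hxy (α * a + β * a' - 1) (α * b + β * b') (by
        rw [ep, eq] at ex
        rw [← sub_eq_zero] at ex
        rw [← neg_eq_zero, ← ex]
        module)
      have h6 : b = 0 := by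
        nlinarith [h5.2, mul_nonneg (by linarith : (0:ℝ) ≤ α) hb,
          mul_nonneg (by linarith : (0:ℝ) ≤ β) hb']
      have h7 : b' = 0 := by
        nlinarith [h5.2, mul_nonneg (by linarith : (0:ℝ) ≤ α) hb,
          mul_nonneg (by linarith : (0:ℝ) ≤ β) hb']
      rw [h6, zero_smul, add_zero] at ep
      rw [h7, zero_smul, add_zero] at eq
      have h8 := h.np p hp x hxK.1 a ep
      have h9 := h.np q hq x hxK.1 a' eq
      exact hpq (h8.trans h9.symm)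
    have hy' : ¬ (1 ≤ γ ∧ 1 ≤ δ) := by
      rintro ⟨h3, h4⟩
      have h5 := h.indep hxK.1 hyK.1 hxy (γ * a + δ * a') (γ * b + δ * b' - 1) (by
        rw [ep, eq] at ey
        rw [← sub_eq_zero] at ey
        rw [← neg_eq_zero, ← ey]
        module)
      have h6 : a = 0 := by
        nlinarith [h5.1, mul_nonneg (by linarith : (0:ℝ) ≤ γ) ha,
          mul_nonneg (by linarith : (0:ℝ) ≤ δ) ha']
      have h7 : a' = 0 := by
        nlinarith [h5.1, mul_nonneg (by linarith : (0:ℝ) ≤ γ) ha,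
          mul_nonneg (by linarith : (0:ℝ) ≤ δ) ha']
      rw [h6, zero_smul, zero_add] at ep
      rw [h7, zero_smul, zero_add] at eq
      have h8 := h.np p hp y hyK.1 b ep
      have h9 := h.np q hq y hyK.1 b' eq
      exact hpq (h8.trans h9.symm)
    intro w hw hwP
    obtain ⟨s, t, ew, hst⟩ := hall w hw hwP
    rcases hαβ with ⟨h3, h4⟩ | ⟨h3, h4⟩ | h34
    · have e1 : x = q := by rw [ex, h3, h4, zero_smul, one_smul, zero_add]
      rcases hγδ with ⟨h5, h6⟩ | ⟨h5, h6⟩ | h56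
      · exact absurd (by rw [e1, ey, h5, h6, zero_smul, one_smul, zero_add]) hxy
      · have e2 : y = p := by rw [ey, h5, h6, zero_smul, one_smul, add_zero]
        refine ⟨t, s, by rw [ew, e1, e2, add_comm], ?_⟩
        rcases hst with ⟨h7, h8⟩ | ⟨h7, h8⟩ | ⟨h7, h8⟩
        · exact Or.inr (Or.inl ⟨h8, h7⟩)
        · exact Or.inl ⟨h8, h7⟩
        · exact Or.inr (Or.inr ⟨h8, h7⟩)
      · exact absurd h56 hy'
    · have e1 : x = p := by rw [ex, h3, h4, zero_smul, one_smul, add_zero]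
      rcases hγδ with ⟨h5, h6⟩ | ⟨h5, h6⟩ | h56
      · have e2 : y = q := by rw [ey, h5, h6, zero_smul, one_smul, zero_add]
        exact ⟨s, t, by rw [ew, e1, e2], hst⟩
      · exact absurd (by rw [e1, ey, h5, h6, zero_smul, one_smul, add_zero]) hxy
      · exact absurd h56 hy'
    · exact absurd h34 hx'
  have hclP := h.cl_plane hxK.1 hyK.1 hxy hcan
  -- the main case
  have main : ∀ u ∈ K, ∀ v ∈ K, ∀ w ∈ K, Btw u w v → u ≠ v → ¬ (u ∈ P ∧ v ∈ P) →
      ∀ f ∈ Φ, f ∈ P → f ∈ Submodule.span ℝ ({u, v} : Set E) →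
      ((u ∈ U ∪ Fl K x y → v ∈ U ∪ Fl K x y → w ∈ U ∪ Fl K x y) ∧
        (w ∈ U ∪ Fl K x y → u ∈ U ∪ Fl K x y ∨ v ∈ U ∪ Fl K x y)) := by
    intro u hu v hv w hw hb huv hnP f hf hfP hfG
    set G := Submodule.span ℝ ({u, v} : Set E) with hG
    have huG : u ∈ G := Submodule.subset_span (by simp)
    have hvG : v ∈ G := Submodule.subset_span (by simp)
    have hwG : w ∈ G := by
      obtain ⟨a, b, -, -, e⟩ := hb
      rw [e]
      exact Submodule.add_mem _ (Submodule.smul_mem _ _ huG) (Submodule.smul_mem _ _ hvG)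
    obtain ⟨p, hp, q, hq, hpq, hpG, hqG, -, -, hall⟩ := h.exists_canon hu.1 hv.1 huv
    have hsp := h.span_eq hp hq hpq hpG hqG
    rw [← hG] at hsp
    have hall' : ∀ w ∈ Φ, w ∈ Submodule.span ℝ ({p, q} : Set E) →
        ∃ a b : ℝ, w = a • p + b • q ∧ (a = 0 ∧ b = 1 ∨ a = 1 ∧ b = 0 ∨ 1 ≤ a ∧ 1 ≤ b) :=
      fun w hw hwP => hall w hw (by rw [← hG, ← hsp]; exact hwP)
    have hclG := h.cl_plane hp hq hpq hall'
    obtain ⟨g, hg, hgp, hgq⟩ := h.exists_gen hp hq hpq hall' f hf (hsp.symm ▸ hfG)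
    have hgen : ∀ z ∈ Φ, z ∈ G → Cl B {f, g} z := by
      intro z hz hzG
      refine (hclG z hz (hsp.symm ▸ hzG)).trans ?_
      rintro z' (rfl | rfl) <;> assumption
    have hgP : g ∉ P := by
      intro hgP
      have h3 : ∀ z ∈ Φ, z ∈ G → z ∈ P := by
        intro z hz hzG
        have h4 := (hgen z hz hzG).mem_span
        refine (Submodule.span_le.mpr ?_) h4
        rintro z' (rfl | rfl) <;> assumption
      exact hnP ⟨h3 u hu.1 huG, h3 v hv.1 hvG⟩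
    have hi : ∀ α β γ : ℝ, α • x + β • y + γ • g = 0 → α = 0 ∧ β = 0 ∧ γ = 0 := by
      intro α β γ e
      have h3 : γ = 0 := by
        by_contra h3
        apply hgP
        refine Submodule.mem_span_pair.mpr ⟨-(γ⁻¹ * α), -(γ⁻¹ * β), ?_⟩
        have h4 : γ⁻¹ • (α • x + β • y + γ • g) = 0 := by rw [e, smul_zero]
        rw [smul_add, smul_smul γ⁻¹ γ, inv_mul_cancel₀ h3, one_smul] at h4
        rw [← sub_eq_zero, ← neg_eq_zero, ← h4]
        module
      rw [h3, zero_smul, add_zero] at e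
      have h4 := h.indep hxK.1 hyK.1 hxy α β e
      exact ⟨h4.1, h4.2, h3⟩
    obtain ⟨a, ha, b, hb', c, hc, hiabc, hCx, hCy, hCg, c1, c2, c3⟩ :=
      h.exists_triple hxK.1 hyK.1 hg hi
    have hTri := hP a ha b hb' c hc hiabc c1 c2 c3
    set Ψ := {u | Cl B {a, b, c} u} with hΨ
    have hS : ({a, b, c} : Set E) ⊆ Φ := by
      rintro _ (rfl | rfl | rfl) <;> assumption
    have hΨΦ : ∀ u ∈ Ψ, u ∈ Φ ∨ -u ∈ Φ := fun u hu => h.cl_mem hS hu
    have hinj : ∀ u ∈ Ψ, ∀ v ∈ Ψ, ρ u = ρ v → u = v := by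
      intro u hu v hv e
      rcases hΨΦ u hu with h3 | h3
      · have h4 := h.pos u h3
        exact h.inj u h3 v (h.mem_of_pos (hΨΦ v hv) (e ▸ h4)) e
      · have h4 := h.pos _ h3
        have h5 : ρ (-u) = ρ (-v) := by rw [map_neg, map_neg, e]
        have h6 := h.inj _ h3 (-v) (h.mem_of_pos (by
          rw [neg_neg]
          exact (hΨΦ v hv).symm) (h5 ▸ h4)) h5
        exact neg_injective h6
    have hTight := hT Ψ a b c hTri (h.pos a ha) (h.pos b hb') (h.pos c hc) hinj r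
    set L := {u | u ∈ Ψ ∧ 0 < ρ u ∧ ρ u ≤ r} with hL
    have hLK : ∀ z, z ∈ L ↔ z ∈ K ∧ z ∈ Ψ := by
      intro z
      constructor
      · rintro ⟨h3, h4, h5⟩
        exact ⟨⟨h.mem_of_pos (hΨΦ z h3) h4, h5⟩, h3⟩
      · rintro ⟨h3, h4⟩
        exact ⟨h4, h.pos z h3.1, h3.2⟩
    have hLsub : L ⊆ K := fun z hz => ((hLK z).mp hz).1
    have hxΨ : x ∈ Ψ := hCx
    have hyΨ : y ∈ Ψ := hCy
    have hfΨ : f ∈ Ψ := by
      refine (hclP f hf hfP).trans ?_
      rintro z (rfl | rfl) <;> assumption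
    have hGΨ : ∀ z ∈ K, z ∈ G → z ∈ L := by
      intro z hz hzG
      rw [hLK]
      refine ⟨hz, ?_⟩
      refine (hgen z hz.1 hzG).trans ?_
      rintro z' (rfl | rfl) <;> assumption
    have hins : ∀ z, z ∈ Ψ → z ∈ K → insert z U ∩ L = insert z (U ∩ L) := by
      intro z hz hzK
      ext z'
      constructor
      · rintro ⟨rfl | h3, h4⟩
        · exact mem_insert _ _
        · exact mem_insert_of_mem _ ⟨h3, h4⟩
      · rintro (rfl | h3)
        · exact ⟨mem_insert _ _, (hLK _).mpr ⟨hzK, hz⟩⟩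
        · exact ⟨mem_insert_of_mem _ h3.1, h3.2⟩
    have k0 := h0.mono hLsub
    have k1 := h1.mono hLsub
    have k2 := h2.mono hLsub
    rw [hins x hxΨ hxK] at k1
    rw [hins y hyΨ hyK] at k2
    have k3 := hTight (U ∩ L) x y hxy (fun h3 => hx h3.1) (fun h3 => hy h3.1) k0 k1 k2
    have hmem : ∀ z ∈ L, (z ∈ U ∩ L ∪ Fl L x y ↔ z ∈ U ∪ Fl K x y) := by
      intro z hz
      constructor
      · rintro (h3 | ⟨-, h3⟩)
        · exact Or.inl h3.1
        · exact Or.inr ⟨hLsub hz, h3⟩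
      · rintro (h3 | ⟨-, h3⟩)
        · exact Or.inl ⟨h3, hz⟩
        · exact Or.inr ⟨hz, h3⟩
    have huL := hGΨ u hu huG
    have hvL := hGΨ v hv hvG
    have hwL := hGΨ w hw hwG
    have k4 := k3.2 u huL v hvL w hwL hb
    rw [hmem u huL, hmem v hvL, hmem w hwL] at k4
    exact k4
  refine ⟨?_, ?_⟩
  · rintro z (hz | hz)
    · exact h0.1 hz
    · exact hz.1
  intro u hu v hv w hw hb
  by_cases huv : u = v
  · have e1 : w = u := by
      obtain ⟨a, b, -, -, e⟩ := hb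
      refine hK.np w hw u hu (a + b) ?_
      rw [e, ← huv, add_smul]
    rw [← huv, e1]
    exact ⟨fun h3 _ => h3, fun h3 => Or.inl h3⟩
  by_cases hP2 : u ∈ P ∧ v ∈ P
  · exact ⟨fun _ _ => by
      obtain ⟨a, b, -, -, e⟩ := hb
      refine Or.inr (hFl w hw ?_)
      rw [e]
      exact Submodule.add_mem _ (Submodule.smul_mem _ _ hP2.1) (Submodule.smul_mem _ _ hP2.2),
      fun _ => Or.inl (Or.inr (hFl u hu hP2.1))⟩
  have huG : u ∈ Submodule.span ℝ ({u, v} : Set E) := Submodule.subset_span (by simp)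
  have hvG : v ∈ Submodule.span ℝ ({u, v} : Set E) := Submodule.subset_span (by simp)
  by_cases hfu : u ∈ P
  · exact main u hu v hv w hw hb huv hP2 u hu.1 hfu huG
  by_cases hfv : v ∈ P
  · exact main u hu v hv w hw hb huv hP2 v hv.1 hfv hvG
  by_cases hfw : w ∈ P
  · refine main u hu v hv w hw hb huv hP2 w hw.1 hfw ?_
    obtain ⟨a, b, -, -, e⟩ := hb
    rw [e]
    exact Submodule.add_mem _ (Submodule.smul_mem _ _ huG) (Submodule.smul_mem _ _ hvG)
  have k4 := h0.2 u hu v hv w hw hb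
  have hmem : ∀ z ∈ K, z ∉ P → (z ∈ U ∪ Fl K x y ↔ z ∈ U) := by
    intro z hz hzP
    constructor
    · rintro (h3 | h3)
      · exact h3
      · exact absurd (hFl' z h3) hzP
    · exact fun h3 => Or.inl h3
  rw [hmem u hu hfu, hmem v hv hfv, hmem w hw hfw]
  exact k4

end DY
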