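import Pool.Agent.Helper78.DY.By
import Pool.Agent.Helper7.DY.Gap2

/-!
# GAP2 (d): `F` beyond `V_2` (MP_d13a5e_al)
-/

set_option autoImplicit false

namespace DY

theorem g2d {E : Type*} [AddCommGroup E] [Module ℝ E] (Ψ : Set E) (B : E →ₗ[ℝ] E →ₗ[ℝ] ℝ) :
    G2d Ψ B := by
  intro ρ φ t d1 d2 x x' g x1 x2 g' x1' x2' X hO _ _ h
  exact Pool.Agent.Helper78.DY.gap2_beyond X hO h.2

end DY
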