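import Pool.Agent.Helper78.DY.ByG
import Pool.Agent.Helper78.DY.U1
import Pool.Agent.Helper57.DY.NGinf
import Pool.Agent.Helper37.DY.Gap2
import Pool.Agent.Helper32.DY.G2b1

/-!
# GAP2, `F` beyond `V_2` (MP_d13a5e_al)
-/

set_option autoImplicit false

namespace Pool.Agent.Helper78.DY

open _root_.DY (Z1 Str sq sq_zero sq_one sq_two sq_succ Loc Xs Tri C01 Canon Beyond ORt kq rf)
open Pool.Agent.Helper62.DY (RT rt_of_tri)
open Pool.Agent.Helper32.DY (fe fw fe_mem fe_z fw_two)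
open Pool.Agent.Helper37.DY (xs_two xs_fm_pos gap2_big)

variable {E : Type*} [AddCommGroup E] [Module ℝ E] {Ψ : Set E} {B : E →ₗ[ℝ] E →ₗ[ℝ] ℝ}
  {ρ φ : E →ₗ[ℝ] ℝ} {t d1 d2 x x' : E} {g x1 x2 g' x1' x2' : ℝ}

/-- the root `w` -/
theorem str_w (L : Loc Ψ B ρ φ t d1 d2 x x') (hO : B d1 d2 = 0) :
    (1 : ℝ) • t + (2 * -B t d1) • d1 + (2 * -B t d2) • d2 ∈ Ψ ∧
    (0 < -B t d1 → Str (2 * (-B t d1) ^ 2 + 2 * (-B t d2) ^ 2 - 1)
      (1 + 2 * -B t d1 * φ d1 + 2 * -B t d2 * φ d2) (1 + 2 * -B t d1 * ρ d1 + 2 * -B t d2 * ρ d2)) := by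
  have hR := rt_of_tri L.tri
  have hw : (1 : ℝ) • t + (2 * -B t d1) • d1 + (2 * -B t d2) • d2 ∈ Ψ := by
    have h1 := hR.r2 _ _ _ (hR.r1 _ _ _ hR.e0)
    have i1 : 2 * -B t d1 * 1 + 2 * -B d1 d2 * 0 - 0 = 2 * -B t d1 := by ring
    have i2 : 2 * -B t d2 * 1 + 2 * -B d1 d2 * (2 * -B t d1 * 1 + 2 * -B d1 d2 * 0 - 0) - 0 =
      2 * -B t d2 := by rw [hO]; ring
    rw [i2, i1] at h1
    exact h1
  refine ⟨hw, fun hb1 => ?_⟩
  have hp : (1 : ℝ) • t + (2 * -B t d1) • d1 + (2 * -B t d2) • d2 ∈ C01 t d1 d2 :=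
    ⟨_, _, _, rfl, Or.inr le_rfl, L.lbl.z1, L.lbl.z2⟩
  have hne : (1 : ℝ) • t + (2 * -B t d1) • d1 + (2 * -B t d2) • d2 ≠ t := by
    intro h0
    have h1 : (1 : ℝ) • t + (2 * -B t d1) • d1 + (2 * -B t d2) • d2 =
        (1 : ℝ) • t + (0 : ℝ) • d1 + (0 : ℝ) • d2 := by
      rw [h0]; module
    obtain ⟨-, h2, -⟩ := L.tri.coordW h1
    linarith only [hb1, h2]
  have h1 := L.str _ hw hp hne
  have e0 : -B t ((1 : ℝ) • t + (2 * -B t d1) • d1 + (2 * -B t d2) • d2) =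
      2 * (-B t d1) ^ 2 + 2 * (-B t d2) ^ 2 - 1 := by
    have h2 := L.tri.one t L.tri.ha
    simp only [map_add, map_smul, smul_eq_mul, h2]
    ring
  have e1 : φ ((1 : ℝ) • t + (2 * -B t d1) • d1 + (2 * -B t d2) • d2) =
      1 + 2 * -B t d1 * φ d1 + 2 * -B t d2 * φ d2 := by
    rw [L.val_φ]
  have e2 : ρ ((1 : ℝ) • t + (2 * -B t d1) • d1 + (2 * -B t d2) • d2) =
      1 + 2 * -B t d1 * ρ d1 + 2 * -B t d2 * ρ d2 := by
    rw [L.val_ρ]
  rw [e0, e1, e2] at h1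
  exact h1

/-- a positive root with `φ = 0` has `ρ ≥ 0` -/
theorem rho_nn (X : Xs Ψ B ρ φ t d1 d2 x x' g x1 x2 g' x1' x2') {y0 y1 y2 : ℝ}
    (hm : y0 • t + y1 • d1 + y2 • d2 ∈ Ψ) (h0 : 0 < y0) (hφ : y0 + y1 * φ d1 + y2 * φ d2 = 0) :
    0 ≤ y0 + y1 * ρ d1 + y2 * ρ d2 := by
  have L := X.L
  obtain ⟨α, β, e⟩ := L.sp _ hm
  rw [L.val_φ, hφ, zero_smul, add_zero] at e
  have e' := e
  rw [X.e, X.e'] at e'
  have e2 : α • (g • t + x1 • d1 + x2 • d2) + β • (g' • t + x1' • d1 + x2' • d2) =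
      (α * g + β * g') • t + (α * x1 + β * x1') • d1 + (α * x2 + β * x2') • d2 := by module
  rw [e2] at e'
  obtain ⟨h1, -, -⟩ := L.tri.coordW e'
  have zg := z1n X.c.zg
  have zg' := z1n X.c'.zg
  have hα : 0 ≤ α ∧ 0 ≤ β := by
    rcases L.cxx _ hm α β e with (⟨h2, h3⟩ | ⟨h2, h3⟩ | ⟨h2, h3⟩) | (⟨h2, h3⟩ | ⟨h2, h3⟩ | ⟨h2, h3⟩)
    · exact ⟨by linarith only [h2], by linarith only [h3]⟩
    · exact ⟨by linarith only [h2], by linarith only [h3]⟩
    · exact ⟨by linarith only [h2], by linarith only [h3]⟩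
    all_goals
      exfalso
      have h4 : α * g ≤ 0 := mul_nonpos_of_nonpos_of_nonneg (by linarith only [h2]) zg
      have h5 : β * g' ≤ 0 := mul_nonpos_of_nonpos_of_nonneg (by linarith only [h3]) zg'
      linarith only [h0, h1, h4, h5]
  have h2 : ρ (y0 • t + y1 • d1 + y2 • d2) = α * ρ x + β * ρ x' := by
    rw [e, map_add, map_smul, map_smul, smul_eq_mul, smul_eq_mul]
  rw [L.val_ρ] at h2
  rw [h2]
  exact add_nonneg (mul_nonneg hα.1 L.rx) (mul_nonneg hα.2 L.rx')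

/-- the basic inequality `B(x,u) ≥ b + p (1 + c)` -/
theorem key_p (X : Xs Ψ B ρ φ t d1 d2 x x' g x1 x2 g' x1' x2') (hO : B d1 d2 = 0) :
    (-φ d2 - 2 * -B t d2) * (1 + (-B t d1 * x1 + -B t d2 * x2 - g)) ≤
      ((1 - 2 * (-B t d2) ^ 2) * x2 + -B t d2 * g - 2 * -B t d2 * -B t d1 * x1) - -B t d2 := by
  have L := X.L
  obtain ⟨D, hD⟩ : ∃ D, D = x2 * x1' - x1 * x2' := ⟨_, rfl⟩
  have D0 : 0 < D := by rw [hD]; linarith only [X.st]
  obtain ⟨p, hp'⟩ : ∃ p, p = -φ d2 - 2 * -B t d2 := ⟨_, rfl⟩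
  have fx := X.c.fz
  have fx' := X.c'.fz
  have hBxx := L.cxx.nonpos L.tri.sys L.xm L.xm'
  have hg : g * x1' - g' * x1 = -φ d2 * D := by
    rw [fx, fx', hD]; ring
  -- the decomposition
  have dec : D • ((2 * -B t d2) • t + (1 : ℝ) • d2) = x1' • x - x1 • x' - (p * D) • t := by
    rw [X.e, X.e']
    have e1 : x1' • (g • t + x1 • d1 + x2 • d2) - x1 • (g' • t + x1' • d1 + x2' • d2) - (p * D) • t =
      (x1' * g - x1 * g' - p * D) • t + (0 : ℝ) • d1 + (x1' * x2 - x1 * x2') • d2 := by module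
    rw [e1]
    have e2 : x1' * g - x1 * g' - p * D = D * (2 * -B t d2) := by rw [hp']; linarith only [hg]
    have e3 : x1' * x2 - x1 * x2' = D := by rw [hD]; ring
    rw [e2, e3]
    module
  have h1 := congrArg ρ dec
  simp only [map_smul, map_add, map_sub, smul_eq_mul, L.rt, one_mul, mul_one] at h1
  have h2 := congrArg (B x) dec
  simp only [map_smul, map_add, map_sub, smul_eq_mul, one_mul] at h2
  have oxx := L.tri.one x L.xm
  have eBt : B x t = -(-B t d1 * x1 + -B t d2 * x2 - g) := by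
    have h3 := L.val_B g x1 x2 1 0 0
    have e1 : (1 : ℝ) • t + (0 : ℝ) • d1 + (0 : ℝ) • d2 = t := by module
    rw [e1, ← X.e] at h3
    rw [h3]; ring
  have eBd : B x d2 = x2 - -B t d2 * g := by
    have h3 := L.val_B g x1 x2 0 0 1
    have e1 : (0 : ℝ) • t + (0 : ℝ) • d1 + (1 : ℝ) • d2 = d2 := by module
    rw [e1, ← X.e] at h3
    rw [h3, hO]; ring
  rw [oxx, eBt, eBd] at h2
  obtain ⟨c, hc⟩ : ∃ c, c = -B t d1 * x1 + -B t d2 * x2 - g := ⟨_, rfl⟩
  rw [← hc] at h2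
  have c0 : 0 ≤ c := by
    have := X.c.obt
    rw [hc]; linarith only [this]
  have hft := L.foot.2
  have hle : ρ x ≤ 1 := by linarith only [L.rx', L.sum]
  rw [← hp', ← hc]
  have h3 : x1' * ρ x ≤ x1' * 1 := mul_le_mul_of_nonneg_left hle (by linarith only [X.p1'])
  have h4 : 0 ≤ x1 * ρ x' := mul_nonneg (by linarith only [X.p1]) L.rx'
  have h5 : 0 ≤ x1 * -B x x' := by
    apply mul_nonneg (by linarith only [X.p1])
    rw [L.tri.symm x x']
    linarith only [hBxx]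
  have h6 : D * (-B t d2 + p) ≤ x1' := by
    have h7 : D * (-B t d2) ≤ D * (2 * -B t d2 + ρ d2) := mul_le_mul_of_nonneg_left (by linarith only [hft]) D0.le
    linarith only [h1, h3, h4, h7]
  have e9 : (1 - 2 * (-B t d2) ^ 2) * x2 + -B t d2 * g - 2 * -B t d2 * -B t d1 * x1 =
      2 * -B t d2 * -c + (x2 - -B t d2 * g) := by rw [hc]; ring
  rw [e9]
  have h8 : D * (p * (1 + c)) ≤ D * (2 * -B t d2 * -c + (x2 - -B t d2 * g) - -B t d2) := by
    linarith only [h2, h5, h6]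
  exact le_of_mul_le_mul_left h8 D0

/-- the value `B x u` -/
theorem b_xu (X : Xs Ψ B ρ φ t d1 d2 x x' g x1 x2 g' x1' x2') (hO : B d1 d2 = 0) :
    B x ((2 * -B t d2) • t + (1 : ℝ) • d2) =
      (1 - 2 * (-B t d2) ^ 2) * x2 + -B t d2 * g - 2 * -B t d2 * -B t d1 * x1 := by
  have h3 := X.L.val_B g x1 x2 (2 * -B t d2) 0 1
  have e1 : (2 * -B t d2) • t + (0 : ℝ) • d1 + (1 : ℝ) • d2 = (2 * -B t d2) • t + (1 : ℝ) • d2 := by
    module
  rw [e1, ← X.e] at h3
  rw [h3, hO]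
  ring

/-- **GAP2, `F` beyond `V_2`** -/
theorem gap2_beyond (X : Xs Ψ B ρ φ t d1 d2 x x' g x1 x2 g' x1' x2') (hO : B d1 d2 = 0)
    (hBy : Beyond (-B t d2) (φ d2)) : False := by
  by_cases hbig : 1 ≤ -B t d1 ∨ 1 ≤ -B t d2
  · exact gap2_big X hO hbig (Or.inr (Or.inr hBy))
  push Not at hbig
  obtain ⟨hb1, hb2⟩ := hbig
  have L := X.L
  have hO' : -B d1 d2 = 0 := by rw [hO, neg_zero]
  have hR := rt_of_tri L.tri
  have hC1 := L.tri.cp
  have hC2 := L.tri.cp'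
  have p1 := X.p1
  have p2 := X.p2
  obtain ⟨n, h0, h1, hs⟩ : ∃ n, sq (-B t d2) (n + 2) = 0 ∧ sq (-B t d2) (n + 1) = 1 ∧
      ∀ k ≤ n, 1 ≤ sq (-B t d2) (k + 1) := by
    rcases hC2.sq_dich with ⟨h1, -⟩ | ⟨n, h1, h2, -, h3⟩
    · linarith only [hb2, h1]
    · exact ⟨n, h1, h2, h3⟩
  have hxm : g • t + x1 • d1 + x2 • d2 ∈ Ψ := by
    rw [← X.e]
    exact L.xm
  have nb1 : -B t d1 ≠ 0 := by
    intro h
    have h2 := hR.r1 _ _ _ hxm
    rw [h, hO'] at h2
    have e : 2 * (0 : ℝ) * g + 2 * 0 * x2 - x1 = -x1 := by ring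
    rw [e] at h2
    rcases hR.z _ _ _ h2 with ⟨-, h3, -⟩ | ⟨-, -, h3⟩
    · have := z1n h3
      linarith only [p1, this]
    · have := z1n h3
      linarith only [p2, this]
  have nb2 : -B t d2 ≠ 0 := by
    intro h
    have h2 := hR.r2 _ _ _ hxm
    rw [h, hO'] at h2
    have e : 2 * (0 : ℝ) * g + 2 * 0 * x1 - x2 = -x2 := by ring
    rw [e] at h2
    rcases hR.z _ _ _ h2 with ⟨-, -, h3⟩ | ⟨-, h3, -⟩
    · have := z1n h3
      linarith only [p2, this]
    · have := z1n h3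
      linarith only [p1, this]
  obtain ⟨b1p, lab1⟩ := lab_of nb1 hC1.sq_dich
  obtain ⟨b2p, lab2⟩ := lab_of nb2 hC2.sq_dich
  have T := xs_two X
  have hfm := xs_fm_pos X (k := n) (hBy n fun i hi => by linarith only [hs i hi])
  have hY := T.e_pos hfm
  have sn : sq (-B t d2) n = 2 * -B t d2 := by
    have := sq_succ (-B t d2) n
    rw [h0, h1] at this
    linarith only [this]
  have pp : 0 < -φ d2 - 2 * -B t d2 := by
    have e1 : Pool.Agent.Helper32.DY.fm (-B t d2) (-φ d2) (n + 1) =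
      -φ d2 * sq (-B t d2) (n + 1) - sq (-B t d2) n := rfl
    rw [e1, h1, sn] at hfm
    linarith only [hfm]
  have kp := key_p X hO
  have foot := L.foot.2
  have xle := X.le_one.1
  obtain ⟨wm, wS⟩ := str_w L hO
  have S := wS b1p
  have hw0 : 1 + 2 * -B t d1 * φ d1 + 2 * -B t d2 * φ d2 = 0 →
      0 ≤ 1 + 2 * -B t d1 * ρ d1 + 2 * -B t d2 * ρ d2 := rho_nn X wm one_pos
  have um : (2 * -B t d2) • t + (1 : ℝ) • d2 ∈ Ψ := by
    have h2 := hR.r0 _ _ _ hR.e2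
    have e : (2 * -B t d1 * 0 + 2 * -B t d2 * 1 - 0) • t + (0 : ℝ) • d1 + (1 : ℝ) • d2 =
      (2 * -B t d2) • t + (1 : ℝ) • d2 := by module
    rw [← e]
    exact h2
  have bxu := b_xu X hO
  have hru : -B t d2 ≤ ρ ((2 * -B t d2) • t + (1 : ℝ) • d2) := by
    rw [map_add, map_smul, map_smul, smul_eq_mul, smul_eq_mul, L.rt]
    linarith only [foot]
  have hx1 : ρ x ≤ 1 := by linarith only [L.rx', L.sum]
  have hobt := X.c.obt
  have hnrm := hR.n _ _ _ hxm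
  obtain ⟨y, hy⟩ : ∃ y, y = (1 - 2 * (-B t d2) ^ 2) * x2 + -B t d2 * g - 2 * -B t d2 * -B t d1 * x1 :=
    ⟨_, rfl⟩
  obtain ⟨c, hc⟩ : ∃ c, c = -B t d1 * x1 + -B t d2 * x2 - g := ⟨_, rfl⟩
  have c0 : 0 ≤ c := by rw [hc]; linarith only [hobt]
  rw [← hy] at bxu kp
  rw [← hc] at kp
  have yb : -B t d2 < y := by
    have : 0 < (-φ d2 - 2 * -B t d2) * (1 + c) := mul_pos pp (by linarith only [c0])
    linarith only [kp, this]
  have H : Yc (-B t d1) (-B t d2) g x1 x2 y c :=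
    ⟨b2p, hb2, b1p, by rw [hO'] at hnrm; linarith only [hnrm], p1, hy, hc, c0, yb⟩
  have l1 : 4 * (-B t d1) ^ 2 = 1 ∨ 2 ≤ 4 * (-B t d1) ^ 2 := by
    rcases lab1 with h | h | ⟨h, -⟩ | h | ⟨h, -⟩ | ⟨-, h⟩ | h
    · exact Or.inl h
    all_goals exact Or.inr (by linarith only [h])
  suffices hfin : 1 < g + x1 * ρ d1 + x2 * ρ d2 by linarith
  -- the fan
  rw [hO'] at hR hY
  obtain ⟨f1, f2⟩ := fan_diff (-B t d1) (-B t d2) x1 x2 g n
  rw [h1, sn] at f1
  rw [h0, h1] at f2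
  have e1 : fe (-B t d1) (-B t d2) 0 x1 x2 g (n + 2) =
    2 * -B t d2 * fe (-B t d1) (-B t d2) 0 x1 x2 g (n + 1) + fw (-B t d1) 0 (n + 1) * x1 -
      fe (-B t d1) (-B t d2) 0 x1 x2 g n := rfl
  have e2 : fe (-B t d1) (-B t d2) 0 x1 x2 g (n + 3) =
    2 * -B t d2 * fe (-B t d1) (-B t d2) 0 x1 x2 g (n + 2) + fw (-B t d1) 0 (n + 2) * x1 -
      fe (-B t d1) (-B t d2) 0 x1 x2 g (n + 1) := rfl
  have zW := fe_z hR hxm (by linarith only [p1] : 0 < x1) (n + 2)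
  have hmem := fe_mem hR hxm (n + 1)
  obtain ⟨Y, hYd⟩ : ∃ Y, Y = fe (-B t d1) (-B t d2) 0 x1 x2 g (n + 1) := ⟨_, rfl⟩
  obtain ⟨W, hWd⟩ : ∃ W, W = fe (-B t d1) (-B t d2) 0 x1 x2 g (n + 2) := ⟨_, rfl⟩
  rw [← hYd] at hY
  rw [← hWd] at zW
  have r1 : y = -B t d2 * Y + fw (-B t d1) 0 (n + 1) * x1 / 2 - W := by
    rw [hYd, hWd, hy]
    linarith only [f1, e1]
  have r2 : c = -B t d2 * W + fw (-B t d1) 0 (n + 2) * x1 / 2 - Y := by
    rw [hYd, hWd, hc]
    linarith only [f2, e2]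
  have ft0 : fw (-B t d1) 0 1 = 0 := by
    show (if 1 % 2 = 0 then 2 * -B t d1 else 2 * 0) = 0
    norm_num
  have ft1 : fw (-B t d1) 0 2 = 2 * -B t d1 := rfl
  have ft2 : fw (-B t d1) 0 3 = 0 := by rw [fw_two]; exact ft0
  have ft3 : fw (-B t d1) 0 4 = 2 * -B t d1 := by rw [fw_two]; exact ft1
  have ft4 : fw (-B t d1) 0 5 = 0 := by rw [fw_two]; exact ft2
  have hyp4 : 1 ≤ y → 2 * y * -B t d2 < 1 + (-B t d2) ^ 2 := fun h =>
    four L X.e (by linarith only [p1]) um bxu h b2p hru hx1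
  rcases (by omega : n = 0 ∨ n = 1 ∨ n = 2 ∨ n = 3 ∨ 4 ≤ n) with hn | hn | hn | hn | hn
  · -- order `2`
    exfalso
    rw [hn, zero_add, sq_two] at h0
    linarith only [h0, b2p]
  · -- order `3`
    subst hn
    rw [sq3] at h0
    have hb : -B t d2 = 1 / 2 := by
      have e3 : (2 * -B t d2 - 1) * (2 * -B t d2 + 1) = 0 := by linarith only [h0]
      rcases mul_eq_zero.1 e3 with e4 | e4 <;> linarith
    have eY : Y = g - x2 := by
      rw [hYd]
      show 2 * -B t d2 * g + fw (-B t d1) 0 1 * x1 - x2 = g - x2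
      rw [ft0, hb]
      ring
    rw [hb] at hR S hw0 kp yb
    rw [eY] at hY
    have hy' : y = (g + x2) / 2 - -B t d1 * x1 := by rw [hy, hb]; ring
    have hc' : c = -B t d1 * x1 + x2 / 2 - g := by rw [hc, hb]; ring
    have hy1 : y ≤ 5 / 4 := by
      rcases le_or_gt 1 y with h | h
      · have := hyp4 h
        rw [hb] at this
        linarith only [this]
      · linarith only [h]
    have e3 : 2 * (-B t d1) ^ 2 + 2 * (1 / 2) ^ 2 - 1 = 2 * (-B t d1) ^ 2 - 1 / 2 := by ring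
    have e4 : 1 + 2 * -B t d1 * φ d1 + 2 * (1 / 2) * φ d2 = 1 + 2 * -B t d1 * φ d1 - -φ d2 := by ring
    have e5 : 1 + 2 * -B t d1 * ρ d1 + 2 * (1 / 2) * ρ d2 = 1 + 2 * -B t d1 * ρ d1 + ρ d2 := by ring
    rw [e3, e4, e5] at S
    rw [e4, e5] at hw0
    have fx : g + x1 * φ d1 - x2 * -φ d2 = 0 := by
      have := X.c.fz
      linarith only [this]
    have hκ : 1 < -φ d2 := by rw [hb] at pp; linarith only [pp]
    have hp : (-φ d2 - 1) * (1 + (-B t d1 * x1 + x2 / 2 - g)) ≤ y - 1 / 2 := by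
      rw [← hc']
      have e6 : -φ d2 - 1 = -φ d2 - 2 * (1 / 2) := by ring
      rw [e6]
      exact kp
    have hr2 : -(1 / 2) ≤ ρ d2 := by linarith only [foot, hb]
    by_cases h3 : 4 * (-B t d1) ^ 2 = 3
    · exact by63 hR hxm b1p p1 hY (by linarith only [c0, hc']) hy' yb h3 fx hκ hp hr2 S hw0
    · exact by3 hR hxm b1p p1 hY (by linarith only [c0, hc']) hy' yb (fun _ => hy1) lab1.lab h3 fx hκ hp hr2 S hw0
  · -- order `4`
    subst hn
    rw [sq4] at h0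
    have hb : 4 * (-B t d2) ^ 2 = 2 := by
      rcases mul_eq_zero.1 h0 with h | h <;> linarith
    have hK := H.k_pos (by linarith only [hb])
    rw [ft2] at r1
    rw [ft3] at r2
    have hz : Z1 (2 * -B t d1 * Y - x1) := by
      rcases hmem with ⟨h, -⟩ | ⟨-, h, -⟩
      · norm_num at h
      · have h5 := hR.r1 _ _ _ h
        have e3 : 2 * -B t d1 * fe (-B t d1) (-B t d2) 0 x1 x2 g (2 + 1) +
            2 * 0 * fe (-B t d1) (-B t d2) 0 x1 x2 g (2 + 1 + 1) - x1 = 2 * -B t d1 * Y - x1 := by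
          rw [hYd]; ring
        rw [e3] at h5
        exact (pos1 hR h5 (by rw [← hYd]; linarith only [hY])).2.1
    have hs5 : 2618 / 1000 ≤ 4 * (-B t d1) ^ 2 := by
      rcases lab1 with h | h | ⟨h, h'⟩ | h | ⟨h, -⟩ | ⟨-, h⟩ | h
      · linarith only [hb, hK, h]
      · linarith only [hb, hK, h]
      · by_contra h4
        rw [not_le] at h4
        nlinarith only [h, h', h4]
      all_goals linarith only [h]
    have hy1 : 1 < y := by
      by_contra hcon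
      rw [not_lt] at hcon
      have hd := X.hd32 um (by linarith only [pp])
      obtain ⟨-, u2, -⟩ := X.u1 (by linarith only [hb1]) (by linarith only [yb, hcon]) (by rw [hO]; norm_num) um le_rfl hd
      rw [bxu] at u2
      have u3 := u2 (by linarith only [b2p, yb]) hcon
      have hkq : 15 / 100 ≤ kq B t d1 d2 := by
        unfold kq
        rw [hO]
        have e3 : B t d1 ^ 2 + B t d2 ^ 2 + (0 : ℝ) ^ 2 - 2 * B t d1 * B t d2 * 0 - 1 =
          (-B t d1) ^ 2 + (-B t d2) ^ 2 - 1 := by ring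
        rw [e3]
        linarith only [hb, hs5]
      have hsq : 38 / 100 ≤ √(kq B t d1 d2) := Real.le_sqrt_of_sq_le (by norm_num; linarith only [hkq])
      have b7 : 7 / 10 ≤ -B t d2 := by
        by_contra h
        rw [not_le] at h
        nlinarith only [b2p, hb, h]
      have h6 : ρ x * (y - √(kq B t d1 d2)) ≤ ρ x * (62 / 100) :=
        mul_le_mul_of_nonneg_left (by linarith only [hcon, hsq]) L.rx
      have h7 : ρ x * (62 / 100) ≤ 1 * (62 / 100) := mul_le_mul_of_nonneg_right hx1 (by norm_num)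
      linarith only [foot, u3, b7, h6, h7]
    have hy4 := hyp4 hy1.le
    exact by_four H lab1 hb1 hb (by linarith only [foot]) hY zW hz (by rw [r1]; ring) (by rw [r2]; ring) hy1
      (by linarith only [hb, hy4]) S
  · -- order `5`
    subst hn
    rw [sq5] at h0
    have hb3 := hs 2 (by norm_num)
    rw [sq3] at hb3
    have hb : 4 * (-B t d2) ^ 2 = 2 * -B t d2 + 1 := by
      have e3 : (4 * (-B t d2) ^ 2 - (2 * -B t d2 + 1)) * (4 * (-B t d2) ^ 2 + 2 * -B t d2 - 1) = 0 := by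
        linarith only [h0]
      rcases mul_eq_zero.1 e3 with h | h <;> linarith
    rw [ft3] at r1
    rw [ft4] at r2
    refine by_five H l1 hb (by linarith only [foot]) hY ?_ S
    rw [r1, r2]
    ring
  · -- order at least `6`
    have l2 : 4 * (-B t d2) ^ 2 = 3 ∨ 3246 / 1000 ≤ 4 * (-B t d2) ^ 2 := by
      have h5 := hs 4 (by omega)
      rw [sq5] at h5
      have h3 := hs 2 (by omega)
      rw [sq3] at h3
      rcases lab2 with h | h | ⟨h, h'⟩ | h | ⟨h, -⟩ | ⟨h, h'⟩ | h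
      · linarith only [h3, h]
      · rw [h] at h5
        norm_num at h5
      · linarith only [h5, h']
      · exact Or.inl h
      · exact Or.inr (by linarith only [h])
      · right
        by_contra h6
        rw [not_le] at h6
        nlinarith only [h, h', h6]
      · exact Or.inr (by linarith only [h])
    have hrel : (1 - (-B t d2) ^ 2) * Y ≤ -B t d1 * x1 - -B t d2 * y - c := by
      rcases hmem with ⟨-, -, h5, h6⟩ | ⟨-, -, h5, h6⟩
      · rw [h5] at r1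
        have e3 : n + 1 + 1 = n + 2 := rfl
        rw [e3] at h6
        rw [h6] at r2
        rw [r1, r2]
        have h7 : -B t d2 * (-B t d1 * x1) ≤ 1 * (-B t d1 * x1) :=
          mul_le_mul_of_nonneg_right hb2.le (by
            have := b1p
            positivity)
        linarith only [h7]
      · rw [h5] at r1
        have e3 : n + 1 + 1 = n + 2 := rfl
        rw [e3] at h6
        rw [h6] at r2
        rw [r1, r2]
        linarith only []
    exact by_six H l1 l2 (by linarith only [foot]) hY hrel S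

end Pool.Agent.Helper78.DY
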