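import Pool.Agent.Helper78.DY.ByR
import Pool.Agent.Helper62.DY.LemA3
import Pool.Agent.Helper9.DY.NG
import Pool.Agent.Helper9.DY.Sq

/-!
# `F` beyond `V_2`, label `3` at `V_2`, `m_O = 2`: the part without pencils (MP_d13a5e_al)
-/

set_option autoImplicit false

namespace Pool.Agent.Helper78.DY

open _root_.DY (Z1 Str sq sq_zero sq_one sq_two sq_succ)
open Pool.Agent.Helper62.DY (RT)

theorem z1n {a : ℝ} (h : Z1 a) : 0 ≤ a := by
  rcases h with h | h <;> linarith only [h]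

theorem z1p {a : ℝ} (h : Z1 a) (h0 : 0 < a) : 1 ≤ a := by
  rcases h with h | h
  · exact absurd h h0.ne'
  · exact h

theorem pos3 {b1 b2 bO : ℝ} {R : ℝ → ℝ → ℝ → Prop} (h : RT b1 b2 bO R) {x y z : ℝ} (hx : R x y z)
    (hz : 0 < z) : Z1 x ∧ Z1 y ∧ Z1 z := by
  rcases h.z _ _ _ hx with h1 | ⟨-, -, h1⟩
  · exact h1
  · have := z1n h1
    linarith only [hz, this]

theorem pos1 {b1 b2 bO : ℝ} {R : ℝ → ℝ → ℝ → Prop} (h : RT b1 b2 bO R) {x y z : ℝ} (hx : R x y z)
    (hz : 0 < x) : Z1 x ∧ Z1 y ∧ Z1 z := by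
  rcases h.z _ _ _ hx with h1 | ⟨h1, -, -⟩
  · exact h1
  · have := z1n h1
    linarith only [hz, this]

/-- the further coordinates of `x` -/
theorem coords {b1 : ℝ} {R : ℝ → ℝ → ℝ → Prop} (h : RT b1 (1 / 2) 0 R) {g v x2 : ℝ} (hx : R g v x2)
    (hY : 1 ≤ g - x2) (hc : g ≤ b1 * v + x2 / 2) {W z M f : ℝ} (hW : W = 2 * b1 * v - x2)
    (hz : z = 2 * b1 * W - v) (hM : M = 2 * b1 * z + (g - x2) - W) (hf : f = 2 * b1 * M - z) :
    R W v (g - x2) ∧ R M f (g - x2) ∧ 1 ≤ M ∧ (1 ≤ f ∨ (f = 0 ∧ M = 1 ∧ g - x2 = 1)) := by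
  have a1 : R g v (g - x2) := by
    have := h.r2 _ _ _ hx
    have e : 2 * (1 / 2) * g + 2 * 0 * v - x2 = g - x2 := by ring
    rwa [e] at this
  have a2 : R W v (g - x2) := by
    have := h.r0 _ _ _ a1
    have e : 2 * b1 * v + 2 * (1 / 2) * (g - x2) - g = W := by rw [hW]; ring
    rwa [e] at this
  have a3 : R W z (g - x2) := by
    have := h.r1 _ _ _ a2
    have e : 2 * b1 * W + 2 * 0 * (g - x2) - v = z := by rw [hz]; ring
    rwa [e] at this
  have a4 : R M z (g - x2) := by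
    have := h.r0 _ _ _ a3
    have e : 2 * b1 * z + 2 * (1 / 2) * (g - x2) - W = M := by rw [hM]; ring
    rwa [e] at this
  have a5 : R M f (g - x2) := by
    have := h.r1 _ _ _ a4
    have e : 2 * b1 * M + 2 * 0 * (g - x2) - z = f := by rw [hf]; ring
    rwa [e] at this
  have Yp : 0 < g - x2 := by linarith only [hY]
  have hM1 : 1 ≤ M := by
    rcases (pos3 h a4 Yp).1 with h1 | h1
    · exfalso
      have n4 := h.n _ _ _ a4
      rw [h1] at n4 hM
      have z0 := (pos3 h a4 Yp).2.1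
      have e1 : z ^ 2 + (g - x2) ^ 2 = 1 := by linarith only [n4]
      have e2 : z = 0 := by
        rcases z0 with h2 | h2
        · exact h2
        · nlinarith only [Yp, e1, h2]
      rw [e2] at hM
      linarith only [hY, hc, hW, hM]
    · exact h1
  refine ⟨a2, a5, hM1, ?_⟩
  rcases (pos3 h a5 Yp).2.1 with h1 | h1
  · right
    have n5 := h.n _ _ _ a5
    rw [h1] at n5
    have e1 : (M - (g - x2)) ^ 2 + (M * (g - x2) - 1) = 0 := by linarith only [n5]
    have e2 : 1 ≤ M * (g - x2) := by nlinarith only [hY, hM1]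
    have e3 : (M - (g - x2)) ^ 2 ≤ 0 := by linarith only [e1, e2]
    have e4 : M - (g - x2) = 0 := by
      have := sq_nonneg (M - (g - x2))
      exact pow_eq_zero_iff (two_ne_zero) |>.1 (le_antisymm e3 this)
    refine ⟨h1, ?_, ?_⟩ <;> nlinarith
  · left
    exact h1

/-- the possible labels `s = (2 b1)^2` -/
def Lab (s : ℝ) : Prop :=
  (1 ≤ s ∧ s ^ 2 - 3 * s + 1 ≤ 0) ∨ s = 3 ∨ (324697 / 100000 ≤ s ∧ s ≤ 324699 / 100000) ∨
    (s ^ 2 - 4 * s + 2 = 0 ∧ 3 ≤ s) ∨ 353 / 100 ≤ s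

/-- the index of `w` is at most two -/
theorem str_two {c s f r : ℝ} (hS : Str c f r) (hc : 2 * c = s - 1) (hs : 3 < s) (hf : f < 0)
    (h2 : 0 < s * (s - 2) * f + (s - 1)) : -(1 / s) ≤ r := by
  have i2 : sq c 2 = s - 1 := by rw [sq_two, hc]
  have i3 : sq c 3 = s * (s - 2) := by
    have : sq c 3 = 2 * c * sq c 2 - sq c 1 := sq_succ c 1
    rw [this, i2, hc, sq_one]
    ring
  have p2 : 0 < s * (s - 2) := mul_pos (by linarith only [hs]) (by linarith only [hs])
  rcases le_or_gt ((s - 1) * f + 1) 0 with h1 | h1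
  · have h3 := hS.nk hf 2 (by
      intro i hi
      interval_cases i
      · rw [sq_one]; norm_num
      · rw [i2]; linarith only [hs]
      · rw [i3]; exact p2) (by
      intro i hi
      interval_cases i
      · rw [sq_one, sq_zero]; linarith only [hf]
      · rw [i2, sq_one]; linarith only [h1]) (by
      rw [i3, i2]
      linarith only [h2])
    rw [i3, i2] at h3
    have h4 : 0 < s * (s - 2) * (r + 1 / s) := by
      have : s * (s - 2) * (r + 1 / s) = s * (s - 2) * r + (s - 2) := by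
        field_simp
      rw [this]
      linarith only [h3]
    have := (mul_pos_iff_of_pos_left p2).1 h4
    linarith only [this]
  · have h3 := hS.nk hf 1 (by
      intro i hi
      interval_cases i
      · rw [sq_one]; norm_num
      · rw [i2]; linarith only [hs]) (by
      intro i hi
      interval_cases i
      rw [sq_one, sq_zero]; linarith only [hf]) (by
      rw [i2, sq_one]
      linarith only [h1])
    rw [i2, sq_one] at h3
    have h4 : 0 < (s - 1) * r := by linarith only [h3]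
    have h5 := (mul_pos_iff_of_pos_left (by linarith only [hs] : 0 < s - 1)).1 h4
    have : 0 ≤ 1 / s := by positivity
    linarith only [h5, this]

/-- **label `3` at `V_2`**, `s ≠ 3` -/
theorem by3 {b1 : ℝ} {R : ℝ → ℝ → ℝ → Prop} (h : RT b1 (1 / 2) 0 R) {g v x2 y : ℝ} (hx : R g v x2)
    (hb1 : 0 < b1) (hv : 1 ≤ v) (hY : 1 ≤ g - x2) (hc : g ≤ b1 * v + x2 / 2)
    (hy : y = (g + x2) / 2 - b1 * v) (hy0 : 1 / 2 < y) (hy1 : 3 < 4 * b1 ^ 2 → y ≤ 5 / 4)
    (lab : Lab (4 * b1 ^ 2)) (h3 : 4 * b1 ^ 2 ≠ 3) {κ q1 r1 r2 : ℝ} (fx : g + v * q1 - x2 * κ = 0)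
    (hκ : 1 < κ) (hp : (κ - 1) * (1 + (b1 * v + x2 / 2 - g)) ≤ y - 1 / 2) (hr2 : -(1 / 2) ≤ r2)
    (S : Str (2 * b1 ^ 2 - 1 / 2) (1 + 2 * b1 * q1 - κ) (1 + 2 * b1 * r1 + r2))
    (hz : 1 + 2 * b1 * q1 - κ = 0 → 0 ≤ 1 + 2 * b1 * r1 + r2) : 1 < g + v * r1 + x2 * r2 := by
  have nrm := h.n _ _ _ hx
  obtain ⟨s, hs⟩ : ∃ s, s = 4 * b1 ^ 2 := ⟨_, rfl⟩
  obtain ⟨k, hk⟩ : ∃ k, k = 1 + (b1 * v + x2 / 2 - g) := ⟨_, rfl⟩
  obtain ⟨T, hT⟩ : ∃ T, T = 2 * y - 1 := ⟨_, rfl⟩
  obtain ⟨E, hE⟩ : ∃ E, E = g - x2 - 1 := ⟨_, rfl⟩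
  have hL : 2 * b1 * v = 4 * k + T + 3 * E := by rw [hk, hT, hE, hy]; ring
  have k1 : 1 ≤ k := by rw [hk]; linarith only [hc]
  have T0 : 0 < T := by rw [hT]; linarith only [hy0]
  have E0 : 0 ≤ E := by rw [hE]; linarith only [hY]
  have hN : Nm s k T E := by
    unfold Nm
    rw [hk, hT, hE, hy, hs]
    linear_combination (4 * b1 ^ 2) * nrm
  rw [← hs] at lab h3 hy1
  -- small labels
  have hs3 : 3 < s := by
    rcases lab with ⟨h1, h2⟩ | h1 | ⟨h1, -⟩ | ⟨-, h1⟩ | h1
    · exfalso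
      have h4 : s < 8 / 3 := by
        by_contra h5
        rw [not_lt] at h5
        nlinarith only [h2, h5]
      unfold Nm at hN
      have h5 : 0 < k * (4 * (4 - s) * k - 2 * s) := mul_pos (by linarith only [k1]) (by nlinarith only [k1, h4])
      have h6 : 0 ≤ (4 - s) * (T * k) := mul_nonneg (by linarith only [h4]) (by positivity)
      have h7 : 0 ≤ (3 - s) * (E * (8 * k + 2 * T + 3 * E)) := mul_nonneg (by linarith only [h4]) (by positivity)
      nlinarith only [hN, h5, h6, h7]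
    · exact absurd h1 h3
    · linarith only [h1]
    · exact lt_of_le_of_ne h1 (Ne.symm h3)
    · linarith only [h1]
  have T1 : T ≤ 3 / 2 := by
    have := hy1 hs3
    rw [hT]
    linarith only [this]
  have hs4 := s_lt hN k1 T0 T1 E0
  obtain ⟨p, hp'⟩ : ∃ p, p = κ - 1 := ⟨_, rfl⟩
  have p0 : 0 < p := by rw [hp']; linarith only [hκ]
  have hpk : p * k ≤ T / 2 := by
    rw [hp', hk, hT]
    linarith only [hp]
  obtain ⟨D, hD⟩ : ∃ D, D = 2 * b1 * x2 - v := ⟨_, rfl⟩
  have hD' : 2 * b1 * D * 3 = 2 * s * (T + k) + (s - 3) * (4 * k + T + 3 * E) := by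
    rw [hD, hk, hT, hE, hy, hs]
    ring
  have D0 : 0 < D := by
    have h5 : 0 < 2 * b1 * D * 3 := by
      rw [hD']
      have h6 : 0 < 2 * s * (T + k) := by positivity
      have h7 : 0 ≤ (s - 3) * (4 * k + T + 3 * E) := mul_nonneg (by linarith only [hs3]) (by positivity)
      linarith only [h6, h7]
    have h6 : 0 < 6 * b1 := by linarith only [hb1]
    exact (mul_pos_iff_of_pos_left h6).1 (by linarith only [h5])
  -- `v φ(w) = p D - 2 b1 Y`
  have hw : v * (1 + 2 * b1 * q1 - κ) = p * D - 2 * b1 * (1 + E) := by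
    rw [hp', hD, hE]
    linear_combination (2 * b1) * fx
  -- the final inequality
  have fin : -((s - 2) / 4) ≤ 1 + 2 * b1 * r1 + r2 → 1 < g + v * r1 + x2 * r2 := by
    intro hr
    have h5 : v * (-((s - 2) / 4)) ≤ v * (1 + 2 * b1 * r1 + r2) := mul_le_mul_of_nonneg_left hr (by linarith only [hv])
    have h6 : D * (-(1 / 2)) ≤ D * r2 := mul_le_mul_of_nonneg_left hr2 D0.le
    have h7 : 2 * b1 * (3 / 4 * (g - x2) + y / 2) ≤ 2 * b1 * (g + v * r1 + x2 * r2) := by
      have e1 : 2 * b1 * (g + v * r1 + x2 * r2) =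
          2 * b1 * g - v + v * (1 + 2 * b1 * r1 + r2) + D * r2 := by rw [hD]; ring
      have e2 : 2 * b1 * (3 / 4 * (g - x2) + y / 2) =
          2 * b1 * g - v + v * (-((s - 2) / 4)) + D * (-(1 / 2)) := by
        rw [hD, hy, hs]
        ring
      rw [e1, e2]
      linarith only [h5, h6]
    have h8 := le_of_mul_le_mul_left h7 (by linarith only [hb1] : 0 < 2 * b1)
    linarith only [hT, hE, T0, E0, h8]
  have hss : 1 / s ≤ (s - 2) / 4 ∨ s < 324 / 100 := by
    rcases lt_or_ge s (324 / 100) with h5 | h5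
    · exact Or.inr h5
    · left
      rw [div_le_div_iff₀ (by linarith only [h5]) (by norm_num)]
      nlinarith only [h5]
  have hs32 : 324697 / 100000 ≤ s := by
    rcases lab with ⟨h1, h2⟩ | h1 | ⟨h1, -⟩ | ⟨h1, h2⟩ | h1
    · nlinarith only [hs3, h2]
    · exact absurd h1 h3
    · exact h1
    · nlinarith only [h1, h2]
    · linarith only [h1]
  have hs' : 1 / s ≤ (s - 2) / 4 := by
    rcases hss with h5 | h5
    · exact h5
    · linarith only [hs32, h5]
  obtain ⟨W, hW⟩ : ∃ W, W = 2 * b1 * v - x2 := ⟨_, rfl⟩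
  obtain ⟨z, hzz⟩ : ∃ z, z = 2 * b1 * W - v := ⟨_, rfl⟩
  obtain ⟨M, hM⟩ : ∃ M, M = 2 * b1 * z + (g - x2) - W := ⟨_, rfl⟩
  obtain ⟨f, hf⟩ : ∃ f, f = 2 * b1 * M - z := ⟨_, rfl⟩
  obtain ⟨-, -, M1, f1⟩ := coords h hx hY hc hW hzz hM hf
  have eM : M = 1 + 2 * (s - 2) * E + 2 * (s - 3) * k - T := by
    rw [hM, hzz, hW, hE, hk, hT, hy, hs]
    ring
  have ef : 2 * b1 * f = s + (2 * s ^ 2 - 6 * s + 3) * E + 2 * (s ^ 2 - 4 * s + 2) * k - (s - 1) * T := by
    rw [hf, hM, hzz, hW, hE, hk, hT, hy, hs]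
    ring
  have hl : (2 * b1) ^ 2 = s := by rw [hs]; ring
  rcases lt_trichotomy (1 + 2 * b1 * q1 - κ) 0 with hφ | hφ | hφ
  · -- `φ w < 0`
    have hL2 : s ^ 2 * (s - 2) * (1 + E) ≤ (s - 1) * (4 * k + T + 3 * E) := by
      rcases lab with ⟨h1, h2⟩ | h1 | ⟨h1, h2⟩ | ⟨h1, h2⟩ | h1
      · nlinarith only [hs32, h2]
      · exact absurd h1 h3
      · rcases le_or_gt T 1 with h5 | h5
        · exact e_seven_a hN k1 T0 h5 E0 h1 h2
        · refine e_seven_b hN k1 h5 T1 E0 h1 h2 hl (by linarith only [hb1]) ?_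
          rw [← ef]
          rcases f1 with h6 | ⟨h6, h7, h8⟩
          · nlinarith only [hb1, h6]
          · exfalso
            have E00 : E = 0 := by rw [hE]; linarith only [h8]
            rw [h7, E00] at eM
            rw [h6, E00] at ef
            nlinarith only [eM, ef, h1, h2, h5]
      · exact e_eight hN k1 T0 T1 E0 h1.ge h2 hs4
      · exact e_eight hN k1 T0 T1 E0 (by nlinarith only [h1]) (by linarith only [h1]) hs4
    have hv0 : 0 < v := by linarith only [hv]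
    have h5 : 0 < s * (s - 2) * (1 + 2 * b1 * q1 - κ) + (s - 1) := by
      have e1 : 2 * b1 * v * (s * (s - 2) * (1 + 2 * b1 * q1 - κ) + (s - 1)) =
          s * (s - 2) * (2 * b1 * (p * D)) + ((s - 1) * (4 * k + T + 3 * E) - s ^ 2 * (s - 2) * (1 + E)) := by
        have e2 : 2 * b1 * v * (s * (s - 2) * (1 + 2 * b1 * q1 - κ) + (s - 1)) =
          s * (s - 2) * (2 * b1) * (v * (1 + 2 * b1 * q1 - κ)) + (s - 1) * (2 * b1 * v) := by ring
        rw [e2, hw, hL]
        have e3 : s * (s - 2) * (2 * b1) * (2 * b1 * (1 + E)) = s ^ 2 * (s - 2) * (1 + E) := by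
          rw [← hl]; ring
        linear_combination -e3
      have h6 : 0 < s * (s - 2) * (2 * b1 * (p * D)) := by
        have : 0 < s - 2 := by linarith only [hs32]
        positivity
      have h7 : 0 < 2 * b1 * v * (s * (s - 2) * (1 + 2 * b1 * q1 - κ) + (s - 1)) := by
        rw [e1]; linarith only [hL2, h6]
      exact (mul_pos_iff_of_pos_left (by positivity)).1 h7
    have h6 := str_two S (by rw [hs]; ring) hs3 hφ h5
    exact fin (by linarith only [hs', h6])
  · -- `φ w = 0`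
    have := hz hφ
    exact fin (by linarith only [hs32, this])
  · -- `φ w > 0`
    exfalso
    have hv0 : 0 < v := by linarith only [hv]
    have h5 : 0 < p * D - 2 * b1 * (1 + E) := by
      rw [← hw]
      exact mul_pos hv0 hφ
    have hG : s * k * (1 + E) < (s - 2) * T * k + (s - 1) / 2 * T ^ 2 + (s - 3) * T * E / 2 := by
      have h6 : k * (2 * b1 * (1 + E)) < D * (T / 2) := by
        have h7 : D * (p * k) ≤ D * (T / 2) := mul_le_mul_of_nonneg_left hpk D0.le
        have h8 : k * (2 * b1 * (1 + E)) < k * (p * D) := mul_lt_mul_of_pos_left (by linarith only [h5]) (by linarith only [k1])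
        linarith only [h7, h8]
      have h7 : 2 * b1 * (k * (2 * b1 * (1 + E))) < 2 * b1 * (D * (T / 2)) :=
        mul_lt_mul_of_pos_left h6 (by linarith only [hb1])
      have e1 : 2 * b1 * (k * (2 * b1 * (1 + E))) = s * k * (1 + E) := by rw [← hl]; ring
      have e2 : 2 * b1 * (D * (T / 2)) =
          (s - 2) * T * k + (s - 1) / 2 * T ^ 2 + (s - 3) * T * E / 2 := by
        linear_combination (T / 6) * hD'
      rw [e1, e2] at h7
      exact h7
    rcases lab with ⟨h1, h2⟩ | h1 | ⟨h1, h2⟩ | ⟨h1, h2⟩ | h1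
    · nlinarith only [hs32, h2]
    · exact absurd h1 h3
    · refine g_seven hN k1 T0 T1 E0 (by linarith only [h1]) (by linarith only [h2]) ?_ hG.le
      linarith only [M1, eM]
    · rcases f1 with h6 | ⟨h6, h7, h8⟩
      · refine g_eight hN k1 T0 T1 E0 h1 h2 hl (by linarith only [hb1]) ?_ hG.le
        have e1 : (2 * s - 1) * E = (2 * s ^ 2 - 6 * s + 3) * E + 2 * (s ^ 2 - 4 * s + 2) * k := by
          linear_combination (-(2 * E) - 2 * k) * h1
        rw [e1, ← add_assoc, ← ef]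
        nlinarith only [hL, k1, T0, E0, hv0, h6]
      · have E00 : E = 0 := by rw [hE]; linarith only [h8]
        rw [h7, E00] at eM
        rw [E00] at hN hG
        unfold Nm at hN
        have hTk : T = 2 * (s - 3) * k := by linarith only [eM]
        have hk2 : k = s / 2 := by
          have e1 : k * (4 * k - 2 * s) = 0 := by
            rw [hTk] at hN
            linarith only [hN]
          rcases mul_eq_zero.1 e1 with e2 | e2 <;> linarith
        have hT2 : T = s * (s - 3) := by rw [hTk, hk2]; ring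
        rw [hT2, hk2] at hG
        have e3 : (s - 2) * (s * (s - 3)) * (s / 2) + (s - 1) / 2 * (s * (s - 3)) ^ 2 =
            s * (s / 2) := by
          have e4 : (s - 3) * (s - 1) = 1 := by linarith only [h1]
          have e5 : s ^ 2 - 3 * s + 1 = s - 1 := by linarith only [e4]
          have e6 : (s - 2) * (s * (s - 3)) * (s / 2) + (s - 1) / 2 * (s * (s - 3)) ^ 2 =
            s * (s / 2) * ((s - 3) * (s ^ 2 - 3 * s + 1)) := by ring
          rw [e6, e5, e4, mul_one]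
        linarith only [hG, e3]
    · exact g_nine hN k1 T0 T1 E0 h1 hs4 hG.le

end Pool.Agent.Helper78.DY
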