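import Pool.Agent.Helper78.DY.ByL

/-!
# `F` beyond `V_2`, `m_O = 2`: real inequalities for the labels at least `4` at `V_2` (MP_d13a5e_al)
-/

set_option autoImplicit false

namespace Pool.Agent.Helper78.DY

open _root_.DY (Z1 Str sq sq_zero sq_one sq_two sq_succ)
open Pool.Agent.Helper62.DY (RT)

section

variable {b1 b g v x2 r1 r2 y c : ℝ}

/-- the values of the form in terms of the coordinates -/
structure Yc (b1 b g v x2 y c : ℝ) : Prop where
  hb : 0 < b
  hb1 : b < 1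
  h1 : 0 < b1
  nrm : g ^ 2 + v ^ 2 + x2 ^ 2 - 2 * b1 * g * v - 2 * b * g * x2 = 1
  hv : 1 ≤ v
  hy : y = (1 - 2 * b ^ 2) * x2 + b * g - 2 * b * b1 * v
  hc : c = b1 * v + b * x2 - g
  c0 : 0 ≤ c
  yb : b < y

namespace Yc

variable (H : Yc b1 b g v x2 y c)
include H

theorem norm6 : (c + b * y) ^ 2 = (1 - b ^ 2) * (1 - y ^ 2) + (b1 ^ 2 + b ^ 2 - 1) * v ^ 2 := by
  rw [H.hc, H.hy]
  linear_combination (1 - b ^ 2) * H.nrm

/-- spherical and affine triples -/
theorem k_pos (hb2 : 1 / 2 ≤ b ^ 2) : 0 < b1 ^ 2 + b ^ 2 - 1 := by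
  by_contra h
  rw [not_lt] at h
  have h1 := H.norm6
  have h2 : (b1 ^ 2 + b ^ 2 - 1) * v ^ 2 ≤ 0 := mul_nonpos_of_nonpos_of_nonneg h (sq_nonneg v)
  have hy0 : 0 < y := lt_trans H.hb H.yb
  have h3 : (b * y) ^ 2 ≤ (c + b * y) ^ 2 := by
    have := mul_pos H.hb hy0
    nlinarith only [this, H.c0]
  have h4 : y ^ 2 ≤ 1 - b ^ 2 := by nlinarith only [h, h1, h3]
  have h5 : b ^ 2 < y ^ 2 := by nlinarith only [H.yb, H.hb]
  linarith only [hb2, h4, h5]

theorem x_bound (hK : 0 ≤ b1 ^ 2 + b ^ 2 - 1) (hr2 : -b ≤ r2) :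
    2 * b1 * (b1 * v - c) + v * ((1 + 2 * b1 * r1 + 2 * b * r2) + (2 * b ^ 2 - 1)) ≤
      2 * b1 * (g + v * r1 + x2 * r2) := by
  have hy0 : 0 < y := lt_trans H.hb H.yb
  have h1 : 0 ≤ b1 * x2 - b * v := by
    have e1 : (1 - b ^ 2) * (b1 * x2 - b * v) = b1 * (y + b * c) + b * (b1 ^ 2 + b ^ 2 - 1) * v := by
      rw [H.hc, H.hy]
      ring
    have h2 : 0 ≤ b1 * (y + b * c) + b * (b1 ^ 2 + b ^ 2 - 1) * v := by
      have := H.h1
      have := H.hb
      have := H.c0
      have := H.hv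
      positivity
    have h3 : 0 < 1 - b ^ 2 := by nlinarith only [H.hb, H.hb1]
    rw [← e1] at h2
    exact nonneg_of_mul_nonneg_right h2 h3
  have h2 : (b1 * x2 - b * v) * (-b) ≤ (b1 * x2 - b * v) * r2 := mul_le_mul_of_nonneg_left hr2 h1
  rw [H.hc]
  linarith only [h2]

/-- the general conclusion -/
theorem concl {Y : ℝ} (hY : 1 ≤ Y) (hK : 0 ≤ b1 ^ 2 + b ^ 2 - 1) (hr2 : -b ≤ r2) {Z : ℝ}
    (hc : (1 - b ^ 2) * Y + b * y + Z ≤ b1 * v - c)
    (hr : 0 ≤ 2 * b1 * Z + v * ((1 + 2 * b1 * r1 + 2 * b * r2) + (2 * b ^ 2 - 1))) :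
    1 < g + v * r1 + x2 * r2 := by
  have h1 := H.x_bound (r1 := r1) hK hr2
  have hb := H.hb
  have hb1 := H.hb1
  have hyb := H.yb
  have h2 : 1 < (1 - b ^ 2) * Y + b * y := by
    have h3 : (1 - b ^ 2) * 1 ≤ (1 - b ^ 2) * Y := mul_le_mul_of_nonneg_left hY (by nlinarith only [hb, hb1])
    have h4 : b * b < b * y := mul_lt_mul_of_pos_left hyb hb
    linarith only [h3, h4]
  have h3 : 2 * b1 * (1 + Z) < 2 * b1 * (b1 * v - c) :=
    mul_lt_mul_of_pos_left (by linarith only [hc, h2]) (by linarith only [H.h1])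
  have h4 : 2 * b1 * 1 < 2 * b1 * (g + v * r1 + x2 * r2) := by linarith only [hr, h1, h3]
  exact lt_of_mul_lt_mul_left h4 (by linarith only [H.h1])

end Yc

end

/-- lower bound for `ρ w` -/
theorem ult_ge {c f r q : ℝ} (S : Str c f r) (hc : 1 ≤ c) (h : 1 + q ^ 2 - 2 * c * q ≤ 0) :
    -q ≤ r := by
  by_contra hcon
  rw [not_le] at hcon
  have h1 := S.ult hc
  have h2 := S.foot
  nlinarith only [h, hcon, h1, mul_nonneg (by linarith only [h2] : 0 ≤ r + c) (by linarith only [hcon] : 0 ≤ -q - r)]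

section

variable {b1 b g v x2 r1 r2 y c f : ℝ}

/-- label at least `6` at `V_2` -/
theorem by_six (H : Yc b1 b g v x2 y c) (l1 : 4 * b1 ^ 2 = 1 ∨ 2 ≤ 4 * b1 ^ 2)
    (l2 : 4 * b ^ 2 = 3 ∨ 3246 / 1000 ≤ 4 * b ^ 2) (hr2 : -b ≤ r2) {Y : ℝ} (hY : 1 ≤ Y)
    (hc : (1 - b ^ 2) * Y ≤ b1 * v - b * y - c)
    (S : Str (2 * b1 ^ 2 + 2 * b ^ 2 - 1) f (1 + 2 * b1 * r1 + 2 * b * r2)) :
    1 < g + v * r1 + x2 * r2 := by
  have hK := H.k_pos (by rcases l2 with h | h <;> linarith only [h])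
  refine H.concl hY hK.le hr2 (Z := 0) (by linarith only [hc]) ?_
  have h1 : -(2 * b ^ 2 - 1) ≤ 1 + 2 * b1 * r1 + 2 * b * r2 := by
    refine ult_ge S (by linarith only [hK]) ?_
    rcases l2 with h | h
    · have h2 : 2 ≤ 4 * b1 ^ 2 := by
        rcases l1 with h3 | h3
        · linarith only [hK, h, h3]
        · exact h3
      have e1 : b ^ 2 = 3 / 4 := by linarith only [h]
      rw [e1]
      linarith only [h2]
    · have h2 : 1 / 4 ≤ b1 ^ 2 := by
        rcases l1 with h3 | h3 <;> linarith only [h3]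
      set B2 := b ^ 2
      set A2 := b1 ^ 2
      nlinarith only [h, mul_nonneg (by linarith only [h2] : 0 ≤ A2 - 1 / 4) (by linarith only [h] : 0 ≤ 2 * B2 - 1)]
  rw [mul_zero, zero_add]
  exact mul_nonneg (by linarith only [H.hv]) (by linarith only [h1])

/-- label `5` at `V_2` -/
theorem by_five (H : Yc b1 b g v x2 y c) (l1 : 4 * b1 ^ 2 = 1 ∨ 2 ≤ 4 * b1 ^ 2)
    (l2 : 4 * b ^ 2 = 2 * b + 1) (hr2 : -b ≤ r2) {Y : ℝ} (hY : 1 ≤ Y)
    (hc : (1 - b ^ 2) * Y = b * (b1 * v) - b * y - c)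
    (S : Str (2 * b1 ^ 2 + 2 * b ^ 2 - 1) f (1 + 2 * b1 * r1 + 2 * b * r2)) :
    1 < g + v * r1 + x2 * r2 := by
  have hb8 : 8 / 10 ≤ b := by
    by_contra h
    rw [not_le] at h
    nlinarith only [l2, h, H.hb]
  have hb9 : b ≤ 82 / 100 := by
    by_contra h
    rw [not_le] at h
    nlinarith only [l2, h, H.hb]
  have hK := H.k_pos (by linarith only [l2, hb8])
  have h2 : 2 ≤ 4 * b1 ^ 2 := by
    rcases l1 with h3 | h3
    · nlinarith only [hb8, hb9, hK, h3]
    · exact h3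
  have hv := H.hv
  have hb1 := H.h1
  refine H.concl hY hK.le hr2 (Z := (1 - b) * (b1 * v)) (by rw [hc]; linarith only []) ?_
  have h1 : -(1 / 2) ≤ 1 + 2 * b1 * r1 + 2 * b * r2 :=
    ult_ge S (by linarith only [hK]) (by linarith only [l2, hb8, h2])
  have h3 : 0 ≤ v * (2 * b1 ^ 2 * (1 - b) - 1 / 2 + (2 * b ^ 2 - 1)) := by
    apply mul_nonneg (by linarith only [hv])
    have : 1 * (1 - b) ≤ 2 * b1 ^ 2 * (1 - b) := mul_le_mul_of_nonneg_right (by linarith only [h2]) (by linarith only [hb9])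
    linarith only [l2, this]
  have h4 : v * (-(1 / 2)) ≤ v * (1 + 2 * b1 * r1 + 2 * b * r2) :=
    mul_le_mul_of_nonneg_left h1 (by linarith only [hv])
  linarith only [h3, h4]

/-- label `4` at `V_2`, `y > 1` -/
theorem by_four (H : Yc b1 b g v x2 y c) (l1 : Lab2 (4 * b1 ^ 2)) (hb1 : b1 < 1)
    (l2 : 4 * b ^ 2 = 2) (hr2 : -b ≤ r2) {Y W : ℝ} (hY : 1 ≤ Y) (hW : Z1 W)
    (hz : Z1 (2 * b1 * Y - v)) (e1 : y = b * Y - W) (e2 : c = b * W + b1 * v - Y) (hy : 1 < y)
    (hy2 : b * y ≤ 3 / 4)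
    (S : Str (2 * b1 ^ 2 + 2 * b ^ 2 - 1) f (1 + 2 * b1 * r1 + 2 * b * r2)) :
    1 < g + v * r1 + x2 * r2 := by
  have hK := H.k_pos (by linarith only [l2])
  have hs2 : 2 < 4 * b1 ^ 2 := by linarith only [l2, hK]
  have hb := H.hb
  have h1 := H.h1
  have hv := H.hv
  have b7 : 7071 / 10000 ≤ b := by
    by_contra h
    rw [not_le] at h
    nlinarith only [l2, hb, h]
  have hb2 : b ^ 2 = 1 / 2 := by linarith
  -- the norm in the chamber of `F`
  have n6 := H.norm6
  have nz : v * (2 * b1 * Y - v) = Y ^ 2 / 2 + y ^ 2 - 1 := by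
    have e3 : c = b1 * v - Y / 2 - b * y := by
      rw [e2, e1]
      linear_combination Y * hb2
    rw [hb2, e3] at n6
    linarith only [n6]
  rcases hW with hW | hW
  · -- `W = 0`
    exfalso
    rw [hW, sub_zero] at e1
    rw [hW, mul_zero, zero_add] at e2
    have eY : Y = 2 * (b * y) := by
      rw [e1]
      linear_combination (-2 * Y) * hb2
    have hYlt : Y ≤ 3 / 2 := by linarith only [hy2, eY]
    have hYgt : 14 / 10 < Y := by nlinarith only [hy, b7, eY]
    have hvY : Y ≤ v := by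
      have h3 : Y ≤ b1 * v := by linarith only [e2, H.c0]
      have h4 : b1 * v ≤ 1 * v := mul_le_mul_of_nonneg_right hb1.le (by linarith only [hv])
      linarith only [h3, h4]
    have ey2 : y ^ 2 = Y ^ 2 / 2 := by
      rw [e1, mul_pow, hb2]; ring
    rw [ey2] at nz
    rcases hz with hz | hz
    · rw [hz] at nz
      nlinarith only [nz, hYgt]
    · nlinarith only [nz, hYlt, hYgt, hvY, hz]
  · -- `W ≥ 1`
    have hYb : 28 / 10 ≤ Y := by
      have h3 : 2 ≤ b * Y := by linarith only [e1, hy, hW]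
      by_contra h4
      rw [not_le] at h4
      have : b * Y ≤ b * (28 / 10) := mul_le_mul_of_nonneg_left h4.le hb.le
      have h5 : b ≤ 71 / 100 := by
        by_contra h6
        rw [not_le] at h6
        nlinarith only [hb2, h6]
      linarith only [h3, this, h5]
    have hx := H.x_bound (r1 := r1) hK.le hr2
    have e3 : b1 * v - c = Y / 2 + b * y := by
      rw [e2, e1]
      linear_combination -Y * hb2
    rw [e3, hb2] at hx
    have hvY : v ≤ 2 * b1 * Y := by
      have := z1n hz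
      linarith only [this]
    have hby : 7071 / 10000 < b * y := by nlinarith only [e1, e2, hy, hW, hYb, e3]
    obtain ⟨r, hr⟩ : ∃ r, r = 1 + 2 * b1 * r1 + 2 * b * r2 := ⟨_, rfl⟩
    rw [← hr] at S hx
    have e4 : 2 * b1 ^ 2 + 2 * b ^ 2 - 1 = 2 * b1 ^ 2 := by linarith only [hb2]
    rw [e4] at S
    suffices hs : 2 * b1 * 1 < 2 * b1 * (Y / 2 + b * y) + v * r by
      have h5 : 2 * b1 * 1 < 2 * b1 * (g + v * r1 + x2 * r2) := by
        have e5 : r + (2 * (1 / 2) - 1) = r := by ring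
        rw [e5] at hx
        linarith only [hx, hs]
      exact lt_of_mul_lt_mul_left h5 (by linarith only [h1])
    have hlab : 3 ≤ 4 * b1 ^ 2 ∨ (4 * b1 ^ 2) ^ 2 - 3 * (4 * b1 ^ 2) + 1 = 0 := by
      rcases l1 with h | h | ⟨-, h⟩ | h | ⟨h, -⟩ | ⟨-, h⟩ | h
      · linarith only [hs2, h]
      · linarith only [hs2, h]
      · exact Or.inr h
      all_goals exact Or.inl (by linarith only [h])
    rcases hlab with h3 | h3
    · have hr0 : -(382 / 1000) ≤ r := ult_ge S (by linarith only [h3]) (by linarith only [h3])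
      have h4 : v * (-(382 / 1000)) ≤ v * r := mul_le_mul_of_nonneg_left hr0 (by linarith only [hv])
      have h5 : 2 * b1 * 1 < 2 * b1 * (Y / 2 + b * y - 382 / 1000 * Y) :=
        mul_lt_mul_of_pos_left (by linarith only [hYb, hby]) (by linarith only [h1])
      linarith only [hvY, h4, h5]
    · -- `m1 = 5`
      have hs : 2618 / 1000 ≤ 4 * b1 ^ 2 := by
        by_contra h4
        rw [not_le] at h4
        nlinarith only [hs2, h3, h4]
      have hs' : 4 * b1 ^ 2 ≤ 2619 / 1000 := by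
        by_contra h4
        rw [not_le] at h4
        nlinarith only [h3, h4]
      have hl : 1618 / 1000 ≤ 2 * b1 := by
        by_contra h4
        rw [not_le] at h4
        nlinarith only [h1, hs, h4]
      have hl' : 2 * b1 ≤ 1619 / 1000 := by
        by_contra h4
        rw [not_le] at h4
        nlinarith only [hs', h4]
      have hr0 : -(465 / 1000) ≤ r := ult_ge S (by linarith only [hs]) (by linarith only [hs])
      have h4 : v * (-(465 / 1000)) ≤ v * r := mul_le_mul_of_nonneg_left hr0 (by linarith only [hv])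
      have hv2 : v ≤ 121 / 100 * Y := by
        by_contra h5
        rw [not_le] at h5
        have h6 : v * (2 * b1 * Y - v) ≤ v * (1619 / 1000 * Y - v) := by
          apply mul_le_mul_of_nonneg_left _ (by linarith only [hYb, h5])
          have := mul_le_mul_of_nonneg_right hl' (by linarith only [hYb] : 0 ≤ Y)
          linarith only [this]
        nlinarith only [nz, hYb, hby, e4, h5, h6]
      have h5 : 1618 / 1000 * (Y / 2 + b * y - 1) ≤ 2 * b1 * (Y / 2 + b * y - 1) :=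
        mul_le_mul_of_nonneg_right hl (by linarith only [hYb, hby])
      linarith only [hYb, hby, h4, hv2, h5]

end

end Pool.Agent.Helper78.DY
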