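import Pool.Agent.Helper78.DY.ByS
import Pool.Agent.Helper9.DY.Pencil
import Pool.Agent.Helper32.DY.Ineq

/-!
# `F` beyond `V_2`, `m_O = 2`: labels, the inequality (4), the fan (MP_d13a5e_al)
-/

set_option autoImplicit false

namespace Pool.Agent.Helper78.DY

open _root_.DY (Z1 Str sq sq_zero sq_one sq_two sq_succ Loc Xs Tri C01 pu pu_mem pu_val sq_incr sq_mono
  sq_ge_one sq_norm)
open Pool.Agent.Helper62.DY (RT rt_of_tri)
open Pool.Agent.Helper32.DY (fe fw fe_mem)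

section

variable {b : ℝ}

theorem sq3 (b : ℝ) : sq b 3 = 4 * b ^ 2 - 1 := by
  have : sq b 3 = 2 * b * sq b 2 - sq b 1 := sq_succ b 1
  rw [this, sq_two, sq_one]; ring

theorem sq4 (b : ℝ) : sq b 4 = 2 * b * (4 * b ^ 2 - 2) := by
  have : sq b 4 = 2 * b * sq b 3 - sq b 2 := sq_succ b 2
  rw [this, sq_two, sq3]; ring

theorem sq5 (b : ℝ) : sq b 5 = (4 * b ^ 2) ^ 2 - 3 * (4 * b ^ 2) + 1 := by
  have : sq b 5 = 2 * b * sq b 4 - sq b 3 := sq_succ b 3
  rw [this, sq3, sq4]; ring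

theorem sq6 (b : ℝ) : sq b 6 = 2 * b * ((4 * b ^ 2 - 1) * (4 * b ^ 2 - 3)) := by
  have : sq b 6 = 2 * b * sq b 5 - sq b 4 := sq_succ b 4
  rw [this, sq5, sq4]; ring

theorem sq7 (b : ℝ) : sq b 7 = (4 * b ^ 2) ^ 3 - 5 * (4 * b ^ 2) ^ 2 + 6 * (4 * b ^ 2) - 1 := by
  have : sq b 7 = 2 * b * sq b 6 - sq b 5 := sq_succ b 5
  rw [this, sq5, sq6]; ring

theorem sq8 (b : ℝ) : sq b 8 =
    2 * b * ((4 * b ^ 2 - 2) * ((4 * b ^ 2) ^ 2 - 4 * (4 * b ^ 2) + 2)) := by
  have : sq b 8 = 2 * b * sq b 7 - sq b 6 := sq_succ b 6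
  rw [this, sq7, sq6]; ring

/-- the possible labels -/
def Lab2 (s : ℝ) : Prop :=
  s = 1 ∨ s = 2 ∨ (2 ≤ s ∧ s ^ 2 - 3 * s + 1 = 0) ∨ s = 3 ∨
    (324697 / 100000 ≤ s ∧ s ≤ 324699 / 100000) ∨ (s ^ 2 - 4 * s + 2 = 0 ∧ 3 ≤ s) ∨ 353 / 100 ≤ s

theorem Lab2.lab {s : ℝ} (h : Lab2 s) : Lab s := by
  rcases h with rfl | rfl | ⟨h1, h2⟩ | h | h | h | h
  · exact Or.inl ⟨le_rfl, by norm_num⟩
  · exact Or.inl ⟨by norm_num, by norm_num⟩
  · exact Or.inl ⟨by linarith, by linarith⟩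
  · exact Or.inr (Or.inl h)
  · exact Or.inr (Or.inr (Or.inl h))
  · exact Or.inr (Or.inr (Or.inr (Or.inl h)))
  · exact Or.inr (Or.inr (Or.inr (Or.inr h)))

/-- the labels -/
theorem lab_of (h0 : b ≠ 0) (H : (1 ≤ b ∧ ∀ n, 1 ≤ sq b (n + 1)) ∨
    ∃ m, sq b (m + 2) = 0 ∧ sq b (m + 1) = 1 ∧ b < 1 ∧ ∀ k ≤ m, 1 ≤ sq b (k + 1)) :
    0 < b ∧ Lab2 (4 * b ^ 2) := by
  obtain ⟨s, hs⟩ : ∃ s, s = 4 * b ^ 2 := ⟨_, rfl⟩
  rcases H with ⟨h1, -⟩ | ⟨m, h1, h2, h3, h4⟩
  · refine ⟨by linarith, ?_⟩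
    repeat' right
    nlinarith
  · have hb : m ≠ 0 := by
      rintro rfl
      rw [zero_add, sq_two] at h1
      apply h0
      linarith
    have b0 : 1 ≤ 2 * b := by
      have := h4 1 (by omega)
      rw [sq_two] at this
      exact this
    have bp : 0 < b := by linarith
    refine ⟨bp, ?_⟩
    rw [← hs]
    have h35 : 5 ≤ m → 3 < s := by
      intro hm
      have h5 := h4 5 (by omega)
      rw [sq6, ← hs] at h5
      have h5' := h4 2 (by omega)
      rw [sq3, ← hs] at h5'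
      by_contra h7
      rw [not_lt] at h7
      have : 2 * b * ((s - 1) * (s - 3)) ≤ 0 := by
        apply mul_nonpos_of_nonneg_of_nonpos (by linarith)
        exact mul_nonpos_of_nonneg_of_nonpos (by linarith) (by linarith)
      linarith
    rcases Nat.lt_or_ge m 7 with hm | hm
    · interval_cases m
      · exact absurd rfl hb
      · rw [sq3, ← hs] at h1
        exact Or.inl (by linarith)
      · rw [sq4, ← hs] at h1
        refine Or.inr (Or.inl ?_)
        rcases mul_eq_zero.1 h1 with h5 | h5 <;> linarith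
      · have h5 := h4 2 (by omega)
        rw [sq3, ← hs] at h5
        rw [sq5, ← hs] at h1
        exact Or.inr (Or.inr (Or.inl ⟨by linarith, by linarith⟩))
      · have h5 := h4 2 (by omega)
        rw [sq3, ← hs] at h5
        rw [sq6, ← hs] at h1
        rcases mul_eq_zero.1 h1 with h6 | h6
        · linarith
        · rcases mul_eq_zero.1 h6 with h7 | h7
          · linarith
          · exact Or.inr (Or.inr (Or.inr (Or.inl (by linarith))))
      · have h6 := h35 le_rfl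
        rw [sq7, ← hs] at h1
        refine Or.inr (Or.inr (Or.inr (Or.inr (Or.inl ⟨?_, ?_⟩))))
        · by_contra h7
          rw [not_le] at h7
          nlinarith [mul_nonneg (sub_nonneg.2 h6.le) (sub_nonneg.2 h7.le)]
        · by_contra h7
          rw [not_le] at h7
          have h8 : s < 4 := by nlinarith
          nlinarith [mul_nonneg (sub_nonneg.2 h7.le) (sub_nonneg.2 h8.le)]
      · have h6 := h35 (by norm_num)
        rw [sq8, ← hs] at h1
        rcases mul_eq_zero.1 h1 with h7 | h7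
        · linarith
        · rcases mul_eq_zero.1 h7 with h8 | h8
          · linarith
          · exact Or.inr (Or.inr (Or.inr (Or.inr (Or.inr (Or.inl ⟨h8, h6.le⟩)))))
    · have h6 := h35 (by omega)
      have h7 := h4 7 (by omega)
      rw [sq8, ← hs] at h7
      refine Or.inr (Or.inr (Or.inr (Or.inr (Or.inr (Or.inr ?_)))))
      by_contra h8
      rw [not_le] at h8
      have b1 : 2 * b < 188 / 100 := by
        by_contra h9
        rw [not_lt] at h9
        nlinarith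
      have h9 : (s - 2) * (s ^ 2 - 4 * s + 2) ≤ 153 / 100 * (341 / 1000) := by
        rcases le_or_gt (s ^ 2 - 4 * s + 2) 0 with h10 | h10
        · have := mul_nonpos_of_nonneg_of_nonpos (by linarith : 0 ≤ s - 2) h10
          linarith
        · exact mul_le_mul (by linarith) (by nlinarith) h10.le (by norm_num)
      have h10 : 2 * b * ((s - 2) * (s ^ 2 - 4 * s + 2)) ≤ 2 * b * (153 / 100 * (341 / 1000)) :=
        mul_le_mul_of_nonneg_left h9 (by linarith)
      linarith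

end

section

variable {E : Type*} [AddCommGroup E] [Module ℝ E] {Ψ : Set E} {B : E →ₗ[ℝ] E →ₗ[ℝ] ℝ}
  {ρ φ : E →ₗ[ℝ] ℝ} {t d1 d2 x x' : E}

/-- **(4)**: `u` a root of the plane of `t`, `d2` with `y = B x u ≥ 1`; then
`ρ x ≥ (y + √(y^2-1)) ρ u` -/
theorem four (L : Loc Ψ B ρ φ t d1 d2 x x') {g v x2 a0 b y β : ℝ}
    (ex : x = g • t + v • d1 + x2 • d2) (hv : 0 < v) (hu : a0 • t + b • d2 ∈ Ψ)
    (hy : B x (a0 • t + b • d2) = y) (h1 : 1 ≤ y) (hβ : 0 < β)
    (hu2 : β ≤ ρ (a0 • t + b • d2)) (hx1 : ρ x ≤ 1) : 2 * y * β < 1 + β ^ 2 := by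
  have hR := rt_of_tri L.tri
  obtain ⟨w, hw⟩ : ∃ w : ℕ → E, w = fun n => pu y x (-(a0 • t + b • d2)) (n + 1) := ⟨_, rfl⟩
  have hmem : ∀ n, w n ∈ Ψ := by
    intro n
    rw [hw]
    exact (pu_mem L.tri.sys L.xm (L.tri.neg _ hu) (by rw [map_neg, hy]) (n + 1)).1
  have hcoord : ∀ n, w n = (sq y (n + 1) * g - sq y (n + 2) * a0) • t + (sq y (n + 1) * v) • d1 +
      (sq y (n + 1) * x2 - sq y (n + 2) * b) • d2 := by
    intro n
    rw [hw]
    show sq y (n + 1) • x + sq y (n + 1 + 1) • (-(a0 • t + b • d2)) = _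
    have e : n + 1 + 1 = n + 2 := rfl
    rw [e, ex]
    module
  have hpos : ∀ n, w n ∈ C01 t d1 d2 := by
    intro n
    have h2 := hmem n
    rw [hcoord n] at h2
    have h3 : 0 < sq y (n + 1) * v := mul_pos (by linarith [sq_ge_one h1 n]) hv
    rcases hR.z _ _ _ h2 with ⟨z0, z1, z2⟩ | ⟨-, z1, -⟩
    · rw [hcoord n]
      exact ⟨_, _, _, rfl, z0, z1, z2⟩
    · have := z1n z1
      linarith
  have hinj : Function.Injective w := by
    intro m n hmn
    rw [hcoord m, hcoord n] at hmn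
    obtain ⟨-, h2, -⟩ := L.tri.coordW hmn
    have h3 : sq y (m + 1) = sq y (n + 1) := mul_right_cancel₀ hv.ne' h2
    have hst : StrictMono (sq y) := strictMono_nat_of_lt_succ fun n => by linarith [(sq_incr h1 n).2]
    have := hst.injective h3
    omega
  obtain ⟨n, hn⟩ : ∃ n, 0 < ρ (w n) := by
    by_contra hcon
    push Not at hcon
    refine (Set.infinite_range_of_injective hinj) (L.adm.neg.subset ?_)
    rintro _ ⟨k, rfl⟩
    exact ⟨hmem k, hpos k, hcon k⟩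
  rw [hw] at hn
  simp only [] at hn
  rw [pu_val, map_neg] at hn
  have e : n + 1 + 1 = n + 2 := rfl
  rw [e] at hn
  have s1 := sq_ge_one h1 n
  have s2 := (sq_incr h1 (n + 1)).2
  rw [e] at s2
  have nrm := sq_norm y (n + 1)
  rw [e] at nrm
  set s := sq y (n + 1)
  set s' := sq y (n + 2)
  have h2 : s * ρ x ≤ s * 1 := mul_le_mul_of_nonneg_left hx1 (by linarith)
  have h3 : s' * β ≤ s' * ρ (a0 • t + b • d2) := mul_le_mul_of_nonneg_left hu2 (by linarith)
  have h4 : β * s' - s < 0 := by linarith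
  have h5 : 0 < s' - β * s := by nlinarith
  have h6 : (β * s' - s) * (s' - β * s) < 0 := mul_neg_of_neg_of_pos h4 h5
  have h7 : s * s' * (2 * y * β) < s * s' * (1 + β ^ 2) := by nlinarith
  exact lt_of_mul_lt_mul_left h7 (by nlinarith)

end

/-- the values of `B x` on the fan -/
theorem fan_diff (b1 b v x2 g : ℝ) (k : ℕ) :
    fe b1 b 0 v x2 g k - fe b1 b 0 v x2 g (k + 2) =
      2 * (sq b (k + 1) * (x2 - b * g) + sq b k * (g - b1 * v - b * x2)) ∧
    fe b1 b 0 v x2 g (k + 1) - fe b1 b 0 v x2 g (k + 3) =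
      2 * (sq b (k + 2) * (x2 - b * g) + sq b (k + 1) * (g - b1 * v - b * x2)) := by
  induction k with
  | zero =>
    have e2 : fe b1 b 0 v x2 g 2 = 2 * b * g + fw b1 0 1 * v - x2 := rfl
    have e3 : fe b1 b 0 v x2 g 3 = 2 * b * fe b1 b 0 v x2 g 2 + fw b1 0 2 * v - g := rfl
    have f1 : fw b1 0 1 = 2 * 0 := rfl
    have f2 : fw b1 0 2 = 2 * b1 := rfl
    have e0 : fe b1 b 0 v x2 g 0 = x2 := rfl
    have e1 : fe b1 b 0 v x2 g 1 = g := rfl
    simp only [zero_add]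
    rw [e3, e2, f1, f2, e0, e1, sq_zero, sq_one, sq_two]
    constructor <;> ring
  | succ k ih =>
    refine ⟨ih.2, ?_⟩
    have i1 : k + 1 + 1 = k + 2 := rfl
    have i2 : k + 1 + 3 = k + 4 := rfl
    have i3 : k + 1 + 2 = k + 3 := rfl
    rw [i1, i2, i3]
    have e2 : fe b1 b 0 v x2 g (k + 2) = 2 * b * fe b1 b 0 v x2 g (k + 1) + fw b1 0 (k + 1) * v -
      fe b1 b 0 v x2 g k := rfl
    have e4 : fe b1 b 0 v x2 g (k + 4) = 2 * b * fe b1 b 0 v x2 g (k + 3) + fw b1 0 (k + 3) * v -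
      fe b1 b 0 v x2 g (k + 2) := rfl
    have ef : fw b1 0 (k + 3) = fw b1 0 (k + 1) := Pool.Agent.Helper32.DY.fw_two b1 0 (k + 1)
    have q1 : sq b (k + 3) = 2 * b * sq b (k + 2) - sq b (k + 1) := sq_succ b (k + 1)
    have q2 : sq b (k + 2) = 2 * b * sq b (k + 1) - sq b k := sq_succ b k
    obtain ⟨ih1, ih2⟩ := ih
    rw [e4, ef, q1]
    rw [q2] at ih2 ⊢
    linear_combination (2 * b) * ih2 - ih1 + e2

end Pool.Agent.Helper78.DY
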