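import Mathlib

/-!
# Real inequalities for `F` beyond `V_2`, label `3` at `V_2`, `m_O = 2` (MP_d13a5e_al)

`s = (2 b1)^2`, `k = 1 - B(x,t)`, `T = 2 B(x,u) - 1`, `E + 1 = g - x2`, `L = 2 b1 x1 = 4 k + T + 3 E`.
-/

set_option autoImplicit false

namespace Pool.Agent.Helper78.DY

/-- the norm equation -/
def Nm (s k T E : ℝ) : Prop :=
  4 * (4 - s) * k ^ 2 + 2 * (4 - s) * T * k + T ^ 2 - 2 * s * k = (s - 3) * E * (8 * k + 2 * T + 3 * E)

/-- `s ≥ 4` is impossible -/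
theorem s_lt {s k T E : ℝ} (hN : Nm s k T E) (hk : 1 ≤ k) (hT0 : 0 < T) (hT : T ≤ 3 / 2) (hE : 0 ≤ E) :
    s < 4 := by
  unfold Nm at hN
  by_contra h
  rw [not_lt] at h
  have h1 : 0 ≤ (s - 4) * (4 * k ^ 2 + 2 * T * k) := mul_nonneg (by linarith only [h]) (by positivity)
  have h2 : 0 ≤ (s - 3) * E * (8 * k + 2 * T + 3 * E) := by
    apply mul_nonneg (mul_nonneg (by linarith only [h]) hE) (by positivity)
  nlinarith only [hN, hk, hT0, hT, h, h1, h2]

/-- `φ w ≥ 0`, `m1 ≥ 9` -/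
theorem g_nine {s k T E : ℝ} (hN : Nm s k T E) (hk : 1 ≤ k) (hT0 : 0 < T) (hT : T ≤ 3 / 2) (hE : 0 ≤ E)
    (hs : 353 / 100 ≤ s) (hs4 : s < 4)
    (hG : s * k * (1 + E) ≤ (s - 2) * T * k + (s - 1) / 2 * T ^ 2 + (s - 3) * T * E / 2) : False := by
  unfold Nm at hN
  have h2 : 0 ≤ (s - 3) * E * (8 * k + 2 * T + 3 * E) := by
    apply mul_nonneg (mul_nonneg (by linarith only [hs]) hE) (by positivity)
  have hT2 : T ^ 2 ≤ 9 / 4 := by nlinarith only [hT0, hT]
  have hTk : T * k ≤ 3 / 2 * k := mul_le_mul_of_nonneg_right hT (by linarith only [hk])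
  -- upper bound of k
  have h3 : k * (3 - s / 2) ≤ 9 / 8 * (s - 1) := by
    have h4 : (s - 2) * T * k ≤ (s - 2) * (3 / 2 * k) := by
      have := mul_le_mul_of_nonneg_left hTk (by linarith only [hs] : (0:ℝ) ≤ s - 2)
      linarith only [this]
    have h5 : (s - 1) / 2 * T ^ 2 ≤ (s - 1) / 2 * (9 / 4) := mul_le_mul_of_nonneg_left hT2 (by linarith only [hs])
    have h6 : 0 ≤ E * (s * k - (s - 3) * T / 2) := by
      apply mul_nonneg hE
      nlinarith only [hk, hT, hs]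
    nlinarith only [hG, h4, h5, h6]
  have h7 : 4 * (4 - s) * k ^ 2 + 3 * (4 - s) * k + 9 / 4 - 2 * s * k ≥ 0 := by
    have := mul_le_mul_of_nonneg_left hTk (by linarith only [hs4] : (0:ℝ) ≤ 2 * (4 - s))
    nlinarith only [hN, hs4, h2, hT2, hTk]
  have h8 : k ≤ 7 / 2 := by
    by_contra h9
    rw [not_le] at h9
    nlinarith only [h3, h7, h9]
  nlinarith only [hk, hs, h3, h7]


/-- `φ w ≥ 0`, `m1 = 8` -/
theorem g_eight {s l k T E : ℝ} (hN : Nm s k T E) (hk : 1 ≤ k) (hT0 : 0 < T) (hT : T ≤ 3 / 2) (hE : 0 ≤ E)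
    (hs : s ^ 2 - 4 * s + 2 = 0) (hs3 : 3 ≤ s) (hl : l ^ 2 = s) (hl0 : 0 ≤ l)
    (hf : l ≤ s + (2 * s - 1) * E - (s - 1) * T)
    (hG : s * k * (1 + E) ≤ (s - 2) * T * k + (s - 1) / 2 * T ^ 2 + (s - 3) * T * E / 2) : False := by
  unfold Nm at hN
  have s1 : 34142 / 10000 ≤ s := by
    by_contra h
    rw [not_le] at h
    nlinarith only [hs, hs3, h]
  have s2 : s ≤ 34143 / 10000 := by
    by_contra h
    rw [not_le] at h
    nlinarith only [hs, h]
  have l1 : 18477 / 10000 ≤ l := by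
    by_contra h
    rw [not_le] at h
    nlinarith only [hl, hl0, s1, h]
  have hf' : 414 / 1000 * T - 269 / 1000 ≤ E := by
    have h1 : (2 * s - 1) * E ≤ (2 * (34143 / 10000) - 1) * E := mul_le_mul_of_nonneg_right (by linarith only [s2]) hE
    have h2 : (34142 / 10000 - 1) * T ≤ (s - 1) * T := mul_le_mul_of_nonneg_right (by linarith only [s1]) hT0.le
    linarith
  -- the inequality `G` with numbers
  have g1 : 34142 / 10000 * k * (1 + E) ≤ 14143 / 10000 * T * k + 12072 / 10000 * T ^ 2 + 20715 / 100000 * T * E := by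
    have h1 : 34142 / 10000 * (k * (1 + E)) ≤ s * (k * (1 + E)) :=
      mul_le_mul_of_nonneg_right s1 (by positivity)
    have h2 : (s - 2) * (T * k) ≤ 14143 / 10000 * (T * k) :=
      mul_le_mul_of_nonneg_right (by linarith only [s2]) (by positivity)
    have h3 : (s - 1) / 2 * T ^ 2 ≤ 12072 / 10000 * T ^ 2 :=
      mul_le_mul_of_nonneg_right (by linarith only [s2]) (by positivity)
    have h4 : (s - 3) / 2 * (T * E) ≤ 20715 / 100000 * (T * E) :=
      mul_le_mul_of_nonneg_right (by linarith only [s2]) (by positivity)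
    nlinarith only [hG, h1, h2, h3, h4]
  have n1 : 5858 / 10000 * (4 * k ^ 2 + 2 * T * k) + T ^ 2 - 2 * (34142 / 10000) * k ≥ 0 := by
    have h2 : 0 ≤ (s - 3) * E * (8 * k + 2 * T + 3 * E) := by
      apply mul_nonneg (mul_nonneg (by linarith only [s1]) hE) (by positivity)
    have h3 : (4 - s) * (4 * k ^ 2 + 2 * T * k) ≤ 5858 / 10000 * (4 * k ^ 2 + 2 * T * k) :=
      mul_le_mul_of_nonneg_right (by linarith only [s1]) (by positivity)
    nlinarith
  -- `k` is large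
  have n2 : 3 / 2 ≤ k := by
    by_contra h
    rw [not_le] at h
    nlinarith only [hT0, hT, n1, h, mul_nonneg (sub_nonneg.2 hk) (sub_nonneg.2 h.le)]
  nlinarith only [hT0, hT, hf', g1, n2]

/-- `φ w ≥ 0`, `m1 = 7` -/
theorem g_seven {s k T E : ℝ} (hN : Nm s k T E) (hk : 1 ≤ k) (hT0 : 0 < T) (hT : T ≤ 3 / 2) (hE : 0 ≤ E)
    (s1 : 3246 / 1000 ≤ s) (s2 : s ≤ 3248 / 1000) (hM : T ≤ 2 * (s - 2) * E + 2 * (s - 3) * k)
    (hG : s * k * (1 + E) ≤ (s - 2) * T * k + (s - 1) / 2 * T ^ 2 + (s - 3) * T * E / 2) : False := by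
  have hM' : T ≤ 2496 / 1000 * E + 496 / 1000 * k := by
    have h1 : 2 * (s - 2) * E ≤ 2496 / 1000 * E := mul_le_mul_of_nonneg_right (by linarith only [s2]) hE
    have h2 : 2 * (s - 3) * k ≤ 496 / 1000 * k := mul_le_mul_of_nonneg_right (by linarith only [s2]) (by linarith only [hk])
    linarith only [hM, h1, h2]
  have g1 : 3246 / 1000 * k * (1 + E) ≤ 1248 / 1000 * T * k + 1124 / 1000 * T ^ 2 + 124 / 1000 * T * E := by
    have h1 : 3246 / 1000 * (k * (1 + E)) ≤ s * (k * (1 + E)) :=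
      mul_le_mul_of_nonneg_right s1 (by positivity)
    have h2 : (s - 2) * (T * k) ≤ 1248 / 1000 * (T * k) :=
      mul_le_mul_of_nonneg_right (by linarith only [s2]) (by positivity)
    have h3 : (s - 1) / 2 * T ^ 2 ≤ 1124 / 1000 * T ^ 2 :=
      mul_le_mul_of_nonneg_right (by linarith only [s2]) (by positivity)
    have h4 : (s - 3) / 2 * (T * E) ≤ 124 / 1000 * (T * E) :=
      mul_le_mul_of_nonneg_right (by linarith only [s2]) (by positivity)
    nlinarith only [hG, h1, h2, h3, h4]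
  have hTk : T * k ≤ 3 / 2 * k := mul_le_mul_of_nonneg_right hT (by linarith only [hk])
  have hTE : T * E ≤ 3 / 2 * E := mul_le_mul_of_nonneg_right hT hE
  have hkE : E ≤ k * E := by nlinarith only [hk, hE]
  rcases le_total E (2 / 5) with h | h
  · have hT2 : T ^ 2 ≤ 3 / 2 * T := by nlinarith only [hT0, hT]
    nlinarith only [hT0, hM', g1, hTk, hkE, h]
  · have hT2 : T ^ 2 ≤ 9 / 4 := by nlinarith only [hT0, hT]
    nlinarith only [g1, hTk, hTE, hkE, h, hT2]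

/-- `φ w < 0`, `m1 ≥ 8`: the index of `w` is at most two -/
theorem e_eight {s k T E : ℝ} (hN : Nm s k T E) (hk : 1 ≤ k) (hT0 : 0 < T) (hT : T ≤ 3 / 2) (hE : 0 ≤ E)
    (hs : 0 ≤ s ^ 2 - 4 * s + 2) (hs3 : 3 ≤ s) (hs4 : s < 4) :
    s ^ 2 * (s - 2) * (1 + E) ≤ (s - 1) * (4 * k + T + 3 * E) := by
  unfold Nm at hN
  have s1 : 34142 / 10000 ≤ s := by
    by_contra h
    rw [not_le] at h
    nlinarith only [hs, hs3, h]
  have h2 : 0 ≤ (s - 3) * E * (2 * T + 3 * E) := by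
    apply mul_nonneg (mul_nonneg (by linarith only [s1]) hE) (by positivity)
  have n1 : 5858 / 10000 * (4 * k ^ 2 + 2 * T * k) + T ^ 2 - 2 * (34142 / 10000) * k ≥ 0 := by
    have h3 : (4 - s) * (4 * k ^ 2 + 2 * T * k) ≤ 5858 / 10000 * (4 * k ^ 2 + 2 * T * k) :=
      mul_le_mul_of_nonneg_right (by linarith only [s1]) (by positivity)
    have h4 : 0 ≤ (s - 3) * E * (8 * k) := by
      apply mul_nonneg (mul_nonneg (by linarith only [s1]) hE) (by positivity)
    nlinarith only [hN, hT0, h2, h3, h4]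
  have n2 : 3 / 2 ≤ k := by
    by_contra h
    rw [not_le] at h
    nlinarith only [hT0, hT, n1, h, mul_nonneg (sub_nonneg.2 hk) (sub_nonneg.2 h.le)]
  -- `(4 - s) L ≥ 4 (1 + E)`
  have h5 : k * (4 * (1 + E)) ≤ k * ((4 - s) * (4 * k + T + 3 * E)) := by
    have h6 : T ^ 2 ≤ 3 / 2 * k := by nlinarith only [hT0, hT, n2]
    have h7 : (4 - s) * T ≤ 5858 / 10000 * (3 / 2) := by nlinarith only [hT0, hT, hs, hs3]
    have h8 : (4 - s) * T * k ≤ 5858 / 10000 * (3 / 2) * k := mul_le_mul_of_nonneg_right h7 (by linarith only [n2])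
    have h9 : 0 ≤ (5 * s - 16) * (k * E) := mul_nonneg (by linarith only [s1]) (by positivity)
    nlinarith only [hN, s1, h2, h6, h8, h9]
  have h6 : 4 * (1 + E) ≤ (4 - s) * (4 * k + T + 3 * E) := le_of_mul_le_mul_left h5 (by linarith only [n2])
  have h7 : s ^ 2 * (s - 2) * (4 - s) ≤ 4 * (s - 1) := by
    have h8 : 0 ≤ (s ^ 2 - 4 * s + 2) * (s ^ 2 - 2 * s - 2) := mul_nonneg hs (by nlinarith only [s1])
    nlinarith only [h8]
  have h8 : (4 - s) * (s ^ 2 * (s - 2) * (1 + E)) ≤ (4 - s) * ((s - 1) * (4 * k + T + 3 * E)) := by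
    have h9 := mul_le_mul_of_nonneg_right h7 (by linarith only [hE] : 0 ≤ 1 + E)
    have h10 := mul_le_mul_of_nonneg_left h6 (by linarith only [s1] : 0 ≤ s - 1)
    nlinarith only [h9, h10]
  exact le_of_mul_le_mul_left h8 (by linarith only [hs4])

/-- the norm inequality with numbers, `m1 = 7` -/
theorem nm_seven {s k T E : ℝ} (hN : Nm s k T E) (hk : 1 ≤ k) (hT0 : 0 < T) (hE : 0 ≤ E)
    (s1 : 324697 / 100000 ≤ s) (s2 : s ≤ 324699 / 100000) :
    301212 / 100000 * k ^ 2 + 150606 / 100000 * (T * k) + T ^ 2 - 649394 / 100000 * k -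
      24697 / 100000 * (8 * (E * k) + 2 * (T * E) + 3 * E ^ 2) ≥ 0 := by
  unfold Nm at hN
  have h1 : (4 - s) * (4 * k ^ 2 + 2 * T * k) ≤ 75303 / 100000 * (4 * k ^ 2 + 2 * T * k) :=
    mul_le_mul_of_nonneg_right (by linarith only [s1]) (by positivity)
  have h2 : 24697 / 100000 * (E * (8 * k + 2 * T + 3 * E)) ≤ (s - 3) * (E * (8 * k + 2 * T + 3 * E)) :=
    mul_le_mul_of_nonneg_right (by linarith only [s1]) (by positivity)
  have h3 : 324697 / 100000 * k ≤ s * k := mul_le_mul_of_nonneg_right s1 (by linarith only [hk])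
  nlinarith only [hN, h1, h2, h3]

/-- `φ w < 0`, `m1 = 7`, `T ≤ 1` -/
theorem e_seven_a {s k T E : ℝ} (hN : Nm s k T E) (hk : 1 ≤ k) (hT0 : 0 < T) (hT : T ≤ 1) (hE : 0 ≤ E)
    (s1 : 324697 / 100000 ≤ s) (s2 : s ≤ 324699 / 100000) :
    s ^ 2 * (s - 2) * (1 + E) ≤ (s - 1) * (4 * k + T + 3 * E) := by
  have hn := nm_seven hN hk hT0 hE s1 s2
  have h1 : 5853 / 1000 * (1 + E) ≤ 4 * k + T + 3 * E := by
    by_contra h
    rw [not_le] at h
    have c1 := mul_nonneg (sub_nonneg.2 hk) (sub_nonneg.2 h.le)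
    have c2 := mul_nonneg hE (sub_nonneg.2 h.le)
    have c3 := mul_nonneg hT0.le (sub_nonneg.2 h.le)
    have c4 := mul_nonneg hT0.le (sub_nonneg.2 hT)
    have c5 := mul_nonneg hE hE
    nlinarith only [hn, h, c1, c2, c3, c4]
  have h2 : s ^ 2 * (s - 2) ≤ 5853 / 1000 * (s - 1) := by nlinarith only [s1, s2]
  have h3 := mul_le_mul_of_nonneg_right h2 (by linarith only [hE] : 0 ≤ 1 + E)
  have h4 := mul_le_mul_of_nonneg_left h1 (by linarith only [s1] : 0 ≤ s - 1)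
  linarith only [h3, h4]

/-- `φ w < 0`, `m1 = 7`, `T > 1` -/
theorem e_seven_b {s l k T E : ℝ} (hN : Nm s k T E) (hk : 1 ≤ k) (hT0 : 1 < T) (hT : T ≤ 3 / 2)
    (hE : 0 ≤ E) (s1 : 324697 / 100000 ≤ s) (s2 : s ≤ 324699 / 100000) (hl : l ^ 2 = s) (hl0 : 0 ≤ l)
    (hf : l ≤ s + (2 * s ^ 2 - 6 * s + 3) * E + 2 * (s ^ 2 - 4 * s + 2) * k - (s - 1) * T) :
    s ^ 2 * (s - 2) * (1 + E) ≤ (s - 1) * (4 * k + T + 3 * E) := by
  have hn := nm_seven hN hk (by linarith only [hT0]) hE s1 s2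
  have l1 : 180193 / 100000 ≤ l := by
    by_contra h
    rw [not_le] at h
    nlinarith only [s1, hl, hl0, h]
  have hf' : 0 ≤ 14451 / 10000 + 4604 / 1000 * E - 89 / 100 * k - 224697 / 100000 * T := by
    have h1 : (2 * s ^ 2 - 6 * s + 3) * E ≤ 4604 / 1000 * E :=
      mul_le_mul_of_nonneg_right (by nlinarith only [s2, hl]) hE
    have h2 : 2 * (s ^ 2 - 4 * s + 2) * k ≤ -(89 / 100) * k :=
      mul_le_mul_of_nonneg_right (by nlinarith only [s1, s2]) (by linarith only [hk])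
    have h3 : 224697 / 100000 * T ≤ (s - 1) * T := mul_le_mul_of_nonneg_right (by linarith only [s1]) (by linarith only [hT0])
    linarith only [s2, hf, l1, h1, h2, h3]
  have h1 : 5853 / 1000 * (1 + E) ≤ 4 * k + T + 3 * E := by
    by_contra h
    rw [not_le] at h
    have c1 := mul_nonneg (sub_nonneg.2 hk) (sub_nonneg.2 h.le)
    have c2 := mul_nonneg hE (sub_nonneg.2 h.le)
    have c3 := mul_nonneg (sub_nonneg.2 hT0.le) (sub_nonneg.2 h.le)
    have c4 := mul_nonneg (sub_nonneg.2 hT0.le) (sub_nonneg.2 hT)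
    have c5 := mul_nonneg hE hf'
    have c6 := mul_nonneg (sub_nonneg.2 hT0.le) hf'
    nlinarith only [hn, h, c1, c2, c3, c4, c6]
  have h2 : s ^ 2 * (s - 2) ≤ 5853 / 1000 * (s - 1) := by nlinarith only [s1, s2]
  have h3 := mul_le_mul_of_nonneg_right h2 (by linarith only [hE] : 0 ≤ 1 + E)
  have h4 := mul_le_mul_of_nonneg_left h1 (by linarith only [s1] : 0 ≤ s - 1)
  linarith only [h3, h4]

end Pool.Agent.Helper78.DY
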