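import Pool.Agent.Helper78.DY.ByA

/-!
# `F` beyond `V_2`, labels `(6, 3)`, `m_O = 2` (MP_d13a5e_al)
-/

set_option autoImplicit false

namespace Pool.Agent.Helper78.DY

open _root_.DY (Z1 Str sq sq_zero sq_one sq_two sq_succ)
open Pool.Agent.Helper62.DY (RT)

theorem sq_c1 (k : ℕ) : sq 1 k = k ∧ sq 1 (k + 1) = k + 1 := by
  induction k with
  | zero => simp
  | succ k ih =>
    refine ⟨by rw [ih.2]; push_cast; ring, ?_⟩
    have : sq 1 (k + 1 + 1) = 2 * 1 * sq 1 (k + 1) - sq 1 k := sq_succ 1 k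
    rw [this, ih.1, ih.2]
    push_cast
    ring

/-- a pencil with `c = 1` -/
theorem str_c1 {f r : ℝ} (S : Str 1 f r) (hf : f < 0) {N : ℕ} (hN : 0 < ((N : ℝ) + 1) * f + N) :
    2 < ((N : ℝ) + 1) * (1 + r) := by
  classical
  have hex : ∃ k : ℕ, 0 < ((k : ℝ) + 1) * f + k := ⟨N, hN⟩
  obtain ⟨k, hk, hmin⟩ : ∃ k : ℕ, 0 < ((k : ℝ) + 1) * f + k ∧
      ∀ i < k, ((i : ℝ) + 1) * f + i ≤ 0 :=
    ⟨Nat.find hex, Nat.find_spec hex, fun i hi => not_lt.1 (Nat.find_min hex hi)⟩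
  have hkN : k ≤ N := by
    by_contra h
    rw [not_le] at h
    linarith only [hN, hmin N h]
  have h1 := S.nk hf k (fun i _ => by rw [(sq_c1 i).2]; positivity)
    (fun i hi => by rw [(sq_c1 i).2, (sq_c1 i).1]; exact hmin i hi)
    (by rw [(sq_c1 k).2, (sq_c1 k).1]; exact hk)
  rw [(sq_c1 k).2, (sq_c1 k).1] at h1
  have h2 : 2 < ((k : ℝ) + 1) * (1 + r) := by linarith only [h1]
  have h3 : 0 < 1 + r := by
    have : 0 < ((k : ℝ) + 1) * (1 + r) := by linarith only [h2]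
    exact (mul_pos_iff_of_pos_left (by positivity)).1 this
  have h4 : ((k : ℝ) + 1) * (1 + r) ≤ ((N : ℝ) + 1) * (1 + r) := by
    apply mul_le_mul_of_nonneg_right _ h3.le
    have : (k : ℝ) ≤ N := by exact_mod_cast hkN
    linarith only [this]
  linarith only [h2, h4]

/-- a root of the dihedral system with label `6` and coordinate in `(1, 2)` -/
theorem g2_root {b1 : ℝ} {R : ℝ → ℝ → ℝ → Prop} (h : RT b1 (1 / 2) 0 R) (hl : (2 * b1) ^ 2 = 3)
    (hb : 0 < b1) {M f : ℝ} (hR : R M f 0) (h1 : 1 < M) (h2 : M < 2) : M ^ 2 = 3 := by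
  have M0 : 0 < M := by linarith only [h1]
  have n1 := h.n _ _ _ hR
  have zf := (pos1 h hR M0).2.1
  have r1 : R M (2 * b1 * M - f) 0 := by
    have := h.r1 _ _ _ hR
    have e : 2 * b1 * M + 2 * 0 * 0 - f = 2 * b1 * M - f := by ring
    rwa [e] at this
  have zf' := (pos1 h r1 M0).2.1
  have l0 : 0 < 2 * b1 := by linarith
  -- both `f` and `f'` are at least one
  have f1 : 1 ≤ f := by
    rcases zf with h3 | h3
    · exfalso
      rw [h3] at n1
      nlinarith only [h1, n1]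
    · exact h3
  have f1' : 1 ≤ 2 * b1 * M - f := by
    rcases zf' with h3 | h3
    · exfalso
      have : f = 2 * b1 * M := by linarith only [h3]
      rw [this] at n1
      nlinarith only [h1, n1]
    · exact h3
  have r0 : R (2 * b1 * f - M) f 0 := by
    have := h.r0 _ _ _ hR
    have e : 2 * b1 * f + 2 * (1 / 2) * 0 - M = 2 * b1 * f - M := by ring
    rwa [e] at this
  have r0' : R (2 * b1 * (2 * b1 * M - f) - M) (2 * b1 * M - f) 0 := by
    have := h.r0 _ _ _ r1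
    have e : 2 * b1 * (2 * b1 * M - f) + 2 * (1 / 2) * 0 - M = 2 * b1 * (2 * b1 * M - f) - M := by ring
    rwa [e] at this
  have pos2 : ∀ {x y z : ℝ}, R x y z → 0 < y → Z1 x := by
    intro x y z hx hy
    rcases h.z _ _ _ hx with ⟨h3, -, -⟩ | ⟨-, h3, -⟩
    · exact h3
    · have := z1n h3
      linarith only [hy, this]
  have zM := pos2 r0 (by linarith only [f1])
  have zM' := pos2 r0' (by linarith only [f1'])
  have nf : f ^ 2 + (2 * b1 * M - f) ^ 2 + (2 * b1) ^ 2 * 0 = f ^ 2 + (2 * b1 * M - f) ^ 2 := by ring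
  rcases zM with h3 | h3
  · -- `M = l f`, `f = 1`
    have e1 : M = 2 * b1 * f := by linarith only [h3]
    have e2 : f ^ 2 = 1 := by
      rw [e1] at n1
      nlinarith only [n1]
    rw [e1, mul_pow, hl, e2]
    norm_num
  · rcases zM' with h4 | h4
    · have e1 : M = 2 * b1 * (2 * b1 * M - f) := by linarith only [h4]
      have n2 := h.n _ _ _ r1
      have e2 : (2 * b1 * M - f) ^ 2 = 1 := by
        set f' := 2 * b1 * M - f with hf'
        have e3 : M ^ 2 + f' ^ 2 - 2 * b1 * M * f' = 1 := by linarith only [n2]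
        rw [e1] at e3
        have e4 : (2 * b1 * f') ^ 2 = 3 * f' ^ 2 := by rw [mul_pow, hl]
        nlinarith only [e3]
      rw [e1, mul_pow, hl, e2]
      norm_num
    · exfalso
      have e1 : (2 * b1 * f - M) + (2 * b1 * (2 * b1 * M - f) - M) = M := by
        linear_combination M * hl
      linarith only [h2, h3, h4, e1]

theorem ceil63 {L D : ℝ} (L0 : 0 < L) (D0 : 0 < D) :
    ∃ N : ℕ, L ≤ ((N : ℝ) + 1) * D ∧ ((N : ℝ) + 1) * D < L + D := by
  have h6 := Nat.le_ceil (L / D)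
  have h7 := Nat.ceil_lt_add_one (le_of_lt (div_pos L0 D0))
  have h8 : 1 ≤ ⌈L / D⌉₊ := Nat.one_le_iff_ne_zero.2 (by
    have := Nat.ceil_pos.2 (div_pos L0 D0)
    omega)
  have e1 : ((⌈L / D⌉₊ - 1 : ℕ) : ℝ) + 1 = (⌈L / D⌉₊ : ℝ) := by
    rw [Nat.cast_sub h8]; push_cast; ring
  refine ⟨⌈L / D⌉₊ - 1, ?_, ?_⟩
  · rw [e1]
    exact (div_le_iff₀ D0).1 h6
  · rw [e1]
    have h9 : (⌈L / D⌉₊ : ℝ) * D < (L / D + 1) * D := mul_lt_mul_of_pos_right h7 D0
    have e2 : (L / D + 1) * D = L + D := by field_simp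
    linarith only [h9, e2]

theorem real63 {k T L : ℝ} (k1 : 1 ≤ k) (T0 : 0 < T) (hk2 : k ≤ 3 / 2) (hT1 : T ≤ 733 / 1000)
    (hN : T ^ 2 + 2 * T * k + 4 * k ^ 2 - 6 * k = 0) (hL : 6 * k + 6 * T + 1732 / 1000 ≤ L) :
    3 * k * (L + (4 * k - 3 + T)) ≤ 2 * L * (4 * k - 3 + T) := by
  have h0 : 0 ≤ 5 * k - 6 + 2 * T := by nlinarith only [k1, T0, hN]
  have e1 : 0 ≤ (L - (6 * k + 6 * T + 1732 / 1000)) * (5 * k - 6 + 2 * T) :=
    mul_nonneg (by linarith only [hL]) h0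
  have e2 : 0 ≤ -30 * k ^ 2 + 5366 / 100 * k - 10392 / 1000 + 15 * k * T - 32536 / 1000 * T := by
    nlinarith only [k1, T0, hN]
  nlinarith only [hN, e1, e2]

theorem pencil63 {k L D fw r : ℝ} (S : Str 1 fw r) (hφ : fw < 0) (L0 : 0 < L) (D0 : 0 < D)
    (h6 : D < L * (1 + fw)) (h10 : 3 * k * (L + D) ≤ 2 * L * D) : 3 * k < L * (1 + r) := by
  obtain ⟨N, hN1, hN2⟩ := ceil63 L0 D0
  have hpos : 0 < ((N : ℝ) + 1) * fw + N := by
    have h7 : L * 1 < L * (((N : ℝ) + 1) * (1 + fw)) := by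
      have h8 : ((N : ℝ) + 1) * D < ((N : ℝ) + 1) * (L * (1 + fw)) :=
        mul_lt_mul_of_pos_left h6 (by positivity)
      linarith only [hN1, h8]
    have h8 := lt_of_mul_lt_mul_left h7 L0.le
    linarith only [h8]
  have h8 := str_c1 S hφ hpos
  have hr0 : 0 < 1 + r := by
    have : 0 < ((N : ℝ) + 1) * (1 + r) := by linarith only [h8]
    exact (mul_pos_iff_of_pos_left (by positivity)).1 this
  have h9 : 2 * D < (L + D) * (1 + r) := by
    have e1 : 2 * D < ((N : ℝ) + 1) * (1 + r) * D := mul_lt_mul_of_pos_right h8 D0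
    have e2 : ((N : ℝ) + 1) * D * (1 + r) < (L + D) * (1 + r) := mul_lt_mul_of_pos_right hN2 hr0
    linarith only [e1, e2]
  have h11 : (L + D) * (3 * k) < (L + D) * (L * (1 + r)) := by
    have e1 : L * (2 * D) < L * ((L + D) * (1 + r)) := mul_lt_mul_of_pos_left h9 L0
    linarith only [h10, e1]
  exact lt_of_mul_lt_mul_left h11 (by linarith only [L0, D0])

/-- one translation -/
theorem chain63 {b1 : ℝ} {R : ℝ → ℝ → ℝ → Prop} (h : RT b1 (1 / 2) 0 R) (hb1 : 0 < b1)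
    (hl : (2 * b1) ^ 2 = 3) {M f Y z k T E v : ℝ} (a6 : R M f Y) (hY : Y = E - T) (hYp : 1 ≤ Y)
    (hf : f = 2 * b1 * M - z) (eM : M = 1 + 2 * E - T) (T0 : 0 < T) (T1 : T < 1)
    (hz : z = 2 * b1 * (2 * (E + k)) - v) (hL : 2 * b1 * v = 4 * k + T + 3 * E) :
    1732 / 1000 ≤ 3 * E - 5 * T - 2 * k := by
  have Yp : 0 < Y := by linarith only [hYp]
  have l0 : 1732 / 1000 ≤ 2 * b1 := by
    by_contra h8
    rw [not_le] at h8
    nlinarith only [hb1, hl, h8]
  obtain ⟨P, hP⟩ : ∃ P, P = 2 * b1 * z + Y - M := ⟨_, rfl⟩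
  obtain ⟨Q, hQ⟩ : ∃ Q, Q = 2 * b1 * P - z := ⟨_, rfl⟩
  obtain ⟨W', hW'⟩ : ∃ W', W' = 2 * b1 * Q + Y - P := ⟨_, rfl⟩
  obtain ⟨Z', hZ'⟩ : ∃ Z', Z' = 2 * b1 * W' - Q := ⟨_, rfl⟩
  obtain ⟨M', hM'⟩ : ∃ M', M' = 2 * b1 * Z' + Y - W' := ⟨_, rfl⟩
  obtain ⟨f', hf'⟩ : ∃ f', f' = 2 * b1 * M' - Z' := ⟨_, rfl⟩
  have c1 : R M z Y := by
    have := h.r1 _ _ _ a6
    have e : 2 * b1 * M + 2 * 0 * Y - f = z := by rw [hf]; ring
    rwa [e] at this
  have c2 : R P z Y := by
    have := h.r0 _ _ _ c1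
    have e : 2 * b1 * z + 2 * (1 / 2) * Y - M = P := by rw [hP]; ring
    rwa [e] at this
  have c3 : R P Q Y := by
    have := h.r1 _ _ _ c2
    have e : 2 * b1 * P + 2 * 0 * Y - z = Q := by rw [hQ]; ring
    rwa [e] at this
  have c4 : R W' Q Y := by
    have := h.r0 _ _ _ c3
    have e : 2 * b1 * Q + 2 * (1 / 2) * Y - P = W' := by rw [hW']; ring
    rwa [e] at this
  have c5 : R W' Z' Y := by
    have := h.r1 _ _ _ c4
    have e : 2 * b1 * W' + 2 * 0 * Y - Q = Z' := by rw [hZ']; ring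
    rwa [e] at this
  have c6 : R M' Z' Y := by
    have := h.r0 _ _ _ c5
    have e : 2 * b1 * Z' + 2 * (1 / 2) * Y - W' = M' := by rw [hM']; ring
    rwa [e] at this
  have c7 : R M' f' Y := by
    have := h.r1 _ _ _ c6
    have e : 2 * b1 * M' + 2 * 0 * Y - Z' = f' := by rw [hf']; ring
    rwa [e] at this
  have lz : 2 * b1 * z = 3 * (2 * (E + k)) - (4 * k + T + 3 * E) := by
    rw [hz]
    linear_combination (2 * (E + k)) * hl - hL
  have eP : P = 2 * (E + k) - (T + 1) := by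
    rw [hP, lz, hY, eM]; ring
  have lQ : 2 * b1 * Q = 3 * (2 * (E + k) - (T + 1)) - (3 * (2 * (E + k)) - (4 * k + T + 3 * E)) := by
    rw [hQ, eP]
    linear_combination (2 * (E + k) - (T + 1)) * hl - lz
  have eW' : W' = 2 * (E + k) - 2 * (T + 1) := by
    rw [hW', lQ, eP, hY]; ring
  have lZ : 2 * b1 * Z' = 3 * W' - 2 * b1 * Q := by
    rw [hZ']
    linear_combination W' * hl
  have eM' : M' = 2 * E - 3 * T - 1 := by
    rw [hM', lZ, lQ, eW', hY]; ring
  have lf : 2 * b1 * f' = 3 * E - 5 * T - 2 * k := by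
    have e1 : 2 * b1 * f' = 3 * M' - 2 * b1 * Z' := by
      rw [hf']
      linear_combination M' * hl
    rw [e1, lZ, eM', lQ, eW']
    ring
  have hf1 : 1 ≤ f' := by
    rcases (pos3 h c7 Yp).2.1 with h6 | h6
    · exfalso
      have n7 := h.n _ _ _ c7
      rw [h6] at n7
      have e1 : (M' - Y) ^ 2 + (M' * Y - 1) = 0 := by linarith only [n7]
      rcases (pos3 h c7 Yp).1 with h7 | h7
      · rw [h7] at e1
        have e0 : Y ^ 2 = 1 := by linarith only [e1]
        have e2 : Y = 1 := by nlinarith only [Yp, e0]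
        rw [eM'] at h7
        linarith only [hY, hYp, T1, h7]
      · have e2 : 1 ≤ M' * Y := by nlinarith only [hYp, h7]
        have e3 : (M' - Y) ^ 2 ≤ 0 := by linarith only [e1, e2]
        have e4 : M' - Y = 0 := by
          have := sq_nonneg (M' - Y)
          exact pow_eq_zero_iff (two_ne_zero) |>.1 (le_antisymm e3 this)
        have e5 : Y = 1 := by
          have e6 : M' = Y := by linarith only [e4]
          rw [e6] at e1
          nlinarith only [e1, h7, e4]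
        rw [eM'] at e4
        linarith only [hY, T0, e4, e5]
    · exact h6
  rw [← lf]
  nlinarith only [l0, hf1]

/-- **labels `(6, 3)`** -/
theorem by63 {b1 : ℝ} {R : ℝ → ℝ → ℝ → Prop} (h : RT b1 (1 / 2) 0 R) {g v x2 y : ℝ} (hx : R g v x2)
    (hb1 : 0 < b1) (hv : 1 ≤ v) (hY : 1 ≤ g - x2) (hc : g ≤ b1 * v + x2 / 2)
    (hy : y = (g + x2) / 2 - b1 * v) (hy0 : 1 / 2 < y) (h3 : 4 * b1 ^ 2 = 3) {κ q1 r1 r2 : ℝ}
    (fx : g + v * q1 - x2 * κ = 0)
    (hκ : 1 < κ) (hp : (κ - 1) * (1 + (b1 * v + x2 / 2 - g)) ≤ y - 1 / 2) (hr2 : -(1 / 2) ≤ r2)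
    (S : Str (2 * b1 ^ 2 - 1 / 2) (1 + 2 * b1 * q1 - κ) (1 + 2 * b1 * r1 + r2))
    (hz : 1 + 2 * b1 * q1 - κ = 0 → 0 ≤ 1 + 2 * b1 * r1 + r2) : 1 < g + v * r1 + x2 * r2 := by
  have nrm := h.n _ _ _ hx
  obtain ⟨k, hk⟩ : ∃ k, k = 1 + (b1 * v + x2 / 2 - g) := ⟨_, rfl⟩
  obtain ⟨T, hT⟩ : ∃ T, T = 2 * y - 1 := ⟨_, rfl⟩
  obtain ⟨E, hE⟩ : ∃ E, E = g - x2 - 1 := ⟨_, rfl⟩
  have hL : 2 * b1 * v = 4 * k + T + 3 * E := by rw [hk, hT, hE, hy]; ring
  have hl : (2 * b1) ^ 2 = 3 := by linarith only [h3]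
  have k1 : 1 ≤ k := by rw [hk]; linarith only [hc]
  have T0 : 0 < T := by rw [hT]; linarith only [hy0]
  have E0 : 0 ≤ E := by rw [hE]; linarith only [hY]
  have hN : T ^ 2 + 2 * T * k + 4 * k ^ 2 - 6 * k = 0 := by
    rw [hk, hT, hy]
    linear_combination 3 * nrm + (v ^ 2) * h3
  have hT1 : T ≤ 733 / 1000 := by nlinarith only [k1, hN]
  have hk2 : k ≤ 3 / 2 := by nlinarith only [T0, hN]
  obtain ⟨p, hp'⟩ : ∃ p, p = κ - 1 := ⟨_, rfl⟩
  have p0 : 0 < p := by rw [hp']; linarith only [hκ]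
  have hpk : p * k ≤ T / 2 := by
    rw [hp', hk, hT]
    linarith only [hp]
  obtain ⟨D, hD⟩ : ∃ D, D = 2 * b1 * x2 - v := ⟨_, rfl⟩
  have hD' : 2 * b1 * D = 2 * (T + k) := by
    rw [hD, hk, hT, hy]
    linear_combination x2 * hl
  have D0 : 0 < D := by
    have h5 : 0 < 2 * b1 * D := by
      rw [hD']
      positivity
    exact (mul_pos_iff_of_pos_left (by linarith only [hb1] : 0 < 2 * b1)).1 h5
  have hw : v * (1 + 2 * b1 * q1 - κ) = p * D - 2 * b1 * (1 + E) := by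
    rw [hp', hD, hE]
    linear_combination (2 * b1) * fx
  -- the final inequality
  have fin : 3 + 3 * (k - 1) < 2 * b1 * v * (2 + 2 * b1 * r1 + r2) → 1 < g + v * r1 + x2 * r2 := by
    intro hr
    have h6 : D * (-(1 / 2)) ≤ D * r2 := mul_le_mul_of_nonneg_left hr2 D0.le
    have h7 : 3 * (g + v * r1 + x2 * r2) =
        (2 * b1 * v * (2 + 2 * b1 * r1 + r2) - 3 * (k - 1)) + 2 * b1 * (D * r2 - D * (-(1 / 2))) := by
      rw [hD, hk]
      linear_combination (-(v * r1 + x2 * r2 + x2 / 2)) * hl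
    have h8 : 0 ≤ 2 * b1 * (D * r2 - D * (-(1 / 2))) := mul_nonneg (by linarith only [hb1]) (by linarith only [h6])
    linarith only [hr, h7, h8]
  have hs0 : 0 < 2 * b1 := by linarith only [hb1]
  have eS : 2 * b1 ^ 2 - 1 / 2 = 1 := by linarith only [hl]
  rw [eS] at S
  rcases lt_trichotomy (1 + 2 * b1 * q1 - κ) 0 with hφ | hφ | hφ
  · -- `φ w < 0`
    obtain ⟨fw, hfw⟩ : ∃ fw, fw = 1 + 2 * b1 * q1 - κ := ⟨_, rfl⟩
    obtain ⟨r, hr⟩ : ∃ r, r = 1 + 2 * b1 * r1 + r2 := ⟨_, rfl⟩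
    obtain ⟨L, hL'⟩ : ∃ L, L = 4 * k + T + 3 * E := ⟨_, rfl⟩
    rw [← hfw, ← hr] at S
    rw [← hfw] at hφ hw
    have hLf : -(3 * (1 + E)) < L * fw := by
      have e1 : L * fw = 2 * b1 * (p * D) - 3 * (1 + E) := by
        rw [hL', ← hL]
        linear_combination (2 * b1) * hw - (1 + E) * hl
      rw [e1]
      have : 0 < 2 * b1 * (p * D) := by positivity
      linarith only [this]
    have L0 : 0 < L := by rw [hL']; linarith only [hY, hc, hy, hy0, hL]
    have fin' : 3 * k < L * (1 + r) → 1 < g + v * r1 + x2 * r2 := by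
      intro h5
      apply fin
      have e1 : 2 + 2 * b1 * r1 + r2 = 1 + r := by rw [hr]; ring
      rw [e1, hL, ← hL']
      linarith only [h5]
    obtain ⟨W, hW⟩ : ∃ W, W = 2 * b1 * v - x2 := ⟨_, rfl⟩
    obtain ⟨z, hzz⟩ : ∃ z, z = 2 * b1 * W - v := ⟨_, rfl⟩
    obtain ⟨M, hM⟩ : ∃ M, M = 2 * b1 * z + (g - x2) - W := ⟨_, rfl⟩
    obtain ⟨f, hf⟩ : ∃ f, f = 2 * b1 * M - z := ⟨_, rfl⟩
    obtain ⟨-, a5, M1, -⟩ := coords h hx hY hc hW hzz hM hf
    have eM : M = 1 + 2 * E - T := by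
      rw [hM, hzz, hW, hE, hT, hy]
      linear_combination (2 * b1 * v - x2) * hl
    have a6 : R M f (M - (g - x2)) := by
      have := h.r2 _ _ _ a5
      have e : 2 * (1 / 2) * M + 2 * 0 * f - (g - x2) = M - (g - x2) := by ring
      rwa [e] at this
    have eY : M - (g - x2) = E - T := by rw [eM, hE]; ring
    rw [eY] at a6
    have hT1' : T < 1 := by linarith only [hT1]
    rcases (pos1 h a6 (by linarith only [M1])).2.2 with h5 | h5
    · -- `E = T`
      rw [h5] at a6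
      have eT : E = T := by linarith only [h5]
      have h6 := g2_root h hl hb1 a6 (by rw [eM]; linarith only [T0, eT]) (by rw [eM]; linarith only [hT1', h5])
      have h7 : (1 + T) ^ 2 = 3 := by
        have : M = 1 + T := by rw [eM, eT]; ring
        rw [← this]
        exact h6
      have hk1 : k = 1 := by
        have e1 : (k - 1) * (4 * k - 2 + 2 * T) = 0 := by linarith only [hN, h7]
        rcases mul_eq_zero.1 e1 with e2 | e2 <;> linarith
      have hLT : L = 4 * (1 + T) := by rw [hL', hk1, eT]; ring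
      have hf3 : -(3 / 4) < fw := by
        rw [hLT, eT] at hLf
        have : 0 < 4 * (1 + T) * (fw + 3 / 4) := by linarith only [hLf]
        have := (mul_pos_iff_of_pos_left (by linarith only [M1, eM, eT] : 0 < 4 * (1 + T))).1 this
        linarith only [this]
      have h8 := str_c1 S hφ (N := 3) (by push_cast; linarith only [hf3])
      push_cast at h8
      apply fin'
      rw [hk1, hLT]
      have h9 : 17 / 10 ≤ 1 + T := by
        by_contra h10
        rw [not_le] at h10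
        nlinarith only [M1, eM, eT, h7, h10]
      have h10 : 17 / 10 * (1 / 2) ≤ (1 + T) * (1 + r) :=
        mul_le_mul h9 (by linarith only [h8]) (by norm_num) (by linarith only [h9])
      linarith only [h10]
    · -- `E ≥ T + 1`
      have hbig := chain63 h hb1 hl a6 rfl h5 hf eM T0 hT1' (by
        rw [hzz, hW, hE, hk]; ring) hL
      have hLb : 6 * k + 6 * T + 1732 / 1000 ≤ L := by rw [hL']; linarith only [hbig]
      have D0p : 0 < 4 * k - 3 + T := by linarith only [k1, T0]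
      apply fin'
      refine pencil63 S hφ L0 D0p ?_ (real63 k1 T0 hk2 hT1 hN hLb)
      rw [hL'] at hLf ⊢
      linarith only [hLf]
  · -- `φ w = 0`
    have h5 := hz hφ
    apply fin
    have h6 : 2 * b1 * v * 1 ≤ 2 * b1 * v * (2 + 2 * b1 * r1 + r2) :=
      mul_le_mul_of_nonneg_left (by linarith only [h5]) (by positivity)
    rw [mul_one, hL] at h6
    rw [hL]
    linarith only [k1, T0, E0, h6]
  · -- `φ w > 0`
    exfalso
    have hv0 : 0 < v := by linarith only [hv]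
    have h5 : 0 < p * D - 2 * b1 * (1 + E) := by
      rw [← hw]
      exact mul_pos hv0 hφ
    have h6 : k * (2 * b1 * (1 + E)) < D * (T / 2) := by
      have h7 : D * (p * k) ≤ D * (T / 2) := mul_le_mul_of_nonneg_left hpk D0.le
      have h8 : k * (2 * b1 * (1 + E)) < k * (p * D) := mul_lt_mul_of_pos_left (by linarith only [h5]) (by linarith only [k1])
      linarith only [h7, h8]
    have h7 : 2 * b1 * (k * (2 * b1 * (1 + E))) < 2 * b1 * (D * (T / 2)) :=
      mul_lt_mul_of_pos_left h6 (by linarith only [hs0])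
    have e1 : 2 * b1 * (k * (2 * b1 * (1 + E))) = 3 * k * (1 + E) := by
      linear_combination (k * (1 + E)) * hl
    have e2 : 2 * b1 * (D * (T / 2)) = (T + k) * T := by
      linear_combination (T / 2) * hD'
    rw [e1, e2] at h7
    nlinarith only [k1, T0, hT1, h7, mul_nonneg (by linarith only [k1] : 0 ≤ k) E0]

end Pool.Agent.Helper78.DY
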