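import Pool.Agent.Helper78.DY.R
import Pool.Agent.Helper10.DY.P

/-!
# Reduction of tightness of the balls to triangle systems (MP_d13a5e_al, blocks P and R together)
-/

namespace DY

open Set

variable {E : Type*} [AddCommGroup E] [Module ℝ E]

/-- tightness of the balls from tightness of the balls of the triangle systems -/
theorem tight_of_tri {Φ : Set E} {B : E →ₗ[ℝ] E →ₗ[ℝ] ℝ} {ρ : E →ₗ[ℝ] ℝ} (h : RS Φ B ρ)
    (hT : ∀ (Ψ : Set E) (a b c : E), Tri Ψ B a b c → 0 < ρ a → 0 < ρ b → 0 < ρ c →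
      (∀ u ∈ Ψ, ∀ v ∈ Ψ, ρ u = ρ v → u = v) → ∀ r, Tight {u | u ∈ Ψ ∧ 0 < ρ u ∧ ρ u ≤ r}) :
    ∀ r, Tight (ball Φ ρ r) :=
  tight_of_tri_aux h (fun _ ha _ hb _ hc hi hab hac hbc =>
    tri_of_canon h ha hb hc hi hab hac hbc) hT

end DY
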